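import Pool.Agent.Lib.MP_5c57f5_nt.Iso

/-!
The polynomials of the isogeny over a commutative ring.
-/

namespace Pool.Agent.MP5c57f5

open Polynomial Finset

section

variable {R : Type*} [CommRing R]

noncomputable def f1 (r : R) : R[X] := X ^ 3 + 10 * (3 * X + (20 + 9 * C r)) ^ 2

noncomputable def vR (r : R) : R[X] := X ^ 2 + (35 + 15 * C r) * X + (550 + 246 * C r)

noncomputable def uR (r : R) : R[X] := X ^ 5 + (100 + 30 * C r) * X ^ 4
  + (5250 + 2550 * C r) * X ^ 3 + (164500 + 73500 * C r) * X ^ 2 + (1885000 + 843000 * C r) * X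

noncomputable def wR (r : R) : R[X] := X ^ 6 + (105 + 45 * C r) * X ^ 5
  + (9000 + 3780 * C r) * X ^ 4 + (413600 + 185400 * C r) * X ^ 3
  + (12417000 + 5553000 * C r) * X ^ 2 + (232560000 + 104004000 * C r) * X
  + (2073640000 + 927360000 * C r)

lemma C_sqR (r : R) (hr : r ^ 2 = 5) : (C r : R[X]) ^ 2 = 5 := by
  rw [← C_pow, hr]
  rfl

lemma fw1 (r : R) (hr : r ^ 2 = 5) :
    f1 r * wR r ^ 2 = uR r ^ 3 + 156250 * vR r ^ 6 := by
  have h := C_sqR r hr
  unfold f1 wR uR vR
  linear_combination ((-675) * X ^ 13 + (-157140 - 27000 * C r) * X ^ 12 + (-19110600 - 5718600 * C r) * X ^ 11 + (-1666622250 - 578898900 * C r + 1640250 * C r ^ 2) * X ^ 10 + (-110404323000 - 43590528000 * C r + 275562000 * C r ^ 2) * X ^ 9 + (-5700753236250 - 2669212035000 * C r - 93563079750 * C r ^ 2) * X ^ 8 + (-231006496387500 - 131257032997500 * C r - 14549128672500 * C r ^ 2 - 711914062500 * C r ^ 3) * X ^ 7 + (-7305945803943750 - 4991619025237500 * C r - 951665091750000 * C r ^ 2 - 83293945312500 * C r ^ 3 - 1779785156250 * C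 r ^ 4) * X ^ 6 + (-177544082719125000 - 141612851832750000 * C r - 36665132930100000 * C r ^ 2 - 4349510156250000 * C r ^ 3 - 175130859375000 * C r ^ 4) * X ^ 5 + (-3209706884300625000 - 2897619472851750000 * C r - 909878508972000000 * C r ^ 2 - 130526197031250000 * C r ^ 3 - 7180365234375000 * C r ^ 4) * X ^ 4 + (-40752388785870000000 - 40948551668385000000 * C r - 14765453550405000000 * C r ^ 2 - 2409692277375000000 * C r ^ 3 - 157010653125000000 * C r ^ 4) * X ^ 3 + (-331361193089362500000 - 371850367025925000000 * C r - 151028589344940000000 * C r ^ 2 - 27128175038415000000 * C r ^ 3 - 1931231033437500000 * C r ^ 4) * X ^ 2 + (-1473308662250250000000 - 1891835333313300000000 * C r - 870828144685200000000 * C r ^ 2 - 171184318803900000000 * C r ^ 3 - 12668875579350000000 * C r ^ 4) * X + (-2574966260148750000000 - 3851405736664500000000 * C r - 2072976912052200000000 * C r ^ 2 - 464525437909500000000 * C r ^ 3 - 34628259916890000000 * C r ^ 4)) * h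

lemma wR_eq (r : R) (hr : r ^ 2 = 5) :
    wR r = derivative (uR r) * vR r - 2 * (uR r * derivative (vR r)) := by
  have h := C_sqR r hr
  have hU : derivative (uR r) = 5 * X ^ 4 + 4 * (100 + 30 * C r) * X ^ 3
      + 3 * (5250 + 2550 * C r) * X ^ 2 + 2 * (164500 + 73500 * C r) * X
      + (1885000 + 843000 * C r) := by
    unfold uR
    simp only [derivative_add, derivative_mul, derivative_X_pow, derivative_C, derivative_ofNat,
      derivative_X]
    simp only [Nat.cast_ofNat, show (C (5 : R) : R[X]) = 5 from rfl,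
      show (C (4 : R) : R[X]) = 4 from rfl, show (C (3 : R) : R[X]) = 3 from rfl,
      show (C (2 : R) : R[X]) = 2 from rfl]
    ring
  have hV : derivative (vR r) = 2 * X + (35 + 15 * C r) := by
    unfold vR
    simp only [derivative_add, derivative_mul, derivative_X_pow, derivative_C, derivative_ofNat,
      derivative_X]
    simp only [Nat.cast_ofNat, show (C (2 : R) : R[X]) = 2 from rfl]
    ring
  rw [hU, hV]
  unfold wR uR vR
  linear_combination ((-900) * X ^ 4 + (-67770) * X ^ 3 + (-1881900) * X ^ 2 + (-23517000) * X + (-207378000)) * h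

variable {S : Type*} [CommRing S]

lemma f1_map (φ : R →+* S) (r : R) : (f1 r).map φ = f1 (φ r) := by
  unfold f1
  simp

lemma uR_map (φ : R →+* S) (r : R) : (uR r).map φ = uR (φ r) := by
  unfold uR
  simp

lemma vR_map (φ : R →+* S) (r : R) : (vR r).map φ = vR (φ r) := by
  unfold vR
  simp

lemma wR_map (φ : R →+* S) (r : R) : (wR r).map φ = wR (φ r) := by
  unfold wR
  simp

lemma vR_zero (r : R) : (vR r).coeff 0 = 550 + 246 * r := by
  unfold vR
  simp [coeff_zero_eq_eval_zero]

lemma uR_zero (r : R) : (uR r).coeff 0 = 0 := by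
  unfold uR
  simp [coeff_zero_eq_eval_zero]

lemma wR_zero (r : R) : (wR r).coeff 0 = 2073640000 + 927360000 * r := by
  unfold wR
  simp [coeff_zero_eq_eval_zero]

end

end Pool.Agent.MP5c57f5
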