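import Mathlib

/-!
An explicit isogeny of degree five from the curve `Y^2 = FF` to `Y^2 = 4 X^3 + 625000`, and the
coefficient of `X^(p-1)` in `FF^((p-1)/2)` in characteristic `p`.
-/

namespace Pool.Agent.MP5c57f5

open Polynomial Finset

section

variable {K : Type*} [Field K]

noncomputable def FF (r : K) : K[X] := 4 * X ^ 3 + 40 * (3 * X + (20 + 9 * C r)) ^ 2

noncomputable def VV (r : K) : K[X] := X ^ 2 + (35 + 15 * C r) * X + (550 + 246 * C r)

noncomputable def UU (r : K) : K[X] := X ^ 5 + (100 + 30 * C r) * X ^ 4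
  + (5250 + 2550 * C r) * X ^ 3 + (164500 + 73500 * C r) * X ^ 2 + (1885000 + 843000 * C r) * X

noncomputable def WW (r : K) : K[X] := X ^ 6 + (105 + 45 * C r) * X ^ 5
  + (9000 + 3780 * C r) * X ^ 4 + (413600 + 185400 * C r) * X ^ 3
  + (12417000 + 5553000 * C r) * X ^ 2 + (232560000 + 104004000 * C r) * X
  + (2073640000 + 927360000 * C r)

lemma C_sq (r : K) (hr : r ^ 2 = 5) : (C r : K[X]) ^ 2 = 5 := by
  rw [← C_pow, hr]
  rfl

lemma FW (r : K) (hr : r ^ 2 = 5) :
    FF r * WW r ^ 2 = 4 * UU r ^ 3 + 625000 * VV r ^ 6 := by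
  have h := C_sq r hr
  unfold FF WW UU VV
  linear_combination ((-2700) * X ^ 13 + (-628560 - 108000 * C r) * X ^ 12 + (-76442400 - 22874400 * C r) * X ^ 11 + (-6666489000 - 2315595600 * C r + 6561000 * C r ^ 2) * X ^ 10 + (-441617292000 - 174362112000 * C r + 1102248000 * C r ^ 2) * X ^ 9 + (-22803012945000 - 10676848140000 * C r - 374252319000 * C r ^ 2) * X ^ 8 + (-924025985550000 - 525028131990000 * C r - 58196514690000 * C r ^ 2 - 2847656250000 * C r ^ 3) * X ^ 7 + (-29223783215775000 - 19966476100950000 * C r - 3806660367000000 * C r ^ 2 - 333175781250000 * C r ^ 3 - 7119140625000 * C r ^ 4) * X ^ 6 + (-710176330876500000 - 566451407331000000 * C r - 146660531720400000 * C r ^ 2 - 17398040625000000 * C r ^ 3 - 700523437500000 * C r ^ 4) * X ^ 5 + (-12838827537202500000 - 11590477891407000000 * C r - 3639514035888000000 * C r ^ 2 - 522104788125000000 * C r ^ 3 - 28721460937500000 * C r ^ 4) * X ^ 4 + (-163009555143480000000 - 163794206673540000000 * C r - 59061814201620000000 * C r ^ 2 - 9638769109500000000 * C r ^ 3 - 628042612500000000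 * C r ^ 4) * X ^ 3 + (-1325444772357450000000 - 1487401468103700000000 * C r - 604114357379760000000 * C r ^ 2 - 108512700153660000000 * C r ^ 3 - 7724924133750000000 * C r ^ 4) * X ^ 2 + (-5893234649001000000000 - 7567341333253200000000 * C r - 3483312578740800000000 * C r ^ 2 - 684737275215600000000 * C r ^ 3 - 50675502317400000000 * C r ^ 4) * X + (-10299865040595000000000 - 15405622946658000000000 * C r - 8291907648208800000000 * C r ^ 2 - 1858101751638000000000 * C r ^ 3 - 138513039667560000000 * C r ^ 4)) * h

lemma WW_eq (r : K) (hr : r ^ 2 = 5) :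
    WW r = derivative (UU r) * VV r - 2 * (UU r * derivative (VV r)) := by
  have h := C_sq r hr
  have hU : derivative (UU r) = 5 * X ^ 4 + 4 * (100 + 30 * C r) * X ^ 3
      + 3 * (5250 + 2550 * C r) * X ^ 2 + 2 * (164500 + 73500 * C r) * X
      + (1885000 + 843000 * C r) := by
    unfold UU
    simp only [derivative_add, derivative_mul, derivative_X_pow, derivative_C, derivative_ofNat,
      derivative_X]
    simp only [Nat.cast_ofNat, show (C (5 : K) : K[X]) = 5 from rfl,
      show (C (4 : K) : K[X]) = 4 from rfl, show (C (3 : K) : K[X]) = 3 from rfl,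
      show (C (2 : K) : K[X]) = 2 from rfl]
    ring
  have hV : derivative (VV r) = 2 * X + (35 + 15 * C r) := by
    unfold VV
    simp only [derivative_add, derivative_mul, derivative_X_pow, derivative_C, derivative_ofNat,
      derivative_X]
    simp only [Nat.cast_ofNat, show (C (2 : K) : K[X]) = 2 from rfl]
    ring
  rw [hU, hV]
  unfold WW UU VV
  linear_combination ((-900) * X ^ 4 + (-67770) * X ^ 3 + (-1881900) * X ^ 2 + (-23517000) * X + (-207378000)) * h

lemma WW_ne (r : K) : WW r ≠ 0 := by
  intro h
  have e : WW r = X ^ 6 + C (105 + 45 * r) * X ^ 5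
      + C (9000 + 3780 * r) * X ^ 4 + C (413600 + 185400 * r) * X ^ 3
      + C (12417000 + 5553000 * r) * X ^ 2 + C (232560000 + 104004000 * r) * X
      + C (2073640000 + 927360000 * r) := by
    unfold WW
    simp only [C_add, C_mul, C_ofNat]
  have h2 : (WW r).coeff 6 = 0 := by rw [h, coeff_zero]
  rw [e] at h2
  simp only [coeff_add, coeff_C_mul, coeff_X_pow, coeff_X, coeff_C] at h2
  norm_num at h2

end

section

variable {K : Type*} [Field K] (p : ℕ) [hp : Fact p.Prime] [CharP K p]

include hp in
lemma iter_p (g : K[X]) : derivative^[p] g = 0 := by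
  rw [← Polynomial.factorial_smul_hasseDeriv]
  rw [LinearMap.smul_apply, nsmul_eq_mul]
  have h : ((p.factorial : ℕ) : K[X]) = 0 := by
    rw [CharP.cast_eq_zero_iff K[X] p]
    exact Nat.dvd_factorial hp.out.pos le_rfl
  rw [h, zero_mul]

omit hp in
lemma iter_mul (w g : K[X]) (k : ℕ) :
    derivative^[k] (w ^ p * g) = w ^ p * derivative^[k] g := by
  induction k generalizing g with
  | zero => rfl
  | succ k ih =>
    rw [Function.iterate_succ_apply, Function.iterate_succ_apply, derivative_mul, derivative_pow,
      CharP.cast_eq_zero K p]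
    simp only [map_zero, zero_mul, zero_add]
    exact ih _

include hp in
lemma fact_ne : (((p - 1).factorial : ℕ) : K) = -1 := by
  have h := ZMod.wilsons_lemma p
  have h2 := congrArg (ZMod.castHom (dvd_refl p) K) h
  rw [map_natCast, map_neg, map_one] at h2
  exact h2

omit hp [CharP K p] in
lemma iter_add (f g : K[X]) (k : ℕ) :
    derivative^[k] (f + g) = derivative^[k] f + derivative^[k] g := by
  induction k with
  | zero => rfl
  | succ k ih =>
    rw [Function.iterate_succ_apply', Function.iterate_succ_apply', Function.iterate_succ_apply',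
      ih, derivative_add]

include hp in
lemma iter_coeff (g : K[X]) (k : K) (h : derivative^[p - 1] g = C (-k)) : g.coeff (p - 1) = k := by
  have h1 := congrArg (fun f => coeff f 0) h
  simp only [coeff_iterate_derivative, coeff_C_zero, zero_add, Nat.descFactorial_self,
    nsmul_eq_mul] at h1
  rw [fact_ne p] at h1
  linear_combination (-1 : K) * h1

include hp in
lemma jac_mul (U V : K[X]) (hU : derivative^[p - 1] (U ^ (p - 1) * derivative U) = -derivative U ^ p)
    (hV : derivative^[p - 1] (V ^ (p - 1) * derivative V) = -derivative V ^ p) :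
    derivative^[p - 1] ((U * V) ^ (p - 1) * derivative (U * V)) = -derivative (U * V) ^ p := by
  have hpp : p - 1 + 1 = p := Nat.sub_add_cancel hp.out.one_le
  have e : (U * V) ^ (p - 1) * derivative (U * V)
      = V ^ p * (U ^ (p - 1) * derivative U) + U ^ p * (V ^ (p - 1) * derivative V) := by
    rw [derivative_mul]
    conv_rhs => rw [show V ^ p = V ^ (p - 1) * V by rw [← pow_succ, hpp],
      show U ^ p = U ^ (p - 1) * U by rw [← pow_succ, hpp]]
    ring
  rw [e, iter_add, iter_mul p V, iter_mul p U, hU, hV, derivative_mul, add_pow_char,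
    mul_pow, mul_pow]
  ring

include hp in
lemma jac_C (a : K) :
    derivative^[p - 1] ((C a : K[X]) ^ (p - 1) * derivative (C a)) = -derivative (C a) ^ p := by
  rw [derivative_C, mul_zero, iterate_derivative_zero, zero_pow hp.out.ne_zero, neg_zero]

include hp in
lemma jac_X (a : K) :
    derivative^[p - 1] ((X - C a : K[X]) ^ (p - 1) * derivative (X - C a))
      = -derivative (X - C a) ^ p := by
  rw [derivative_X_sub_C, mul_one, one_pow, iterate_derivative_X_sub_pow]
  rw [Nat.descFactorial_self, Nat.sub_self, pow_zero, nsmul_eq_mul, mul_one]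
  have h : (((p - 1).factorial : ℕ) : K[X]) = C (((p - 1).factorial : ℕ) : K) := by simp
  rw [h, fact_ne p]
  simp

include hp in
lemma jac [IsAlgClosed K] (U : K[X]) :
    derivative^[p - 1] (U ^ (p - 1) * derivative U) = -derivative U ^ p := by
  have hs := IsAlgClosed.splits U
  rw [hs.eq_prod_roots]
  apply jac_mul p _ _ (jac_C p _)
  induction U.roots using Multiset.induction_on with
  | empty =>
    simp only [Multiset.map_zero, Multiset.prod_zero]
    have := jac_C p (1 : K)
    rwa [C_1] at this
  | cons a s ih =>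
    rw [Multiset.map_cons, Multiset.prod_cons]
    exact jac_mul p _ _ (jac_X p a) ih

end

end Pool.Agent.MP5c57f5
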