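import Mathlib
import Pool.Agent.Lib.MP_5c57f5_nt.Iso

/-!
Bezout certificates: `WW r` is prime to `VV r` and to its own derivative, if `r ^ 2 = 5` and
`2, 3, 5` are not zero.  (Row BEZ, helper87.)
-/

set_option autoImplicit false

namespace Pool.Agent.MP5c57f5

open Polynomial Finset

section

variable {K : Type*} [Field K]

lemma coprime_of_const (c : K) (hc : c ≠ 0) (a b u v : K[X]) (h : u * a + v * b = C c) :
    IsCoprime a b := by
  refine ⟨C c⁻¹ * u, C c⁻¹ * v, ?_⟩
  have h1 : C c⁻¹ * u * a + C c⁻¹ * v * b = C c⁻¹ * (u * a + v * b) := by ring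
  rw [h1, h, ← C_mul, inv_mul_cancel₀ hc, C_1]

lemma bez_WV (r : K) (hr : r ^ 2 = 5) :
    ((-442775 + 198015 * C r) * X + (-667350 + 298448 * C r)) * WW r
    + ((442775 - 198015 * C r) * X ^ 5 + (1959350 - 876248 * C r) * X ^ 4
        + (242586000 - 108487760 * C r) * X ^ 3 + (-416467660 + 186249900 * C r) * X ^ 2
        + (30634400 - 13702400 * C r) * X + (-4758000 + 2101360 * C r)) * VV r = 172800 := by
  have h := C_sq r hr
  unfold WW VV
  linear_combination ((5940450) * X ^ 6 + (700071450) * X ^ 5 + (35997241032) * X ^ 4 + (1131015313740) * X ^ 3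
      + (22297245743400) * X ^ 2 + (214667636922000) * X ^ 1 + (276769254214560)) * h

lemma WW_der (r : K) : derivative (WW r) = 6 * X ^ 5 + 5 * (105 + 45 * C r) * X ^ 4
    + 4 * (9000 + 3780 * C r) * X ^ 3 + 3 * (413600 + 185400 * C r) * X ^ 2
    + 2 * (12417000 + 5553000 * C r) * X + (232560000 + 104004000 * C r) := by
  unfold WW
  simp only [derivative_add, derivative_mul, derivative_X_pow, derivative_C, derivative_ofNat,
    derivative_X]
  push_cast
  simp only [map_ofNat]
  ring

lemma bez_WW (r : K) (hr : r ^ 2 = 5) :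
    ((-3284413830 + 1468834518 * C r) * X ^ 4 + (-12071997000 + 5398761180 * C r) * X ^ 3
      + (-1199495378400 + 536430640800 * C r) * X ^ 2 + (1554368919000 - 695134917000 * C r) * X
      + (-77414220000 + 34620642000 * C r)) * WW r
    + ((547402305 - 244805753 * C r) * X ^ 5 + (2411324100 - 1078376920 * C r) * X ^ 4
        + (299857784500 - 134100477900 * C r) * X ^ 3
        + (-520925398500 + 232964922100 * C r) * X ^ 2 + (46980960000 - 21010486000 * C r) * X
        + (-4468820000 + 1998960000 * C r)) * derivative (WW r) = 64800000000 := by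
  have h := C_sq r hr
  rw [WW_der]
  unfold WW
  linear_combination ((11016258885) * X ^ 9 + (1851040938780) * X ^ 8 + (134229989357100) * X ^ 7
      + (5860007098087500) * X ^ 6 + (171065959635852000) * X ^ 5 + (3301465777299180000) * X ^ 4
      + (45572528519866800000) * X ^ 3 + (449356808691770400000) * X ^ 2
      + (-643202605514736000000) * X ^ 1 + (32313698400960000000)) * h

/-- Row BEZ. -/
theorem coprime_WV (r : K) (hr : r ^ 2 = 5) (h2 : (2 : K) ≠ 0)
    (h3 : (3 : K) ≠ 0) (h5 : (5 : K) ≠ 0) :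
    IsCoprime (WW r) (VV r) ∧ IsCoprime (WW r) (derivative (WW r)) := by
  constructor
  · apply coprime_of_const 172800 _ _ _ _ _ (by rw [bez_WV r hr]; rfl)
    have h : (172800 : K) = 2 ^ 8 * 3 ^ 3 * 5 ^ 2 := by norm_num
    rw [h]
    exact mul_ne_zero (mul_ne_zero (pow_ne_zero _ h2) (pow_ne_zero _ h3)) (pow_ne_zero _ h5)
  · apply coprime_of_const 64800000000 _ _ _ _ _ (by rw [bez_WW r hr]; rfl)
    have h : (64800000000 : K) = 2 ^ 11 * 3 ^ 4 * 5 ^ 8 := by norm_num
    rw [h]
    exact mul_ne_zero (mul_ne_zero (pow_ne_zero _ h2) (pow_ne_zero _ h3)) (pow_ne_zero _ h5)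

end

end Pool.Agent.MP5c57f5
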