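import Pool.Agent.Lib.MP_5c57f5_nt.Clausen

/-!
Clausen's identity for the truncated sums modulo `p ^ 2` (exact below degree `p`).
-/

set_option autoImplicit false

namespace Pool.Agent.MP5c57f5

open Polynomial Finset MP8cc25e

/-- The truncated series with integral coefficients. -/
noncomputable def PZ (N : ℕ) : ℤ[X] := ∑ n ∈ range N, C (u n : ℤ) * X ^ n

lemma PZ_coeff (N n : ℕ) : (PZ N).coeff n = if n < N then (u n : ℤ) else 0 := by
  unfold PZ
  rw [finsetSum_coeff]
  simp only [coeff_C_mul_X_pow]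
  rw [sum_ite_eq (range N) n (fun k => (u k : ℤ))]
  simp only [mem_range]

lemma th_dvd {R : Type*} [CommRing R] (N : ℕ) (f : R[X]) (h : X ^ N ∣ f) : X ^ N ∣ th f := by
  obtain ⟨g, rfl⟩ := h
  rw [th_mul]
  refine dvd_add ?_ (Dvd.intro _ rfl)
  refine Dvd.dvd.mul_right ?_ g
  unfold th
  rw [derivative_X_pow]
  cases N with
  | zero => simp
  | succ N =>
    refine ⟨C (((N + 1 : ℕ)) : R), ?_⟩
    rw [Nat.add_sub_cancel, pow_succ]
    ring

lemma PZ_ode (N : ℕ) : (X : ℤ[X]) ^ N ∣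
    th (th (PZ N)) - X * (27 * th (th (PZ N)) + 27 * th (PZ N) + 6 * PZ N) := by
  rw [X_pow_dvd_iff]
  intro n hn
  have hc : ∀ (k : ℕ) (g : ℤ[X]) (m : ℕ), (((k : ℕ) : ℤ[X]) * g).coeff m = (k : ℤ) * g.coeff m := by
    intro k g m
    rw [← C_eq_natCast, coeff_C_mul]
  have hc' : ∀ (g : ℤ[X]) (m : ℕ), ((27 : ℤ[X]) * g).coeff m = 27 * g.coeff m ∧
      ((6 : ℤ[X]) * g).coeff m = 6 * g.coeff m := by
    intro g m
    exact ⟨by exact_mod_cast hc 27 g m, by exact_mod_cast hc 6 g m⟩
  rw [coeff_sub]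
  cases n with
  | zero => simp [th_coeff]
  | succ n =>
    rw [coeff_X_mul, coeff_add, coeff_add, (hc' _ _).1, (hc' _ _).1, (hc' _ _).2]
    simp only [th_coeff, PZ_coeff]
    have hr := u_rec n
    rw [if_pos hn, if_pos (show n < N by omega)]
    push_cast
    linear_combination hr

lemma OD_sq' (N : ℕ) (P : ℤ[X])
    (h : X ^ N ∣ th (th P) - X * (27 * th (th P) + 27 * th P + 6 * P)) :
    X ^ N ∣ OD (P ^ 2) := by
  obtain ⟨E, hE⟩ : ∃ E : ℤ[X], E = th (th P) - X * (27 * th (th P) + 27 * th P + 6 * P) :=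
    ⟨_, rfl⟩
  rw [← hE] at h
  have h1 := congrArg th hE
  simp only [th_sub, th_mul, th_add, th_X, th_2, th_6, th_27, th_54, th_zero] at h1
  have e1 : th (P ^ 2) = 2 * P * th P := by
    rw [pow_two, th_mul]
    ring
  have e2 : th (2 * P * th P) = 2 * th P * th P + 2 * P * th (th P) := by
    rw [th_mul, th_mul, th_2]
    ring
  have e3 : th (2 * th P * th P + 2 * P * th (th P))
      = 6 * th P * th (th P) + 2 * P * th (th (th P)) := by
    simp only [th_add, th_mul, th_2, th_6, th_27, th_54, th_zero]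
    ring
  have key : OD (P ^ 2) = (2 * (1 - 27 * X) * P) * th E
      + (6 * (1 - 27 * X) * th P - 54 * X * P) * E := by
    unfold OD
    rw [e1, e2, e3]
    linear_combination (-(2 * (1 - 27 * X) * P)) * h1
      - (6 * (1 - 27 * X) * th P - 54 * X * P) * hE
  rw [key]
  exact dvd_add ((th_dvd N E h).mul_left _) (h.mul_left _)

lemma OD_comp' (f : ℤ[X]) :
    (1 - 27 * X) * OD (f.comp (X * (1 - 27 * X))) = (1 - 54 * X) * (LS f).comp (X * (1 - 27 * X)) := by
  have L : (LS f).comp (X * (1 - 27 * X)) = (LS f).comp (X * (1 - 27 * X)) := rfl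
  conv_rhs at L => unfold LS
  simp only [sub_comp, mul_comp, add_comp, X_comp, ofNat_comp] at L
  have R1 := th_comp f
  have Sa := th_comp (th f)
  have Sb := th_comp (th (th f))
  have R2 := congrArg th R1
  simp only [th_sub, th_mul, th_X, th_2, th_6, th_27, th_54, th_zero, th_one] at R2
  have R3 := congrArg th R2
  simp only [th_sub, th_mul, th_add, th_X, th_2, th_6, th_27, th_54, th_zero, th_one] at R3
  have Sa' := congrArg th Sa
  simp only [th_sub, th_mul, th_X, th_2, th_6, th_27, th_54, th_zero, th_one] at Sa'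
  rw [L]
  unfold OD
  linear_combination ((1 - 27 * X) ^ 2) * R3 - (27 * X * (1 - 27 * X)) * R2
    - (24 * X * (1 - 27 * X)) * R1 + ((1 - 27 * X) * (1 - 54 * X)) * Sa'
    - (108 * X * (1 - 27 * X)) * Sa + ((1 - 54 * X) ^ 2) * Sb

lemma cop (N : ℕ) : IsCoprime ((X : ℤ[X]) ^ N) (1 - 27 * X) :=
  IsCoprime.pow_left ⟨27, 1, by ring⟩

/-- The difference. -/
noncomputable def DZ (N : ℕ) : ℤ[X] := (YS N).comp (X * (1 - 27 * X)) - PZ N ^ 2

lemma OD_DZ (N : ℕ) (hN : 0 < N) : (X : ℤ[X]) ^ N ∣ OD (DZ N) := by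
  unfold DZ
  rw [OD_sub]
  refine dvd_sub ?_ (OD_sq' N _ (PZ_ode N))
  apply (cop N).dvd_of_dvd_mul_left
  rw [OD_comp', LS_YS N hN, mul_comp, pow_comp, X_comp, mul_pow]
  exact ((Dvd.intro _ rfl : (X : ℤ[X]) ^ N ∣ X ^ N * (1 - 27 * X) ^ N).mul_left _).mul_left _

lemma DZ_zero (N : ℕ) (hN : 0 < N) : (DZ N).coeff 0 = 0 := by
  unfold DZ
  rw [coeff_sub]
  have e1 : ((YS N).comp (X * (1 - 27 * X))).coeff 0 = 1 := by
    rw [coeff_zero_eq_eval_zero, eval_comp]
    simp only [eval_mul, eval_X, zero_mul]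
    rw [← coeff_zero_eq_eval_zero, YS_coeff, if_pos hN]
    have : sg 0 = 1 := by decide
    rw [this]
    simp
  have e2 : (PZ N ^ 2).coeff 0 = 1 := by
    rw [coeff_zero_eq_eval_zero, eval_pow, ← coeff_zero_eq_eval_zero, PZ_coeff, if_pos hN]
    have : u 0 = 1 := by decide
    rw [this]
    simp
  rw [e1, e2, sub_self]

lemma DZ_low (N : ℕ) (hN : 0 < N) (n : ℕ) (hn : n < N) : (DZ N).coeff n = 0 := by
  have hd := X_pow_dvd_iff.mp (OD_DZ N hN)
  induction n using Nat.strong_induction_on with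
  | _ n ih =>
    rcases n with _ | _ | n
    · exact DZ_zero N hN
    · have h1 := OD_coeff_one (DZ N)
      rw [hd _ hn, DZ_zero N hN] at h1
      linear_combination -h1
    · have h1 := OD_coeff (DZ N) n
      rw [hd _ hn, ih n (by omega) (by omega), ih (n + 1) (by omega) (by omega)] at h1
      have h3 : ((n : ℤ) + 2) ^ 3 * (DZ N).coeff (n + 2) = 0 := by linear_combination -h1
      rcases mul_eq_zero.mp h3 with h4 | h4
      · exact absurd h4 (by positivity)
      · exact h4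

lemma pow_dvd_fact (p : ℕ) (hp : 0 < p) (a : ℕ) : p ^ a ∣ (a * p).factorial := by
  induction a with
  | zero => simp
  | succ a ih =>
    rw [pow_succ, Nat.add_one_mul]
    have h8 : (a * p).factorial * p ∣ (a * p + p).factorial := by
      obtain ⟨q, rfl⟩ : ∃ q, p = q + 1 := ⟨p - 1, by omega⟩
      rw [← add_assoc, Nat.factorial_succ, mul_comm]
      refine mul_dvd_mul ?_ (Nat.factorial_dvd_factorial (by omega))
      exact ⟨a + 1, by ring⟩
    exact (Nat.mul_dvd_mul_right ih p).trans h8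

/-- `p ^ a` divides `u k` when `a p ≤ 3 k` (`k < p`). -/
lemma u_dvd (p : ℕ) (hp : p.Prime) (k a : ℕ) (hk : k < p) (ha : a * p ≤ 3 * k) : p ^ a ∣ u k := by
  have h1 : (3 * k).choose k * k.factorial * (3 * k - k).factorial = (3 * k).factorial :=
    Nat.choose_mul_factorial_mul_factorial (by omega)
  have h2 : (2 * k).choose k * k.factorial * (2 * k - k).factorial = (2 * k).factorial :=
    Nat.choose_mul_factorial_mul_factorial (by omega)
  rw [show 3 * k - k = 2 * k by omega, ← h2, show 2 * k - k = k by omega] at h1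
  have h4 : ¬ p ∣ k.factorial := by
    rw [hp.dvd_factorial]
    omega
  have h5 : (p ^ a).Coprime (k.factorial * (k.factorial * k.factorial)) := by
    apply Nat.Coprime.pow_left
    rw [hp.coprime_iff_not_dvd]
    intro h
    rcases hp.dvd_mul.mp h with h6 | h6
    · exact h4 h6
    · rcases hp.dvd_mul.mp h6 with h7 | h7 <;> exact h4 h7
  apply h5.dvd_of_dvd_mul_right
  have h6 : p ^ a ∣ (3 * k).factorial :=
    (pow_dvd_fact p hp.pos a).trans (Nat.factorial_dvd_factorial ha)
  rw [← h1] at h6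
  refine h6.trans (dvd_of_eq ?_)
  unfold u
  ring

lemma central_dvd (p : ℕ) (hp : p.Prime) (k : ℕ) (hk : k < p) (h : p ≤ 2 * k) :
    p ∣ (2 * k).choose k := by
  have h2 : (2 * k).choose k * k.factorial * (2 * k - k).factorial = (2 * k).factorial :=
    Nat.choose_mul_factorial_mul_factorial (by omega)
  rw [show 2 * k - k = k by omega] at h2
  have h4 : ¬ p ∣ k.factorial := by
    rw [hp.dvd_factorial]
    omega
  have h3 : p ∣ (2 * k).factorial := hp.dvd_factorial.mpr h
  rw [← h2] at h3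
  rcases hp.dvd_mul.mp h3 with h5 | h5
  · rcases hp.dvd_mul.mp h5 with h6 | h6
    · exact h6
    · exact absurd h6 h4
  · exact absurd h5 h4

lemma YS_high (p : ℕ) (hp : p.Prime) (n : ℕ) (hn : p ≤ n) :
    (p : ℤ) ^ 2 ∣ ((YS p).comp (X * (1 - 27 * X))).coeff n := by
  unfold YS
  rw [Polynomial.sum_comp, finsetSum_coeff]
  apply dvd_sum
  intro k hk
  rw [mem_range] at hk
  rw [mul_comp, C_comp, pow_comp, X_comp, coeff_C_mul]
  rcases lt_or_ge (2 * k) p with h | h
  · have hdY : ((X * (1 - 27 * X) : ℤ[X]) ^ k).natDegree ≤ 2 * k := by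
      have h27 : (1 - 27 * X : ℤ[X]).natDegree ≤ 1 := by
        have e : (1 - 27 * X : ℤ[X]) = C 1 - C 27 * X := by
          rw [C_1]
          rfl
        rw [e]
        refine (natDegree_sub_le _ _).trans ?_
        rw [natDegree_C]
        exact max_le (by omega) ((natDegree_C_mul_le _ _).trans natDegree_X_le)
      have h2 : (X * (1 - 27 * X) : ℤ[X]).natDegree ≤ 2 := by
        refine (natDegree_mul_le).trans ?_
        rw [natDegree_X]
        omega
      refine natDegree_pow_le.trans ?_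
      have := Nat.mul_le_mul_left k h2
      omega
    rw [coeff_eq_zero_of_natDegree_lt (by omega), mul_zero]
    exact dvd_zero _
  · refine Dvd.dvd.mul_right ?_ _
    have h1 : ((p : ℤ)) ∣ ((2 * k).choose k : ℤ) := by
      exact_mod_cast central_dvd p hp k hk h
    have h2 : (sg k : ℤ) = ((2 * k).choose k : ℤ) ^ 2 * (3 * k).choose k := by
      unfold sg
      push_cast
      ring
    rw [h2]
    exact (pow_dvd_pow_of_dvd h1 2).mul_right _

lemma PZ_high (p : ℕ) (hp : p.Prime) (n : ℕ) (hn : p ≤ n) :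
    (p : ℤ) ^ 2 ∣ (PZ p ^ 2).coeff n := by
  rw [pow_two (PZ p), coeff_mul]
  apply dvd_sum
  rintro ⟨i, j⟩ hij
  rw [Finset.HasAntidiagonal.mem_antidiagonal] at hij
  simp only at hij
  dsimp only
  rw [PZ_coeff, PZ_coeff]
  split_ifs with h1 h2
  · have key : ∀ a b : ℕ, a + b = 2 → a * p ≤ 3 * i → b * p ≤ 3 * j →
        (p : ℤ) ^ 2 ∣ (u i : ℤ) * (u j : ℤ) := by
      intro a b hab ha hb
      have e1 := u_dvd p hp i a h1 ha
      have e2 := u_dvd p hp j b h2 hb
      have e3 := mul_dvd_mul e1 e2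
      rw [← pow_add, hab] at e3
      exact_mod_cast e3
    rcases lt_or_ge (3 * i) p with h3 | h3
    · exact key 0 2 (by omega) (by omega) (by omega)
    · rcases lt_or_ge (3 * i) (2 * p) with h4 | h4
      · exact key 1 1 (by omega) (by omega) (by omega)
      · exact key 2 0 (by omega) (by omega) (by omega)
  · simp
  · simp
  · simp

/-- Clausen's identity modulo `p ^ 2`. -/
theorem clausen_sq (p : ℕ) (hp : p.Prime) (_h3 : 3 < p) :
    ∃ Q : ℤ[X], (MP8cc25e.YS p).comp (X * (1 - 27 * X))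
      = (∑ n ∈ range p, C (u n : ℤ) * X ^ n) ^ 2 + C ((p : ℤ) ^ 2) * Q := by
  have h : C ((p : ℤ) ^ 2) ∣ DZ p := by
    rw [C_dvd_iff_dvd_coeff]
    intro n
    rcases lt_or_ge n p with h1 | h1
    · rw [DZ_low p hp.pos n h1]
      exact dvd_zero _
    · unfold DZ
      rw [coeff_sub]
      exact dvd_sub (YS_high p hp n h1) (PZ_high p hp n h1)
  obtain ⟨Q, hQ⟩ := h
  refine ⟨Q, ?_⟩
  have e : DZ p = (YS p).comp (X * (1 - 27 * X)) - PZ p ^ 2 := rfl
  rw [hQ] at e
  have e2 : PZ p = ∑ n ∈ range p, C (u n : ℤ) * X ^ n := rfl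
  rw [← e2]
  linear_combination -e

end Pool.Agent.MP5c57f5
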