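import Pool.Agent.Lib.MP_5c57f5_nt.Coef

/-!
Clausen's identity for the truncated sums in characteristic `p`.
-/

namespace Pool.Agent.MP5c57f5

open Polynomial Finset MP8cc25e

section ring

variable {R : Type*} [CommRing R]

lemma th_mul (f g : R[X]) : th (f * g) = th f * g + f * th g := by
  unfold th
  rw [derivative_mul]
  ring

lemma th_add (f g : R[X]) : th (f + g) = th f + th g := by
  unfold th
  rw [derivative_add]
  ring

lemma th_sub (f g : R[X]) : th (f - g) = th f - th g := by
  unfold th
  rw [derivative_sub]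
  ring

lemma th_X : th (X : R[X]) = X := by
  unfold th
  rw [derivative_X, mul_one]

lemma th_2 : th (2 : R[X]) = 0 := by
  unfold th
  rw [derivative_ofNat, mul_zero]

lemma th_6 : th (6 : R[X]) = 0 := by
  unfold th
  rw [derivative_ofNat, mul_zero]

lemma th_27 : th (27 : R[X]) = 0 := by
  unfold th
  rw [derivative_ofNat, mul_zero]

lemma th_54 : th (54 : R[X]) = 0 := by
  unfold th
  rw [derivative_ofNat, mul_zero]

lemma th_one : th (1 : R[X]) = 0 := by
  unfold th
  rw [derivative_one, mul_zero]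

lemma th_zero : th (0 : R[X]) = 0 := by
  unfold th
  rw [derivative_zero, mul_zero]

/-- The symmetric square of the hypergeometric operator. -/
noncomputable def OD (f : R[X]) : R[X] :=
  th (th (th f)) - X * (54 * th (th (th f)) + 81 * th (th f) + 51 * th f + 12 * f)
    + X ^ 2 * (729 * th (th (th f)) + 2187 * th (th f) + 2106 * th f + 648 * f)

lemma OD_coeff (f : R[X]) (n : ℕ) :
    (OD f).coeff (n + 2) = ((n : R) + 2) ^ 3 * f.coeff (n + 2)
      - (54 * ((n : R) + 1) ^ 3 + 81 * ((n : R) + 1) ^ 2 + 51 * ((n : R) + 1) + 12) * f.coeff (n + 1)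
      + (729 * (n : R) ^ 3 + 2187 * (n : R) ^ 2 + 2106 * n + 648) * f.coeff n := by
  unfold OD
  have h2 : ∀ g : R[X], (X ^ 2 * g).coeff (n + 2) = g.coeff n := by
    intro g
    rw [coeff_X_pow_mul]
  have hc : ∀ (k : ℕ) (g : R[X]) (m : ℕ), (((k : ℕ) : R[X]) * g).coeff m = (k : R) * g.coeff m := by
    intro k g m
    rw [← C_eq_natCast, coeff_C_mul]
  have hc' : ∀ (g : R[X]) (m : ℕ), ((54 : R[X]) * g).coeff m = 54 * g.coeff m ∧
      ((81 : R[X]) * g).coeff m = 81 * g.coeff m ∧ ((51 : R[X]) * g).coeff m = 51 * g.coeff m ∧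
      ((12 : R[X]) * g).coeff m = 12 * g.coeff m ∧ ((729 : R[X]) * g).coeff m = 729 * g.coeff m ∧
      ((2187 : R[X]) * g).coeff m = 2187 * g.coeff m ∧ ((2106 : R[X]) * g).coeff m = 2106 * g.coeff m ∧
      ((648 : R[X]) * g).coeff m = 648 * g.coeff m := by
    intro g m
    exact ⟨by exact_mod_cast hc 54 g m, by exact_mod_cast hc 81 g m, by exact_mod_cast hc 51 g m,
      by exact_mod_cast hc 12 g m, by exact_mod_cast hc 729 g m, by exact_mod_cast hc 2187 g m,
      by exact_mod_cast hc 2106 g m, by exact_mod_cast hc 648 g m⟩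
  rw [coeff_add, coeff_sub, h2, show n + 2 = (n + 1) + 1 by ring, coeff_X_mul]
  simp only [coeff_add, (hc' _ _).1, (hc' _ _).2.1, (hc' _ _).2.2.1, (hc' _ _).2.2.2.1,
    (hc' _ _).2.2.2.2.1, (hc' _ _).2.2.2.2.2.1, (hc' _ _).2.2.2.2.2.2.1,
    (hc' _ _).2.2.2.2.2.2.2, th_coeff]
  push_cast
  ring

lemma OD_coeff_one (f : R[X]) :
    (OD f).coeff 1 = f.coeff 1 - 12 * f.coeff 0 := by
  unfold OD
  have h2 : ∀ g : R[X], (X ^ 2 * g).coeff 1 = 0 := by
    intro g
    rw [coeff_X_pow_mul']
    simp
  have h4 : ∀ (g : R[X]), ((12 : R[X]) * g).coeff 0 = 12 * g.coeff 0 := by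
    intro g
    rw [← C_ofNat, coeff_C_mul]
  rw [coeff_add, coeff_sub, h2, show (1 : ℕ) = 0 + 1 by ring, coeff_X_mul]
  simp [th_coeff, h4]

lemma OD_sub (f g : R[X]) : OD (f - g) = OD f - OD g := by
  unfold OD
  rw [th_sub, th_sub, th_sub]
  ring

lemma OD_sq (P : R[X]) (h : th (th P) - X * (27 * th (th P) + 27 * th P + 6 * P) = 0) :
    OD (P ^ 2) = 0 := by
  have h1 := congrArg th h
  rw [th_zero] at h1
  simp only [th_sub, th_mul, th_add, th_X, th_2, th_6, th_27, th_54, th_zero] at h1
  unfold OD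
  have e1 : th (P ^ 2) = 2 * P * th P := by
    rw [pow_two, th_mul]
    ring
  have e2 : th (2 * P * th P) = 2 * th P * th P + 2 * P * th (th P) := by
    rw [th_mul, th_mul, th_2]
    ring
  have e3 : th (2 * th P * th P + 2 * P * th (th P))
      = 6 * th P * th (th P) + 2 * P * th (th (th P)) := by
    simp only [th_add, th_mul, th_2, th_6, th_27, th_54, th_zero]
    ring
  rw [e1, e2, e3]
  linear_combination (2 * (1 - 27 * X) * P) * h1 + (6 * (1 - 27 * X) * th P - 54 * X * P) * h

lemma th_comp (f : R[X]) : (1 - 27 * X) * th (f.comp (X * (1 - 27 * X)))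
    = (1 - 54 * X) * (th f).comp (X * (1 - 27 * X)) := by
  unfold th
  have hY : derivative (X * (1 - 27 * X) : R[X]) = 1 - 54 * X := by
    simp only [derivative_mul, derivative_sub, derivative_one, derivative_ofNat, derivative_X]
    ring
  rw [derivative_comp, hY, mul_comp, X_comp]
  ring

lemma OD_comp (f : R[X]) (h : LS f = 0) :
    (1 - 27 * X) * OD (f.comp (X * (1 - 27 * X))) = 0 := by
  have L := congrArg (fun g : R[X] => g.comp (X * (1 - 27 * X))) h
  unfold LS at L
  simp only [sub_comp, mul_comp, add_comp, X_comp, zero_comp, ofNat_comp] at L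
  have R1 := th_comp f
  have Sa := th_comp (th f)
  have Sb := th_comp (th (th f))
  have R2 := congrArg th R1
  simp only [th_sub, th_mul, th_X, th_2, th_6, th_27, th_54, th_zero, th_one] at R2
  have R3 := congrArg th R2
  simp only [th_sub, th_mul, th_add, th_X, th_2, th_6, th_27, th_54, th_zero, th_one] at R3
  have Sa' := congrArg th Sa
  simp only [th_sub, th_mul, th_X, th_2, th_6, th_27, th_54, th_zero, th_one] at Sa'
  unfold OD
  linear_combination ((1 - 27 * X) ^ 2) * R3 - (27 * X * (1 - 27 * X)) * R2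
    - (24 * X * (1 - 27 * X)) * R1 + ((1 - 27 * X) * (1 - 54 * X)) * Sa'
    - (108 * X * (1 - 27 * X)) * Sa + ((1 - 54 * X) ^ 2) * Sb + (1 - 54 * X) * L

end ring

lemma u_rec (n : ℕ) : ((n : ℤ) + 1) ^ 2 * u (n + 1) = (27 * (n : ℤ) ^ 2 + 27 * n + 6) * u n := by
  have h1 := sg_rec n
  have h2 : ((2 * (n + 1)).choose (n + 1) : ℤ) * ((n : ℤ) + 1)
      = 2 * (2 * (n : ℤ) + 1) * ((2 * n).choose n) := by
    have := centralSucc n
    exact_mod_cast this
  have e : ∀ k, (sg k : ℤ) = ((2 * k).choose k : ℤ) * u k := by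
    intro k
    unfold sg u
    push_cast
    ring
  rw [e, e] at h1
  have hc : (2 * (2 * (n : ℤ) + 1) * ((2 * n).choose n)) ≠ 0 := by
    have h3 : (((2 * n).choose n : ℕ) : ℤ) ≠ 0 := by
      have := Nat.choose_pos (show n ≤ 2 * n by omega)
      exact_mod_cast this.ne'
    exact mul_ne_zero (by positivity) h3
  apply mul_left_cancel₀ hc
  linear_combination h1 - (((n : ℤ) + 1) ^ 2 * u (n + 1)) * h2

section field

variable {K : Type*} [Field K] (p : ℕ) [hp : Fact p.Prime] [CharP K p]

/-- The truncated series. -/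
noncomputable def PP (K : Type*) [Field K] (p : ℕ) : K[X] := ∑ n ∈ range p, C (u n : K) * X ^ n

lemma PP_coeff (n : ℕ) : (PP K p).coeff n = if n < p then (u n : K) else 0 := by
  unfold PP
  rw [finsetSum_coeff]
  simp only [coeff_C_mul_X_pow]
  rw [sum_ite_eq (range p) n (fun k => (u k : K))]
  simp only [mem_range]

include hp in
lemma PP_ode : th (th (PP K p)) - X * (27 * th (th (PP K p)) + 27 * th (PP K p) + 6 * PP K p) = 0 := by
  ext n
  have hc : ∀ (k : ℕ) (g : K[X]) (m : ℕ), (((k : ℕ) : K[X]) * g).coeff m = (k : K) * g.coeff m := by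
    intro k g m
    rw [← C_eq_natCast, coeff_C_mul]
  have hc' : ∀ (g : K[X]) (m : ℕ), ((27 : K[X]) * g).coeff m = 27 * g.coeff m ∧
      ((6 : K[X]) * g).coeff m = 6 * g.coeff m := by
    intro g m
    exact ⟨by exact_mod_cast hc 27 g m, by exact_mod_cast hc 6 g m⟩
  rw [coeff_sub, coeff_zero]
  cases n with
  | zero => simp [th_coeff]
  | succ n =>
    rw [coeff_X_mul, coeff_add, coeff_add, (hc' _ _).1, (hc' _ _).1, (hc' _ _).2]
    simp only [th_coeff, PP_coeff]
    have hr := congrArg (fun a : ℤ => (a : K)) (u_rec n)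
    push_cast at hr ⊢
    rcases lt_trichotomy (n + 1) p with h | h | h
    · rw [if_pos h, if_pos (show n < p by omega)]
      linear_combination hr
    · rw [if_neg (by omega), if_pos (show n < p by omega)]
      have h0 : (u n : K) = 0 := by
        apply u_zero p n (by omega)
        have := hp.out.two_le
        omega
      rw [h0]
      ring
    · rw [if_neg (by omega), if_neg (show ¬ n < p by omega)]
      ring

include hp in
lemma PP_deg : (PP K p).natDegree ≤ (p - 1) / 3 := by
  rw [natDegree_le_iff_coeff_eq_zero]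
  intro n hn
  rw [PP_coeff]
  split_ifs with h
  · exact u_zero p n h (by omega)
  · rfl

/-- The truncated series of the cubic sums. -/
noncomputable def SK (K : Type*) [Field K] (p : ℕ) : K[X] := (YS p).map (Int.castRingHom K)

lemma SK_coeff (n : ℕ) : (SK K p).coeff n = if n < p then (sg n : K) else 0 := by
  unfold SK
  rw [coeff_map, YS_coeff]
  split_ifs
  · simp
  · simp

include hp in
lemma SK_ode : LS (SK K p) = 0 := by
  have thmap : ∀ g : ℤ[X], th (g.map (Int.castRingHom K)) = (th g).map (Int.castRingHom K) := by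
    intro g
    unfold th
    rw [Polynomial.map_mul, Polynomial.map_X, derivative_map]
  have h5 : LS (SK K p) = (LS (YS p)).map (Int.castRingHom K) := by
    unfold LS SK
    rw [thmap, thmap, thmap]
    simp only [Polynomial.map_sub, Polynomial.map_mul, Polynomial.map_add,
      Polynomial.map_X, Polynomial.map_ofNat]
  have c1 : (Int.castRingHom K) (-((p : ℤ) ^ 3 * sg p)) = 0 := by
    simp
  rw [h5, LS_YS p hp.out.pos, Polynomial.map_mul, Polynomial.map_C, c1]
  simp

include hp in
lemma SK_deg : (SK K p).natDegree ≤ (p - 1) / 3 := by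
  rw [natDegree_le_iff_coeff_eq_zero]
  intro n hn
  rw [SK_coeff]
  split_ifs with h
  · exact sg_zero p n h (by omega)
  · rfl

include hp in
lemma unique (h : K[X]) (hd : h.natDegree < p) (h0 : h.coeff 0 = 0) (ho : OD h = 0) : h = 0 := by
  have key : ∀ n, n < p → h.coeff n = 0 := by
    intro n
    induction n using Nat.strong_induction_on with
    | _ n ih =>
      intro hn
      rcases n with _ | _ | n
      · exact h0
      · have h1 := OD_coeff_one h
        rw [ho, coeff_zero, h0] at h1
        simpa using h1.symm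
      · have h1 := OD_coeff h n
        rw [ho, coeff_zero, ih n (by omega) (by omega), ih (n + 1) (by omega) (by omega)] at h1
        have h2 : ((n + 2 : ℕ) : K) ≠ 0 := cast_ne_zero_of_lt p (by omega) hn
        push_cast at h2
        have h3 : ((n : K) + 2) ^ 3 * h.coeff (n + 2) = 0 := by linear_combination -h1
        rcases mul_eq_zero.mp h3 with h4 | h4
        · exact absurd h4 (pow_ne_zero _ h2)
        · exact h4
  ext n
  rw [coeff_zero]
  rcases lt_or_ge n p with h1 | h1
  · exact key n h1
  · exact coeff_eq_zero_of_natDegree_lt (by omega)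

include hp in
theorem clausen (h3 : 3 < p) :
    (SK K p).comp (X * (1 - 27 * X)) = PP K p ^ 2 := by
  have hdY : (X * (1 - 27 * X) : K[X]).natDegree ≤ 2 := by
    have h27 : (1 - 27 * X : K[X]).natDegree ≤ 1 := by
      have e : (1 - 27 * X : K[X]) = C 1 - C 27 * X := by
        rw [C_1, C_ofNat]
      rw [e]
      refine (natDegree_sub_le _ _).trans ?_
      rw [natDegree_C]
      exact max_le (by omega) ((natDegree_C_mul_le _ _).trans natDegree_X_le)
    refine (natDegree_mul_le).trans ?_
    rw [natDegree_X]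
    omega
  have hOB : OD ((SK K p).comp (X * (1 - 27 * X))) = 0 := by
    have h1 := OD_comp (SK K p) (SK_ode p)
    rcases mul_eq_zero.mp h1 with h2 | h2
    · exfalso
      have h4 := congrArg (fun g => coeff g 0) h2
      simp at h4
    · exact h2
  have hOA : OD (PP K p ^ 2) = 0 := OD_sq _ (PP_ode p)
  have hsub := unique p ((SK K p).comp (X * (1 - 27 * X)) - PP K p ^ 2) ?_ ?_ ?_
  · exact sub_eq_zero.mp hsub
  · refine lt_of_le_of_lt (natDegree_sub_le _ _) ?_
    apply max_lt
    · refine lt_of_le_of_lt natDegree_comp_le ?_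
      have h1 := Nat.mul_le_mul (SK_deg (K := K) p) hdY
      have := hp.out.pos
      omega
    · refine lt_of_le_of_lt natDegree_pow_le ?_
      have h1 := PP_deg (K := K) p
      have := hp.out.pos
      omega
  · rw [coeff_sub]
    have e1 : ((SK K p).comp (X * (1 - 27 * X))).coeff 0 = 1 := by
      rw [coeff_zero_eq_eval_zero, eval_comp]
      simp only [eval_mul, eval_X, zero_mul]
      rw [← coeff_zero_eq_eval_zero, SK_coeff, if_pos hp.out.pos]
      have : sg 0 = 1 := by decide
      rw [this]
      simp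
    have e2 : (PP K p ^ 2).coeff 0 = 1 := by
      rw [coeff_zero_eq_eval_zero, eval_pow, ← coeff_zero_eq_eval_zero, PP_coeff,
        if_pos hp.out.pos]
      have : u 0 = 1 := by decide
      rw [this]
      simp
    rw [e1, e2, sub_self]
  · rw [OD_sub, hOB, hOA, sub_zero]

include hp in
theorem clausen_eval (h3 : 3 < p) (t : K) :
    ∑ n ∈ range p, (sg n : K) * (t * (1 - 27 * t)) ^ n = (∑ n ∈ range p, (u n : K) * t ^ n) ^ 2 := by
  have h := congrArg (eval t) (clausen (K := K) p h3)
  rw [eval_comp, eval_pow] at h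
  have e1 : ∀ z : K, (SK K p).eval z = ∑ n ∈ range p, (sg n : K) * z ^ n := by
    intro z
    unfold SK YS
    rw [Polynomial.map_sum, eval_finsetSum]
    simp
  have e2 : (PP K p).eval t = ∑ n ∈ range p, (u n : K) * t ^ n := by
    unfold PP
    rw [eval_finsetSum]
    simp
  rw [e1, e2] at h
  simpa using h

end field

end Pool.Agent.MP5c57f5
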