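import Pool.Agent.Lib.MP_5c57f5_nt.Iso2
import Pool.Agent.Lib.MP_8cc25e_nt.PSLift

/-!
The coefficient of `X^(p-1)` in `FF^((p-1)/2)` as a truncated hypergeometric sum.
-/

namespace Pool.Agent.MP5c57f5

open Polynomial Finset

/-- `(3k)! / k!^3`. -/
def u (k : ℕ) : ℕ := (2 * k).choose k * (3 * k).choose k

variable {K : Type*} [Field K] (p : ℕ) [hp : Fact p.Prime] [CharP K p]

include hp in
lemma u_zero (k : ℕ) (hk : k < p) (h : p ≤ 3 * k) : (u k : K) = 0 := by
  rw [CharP.cast_eq_zero_iff K p]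
  have h1 : (3 * k).choose k * k.factorial * (3 * k - k).factorial = (3 * k).factorial :=
    Nat.choose_mul_factorial_mul_factorial (by omega)
  have h2 : (2 * k).choose k * k.factorial * (2 * k - k).factorial = (2 * k).factorial :=
    Nat.choose_mul_factorial_mul_factorial (by omega)
  rw [show 3 * k - k = 2 * k by omega, ← h2, show 2 * k - k = k by omega] at h1
  have h3 : p ∣ ((2 * k).choose k * (3 * k).choose k)
      * (k.factorial * (k.factorial * k.factorial)) := by
    have h4 : p ∣ (3 * k).factorial := hp.out.dvd_factorial.mpr h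
    rw [← h1] at h4
    refine h4.trans (dvd_of_eq ?_)
    ring
  have h4 : ¬ p ∣ k.factorial := by
    rw [hp.out.dvd_factorial]
    omega
  rcases hp.out.dvd_mul.mp h3 with h5 | h5
  · exact h5
  · rcases hp.out.dvd_mul.mp h5 with h6 | h6
    · exact absurd h6 h4
    · rcases hp.out.dvd_mul.mp h6 with h7 | h7 <;> exact absurd h7 h4

include hp in
lemma half_choose (n j : ℕ) (hn : 2 * n + 1 = p) (hj : j ≤ n) :
    (n.choose j : K) * 4 ^ j = (-1) ^ j * ((2 * j).choose j : K) := by
  induction j with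
  | zero => simp
  | succ j ih =>
    have ih' := ih (by omega)
    have hj0 : ((j + 1 : ℕ) : K) ≠ 0 := MP8cc25e.cast_ne_zero_of_lt p (by omega) (by omega)
    apply mul_right_cancel₀ hj0
    have e1 : (n.choose (j + 1) : K) * ((j + 1 : ℕ) : K) = (n.choose j : K) * ((n - j : ℕ) : K) := by
      have h1 := Nat.choose_succ_right_eq n j
      exact_mod_cast congrArg (fun a : ℕ => (a : K)) h1
    have e2 : ((2 * (j + 1)).choose (j + 1) : K) * ((j + 1 : ℕ) : K)
        = 2 * (2 * (j : K) + 1) * ((2 * j).choose j : K) := by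
      have h1 := Nat.succ_mul_centralBinom_succ j
      rw [Nat.centralBinom_eq_two_mul_choose, Nat.centralBinom_eq_two_mul_choose] at h1
      have h2 := congrArg (fun a : ℕ => (a : K)) h1
      push_cast at h2 ⊢
      linear_combination h2
    have e3 : 2 * ((n - j : ℕ) : K) = -(2 * (j : K) + 1) := by
      have h1 : ((2 * (n - j) + (2 * j + 1) : ℕ) : K) = 0 := by
        rw [show 2 * (n - j) + (2 * j + 1) = p by omega, CharP.cast_eq_zero K p]
      rw [Nat.cast_add] at h1
      push_cast at h1 ⊢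
      linear_combination h1
    calc (n.choose (j + 1) : K) * 4 ^ (j + 1) * ((j + 1 : ℕ) : K)
        = 2 * 4 ^ j * (2 * ((n.choose (j + 1) : K) * ((j + 1 : ℕ) : K))) := by ring
      _ = 2 * 4 ^ j * ((n.choose j : K) * (2 * ((n - j : ℕ) : K))) := by rw [e1]; ring
      _ = -2 * (2 * (j : K) + 1) * ((n.choose j : K) * 4 ^ j) := by rw [e3]; ring
      _ = -2 * (2 * (j : K) + 1) * ((-1) ^ j * ((2 * j).choose j : K)) := by rw [ih']
      _ = (-1) ^ (j + 1) * (2 * (2 * (j : K) + 1) * ((2 * j).choose j : K)) := by ring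
      _ = (-1) ^ (j + 1) * ((2 * (j + 1)).choose (j + 1) : K) * ((j + 1 : ℕ) : K) := by
          rw [← e2]; ring

include hp in
lemma pow_pred (a : ℕ) (ha : ¬ p ∣ a) : (a : K) ^ (p - 1) = 1 := by
  have h0 : (a : ZMod p) ≠ 0 := by
    intro h
    exact ha ((ZMod.natCast_eq_zero_iff a p).mp h)
  have h1 := ZMod.pow_card_sub_one_eq_one h0
  have h2 := congrArg (ZMod.castHom (dvd_refl p) K) h1
  rwa [map_pow, map_natCast, map_one] at h2

include hp in
theorem coeff_eq (r : K) (n : ℕ) (hn : 2 * n + 1 = p) (h5 : 5 < p) :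
    (FF r ^ n).coeff (p - 1)
      = 40 ^ n * ∑ j ∈ range p, (u j : K) * ((20 + 9 * r) / 1080) ^ j := by
  have h3 : (3 : K) ≠ 0 := by
    have := MP8cc25e.cast_ne_zero_of_lt (K := K) p (j := 3) (by norm_num) (by omega)
    exact_mod_cast this
  have h2 : (2 : K) ≠ 0 := by
    have := MP8cc25e.cast_ne_zero_of_lt (K := K) p (j := 2) (by norm_num) (by omega)
    exact_mod_cast this
  have h5' : (5 : K) ≠ 0 := by
    have := MP8cc25e.cast_ne_zero_of_lt (K := K) p (j := 5) (by norm_num) (by omega)
    exact_mod_cast this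
  have h1080 : (1080 : K) ≠ 0 := by
    rw [show (1080 : K) = 2 ^ 3 * 3 ^ 3 * 5 by norm_num]
    exact mul_ne_zero (mul_ne_zero (pow_ne_zero _ h2) (pow_ne_zero _ h3)) h5'
  have h40 : (40 : K) ≠ 0 := by
    rw [show (40 : K) = 2 ^ 3 * 5 by norm_num]
    exact mul_ne_zero (pow_ne_zero _ h2) h5'
  set c : K := 20 + 9 * r with hc
  have hF : FF r = C 4 * X ^ 3 + C (40 * 9) * (X + C (c / 3)) ^ 2 := by
    unfold FF
    have e1 : (3 * X + (20 + 9 * C r) : K[X]) = C 3 * (X + C (c / 3)) := by
      rw [mul_add, ← C_mul, mul_div_cancel₀ _ h3, hc, C_add, C_mul]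
      rfl
    rw [e1, mul_pow, ← C_pow, C_mul]
    have e2 : (C (4 : K) : K[X]) = 4 := rfl
    have e3 : (C (40 : K) : K[X]) = 40 := rfl
    rw [e2, e3, show (3 : K) ^ 2 = 9 by norm_num]
    ring
  have hsum : (FF r ^ n).coeff (p - 1) = ∑ j ∈ range (n + 1),
      (if 3 * j ≤ p - 1 then (n.choose j : K) * 4 ^ j * (40 * 9) ^ (n - j)
        * ((c / 3) ^ j * ((p - 1 - 2 * j).choose j : K)) else 0) := by
    rw [hF, add_pow, finsetSum_coeff]
    apply sum_congr rfl
    intro j hj
    rw [mem_range] at hj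
    have e : (C 4 * X ^ 3) ^ j * (C (40 * 9) * (X + C (c / 3)) ^ 2) ^ (n - j) * (n.choose j : K[X])
        = C ((n.choose j : K) * 4 ^ j * (40 * 9) ^ (n - j))
          * (X ^ (3 * j) * (X + C (c / 3)) ^ (2 * (n - j))) := by
      simp only [mul_pow, ← pow_mul, C_mul, C_pow, C_eq_natCast]
      ring
    rw [e, coeff_C_mul, coeff_X_pow_mul']
    split_ifs with h
    · rw [coeff_X_add_C_pow]
      congr 1
      have e1 : 2 * (n - j) - (p - 1 - 3 * j) = j := by omega
      have e2 : 2 * (n - j) = p - 1 - 2 * j := by omega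
      rw [e1, e2]
      congr 2
      rw [show p - 1 - 3 * j = p - 1 - 2 * j - j by omega, Nat.choose_symm (by omega)]
    · rw [mul_zero]
  have hrange : ∑ j ∈ range p, (u j : K) * (c / 1080) ^ j
      = ∑ j ∈ range (n + 1), (u j : K) * (c / 1080) ^ j := by
    symm
    apply sum_subset
    · intro j hj
      rw [mem_range] at hj ⊢
      omega
    · intro j hj hj'
      rw [mem_range] at hj hj'
      rw [u_zero p j hj (by omega), zero_mul]
  rw [hsum, hrange, mul_sum]
  apply sum_congr rfl
  intro j hj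
  rw [mem_range] at hj
  split_ifs with h
  · rw [half_choose p n j hn (by omega), MP8cc25e.choose_neg_mod p (2 * j) (by omega) j (by omega),
      show 2 * j + j = 3 * j by ring]
    have e9 : (9 : K) ^ n = 1 := by
      have := pow_pred (K := K) p 3 (by
        intro h
        have := Nat.le_of_dvd (by norm_num) h
        omega)
      rw [show p - 1 = 2 * n by omega, pow_mul] at this
      rw [← this]
      norm_num
    have e40 : (40 * 9 : K) ^ (n - j) * (c / 3) ^ j = 40 ^ n * (c / 1080) ^ j := by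
      have e1 : (40 * 9 : K) ^ n = (40 * 9) ^ (n - j) * (40 * 9) ^ j := by
        rw [← pow_add]
        congr 1
        omega
      have e2 : (40 * 9 : K) ^ n = 40 ^ n := by rw [mul_pow, e9, mul_one]
      have e3 : (c / 3) ^ j = (40 * 9) ^ j * (c / 1080) ^ j := by
        rw [← mul_pow]
        congr 1
        field_simp
        ring
      rw [e3, ← mul_assoc, ← e1, e2]
    unfold u
    push_cast
    have es : ((-1 : K) ^ j) * (-1) ^ j = 1 := by
      rw [← mul_pow]
      norm_num
    linear_combination ((-1 : K) ^ j * (-1) ^ j * ((2 * j).choose j : K) * ((3 * j).choose j : K)) * e40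
      + (40 ^ n * (c / 1080) ^ j * ((2 * j).choose j : K) * ((3 * j).choose j : K)) * es
  · rw [u_zero p j (by omega) (by omega)]
    ring

end Pool.Agent.MP5c57f5
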