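import Pool.Agent.Lib.MP_5c57f5_nt.Base
import Pool.Agent.Lib.MP_8cc25e_nt.Lift

/-!
Polynomials with vanishing derivative in characteristic `p` and the polynomials of the isogeny.
-/

namespace Pool.Agent.MP5c57f5

open Polynomial Finset

section

variable {K : Type*} [Field K] (p : ℕ) [hp : Fact p.Prime] [CharP K p]

omit hp [CharP K p] in
lemma wR_monic (r : K) : (wR r).Monic ∧ (wR r).natDegree = 6 := by
  have e : wR r = X ^ 6 + (C (105 + 45 * r) * X ^ 5
      + C (9000 + 3780 * r) * X ^ 4 + C (413600 + 185400 * r) * X ^ 3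
      + C (12417000 + 5553000 * r) * X ^ 2 + C (232560000 + 104004000 * r) * X
      + C (2073640000 + 927360000 * r)) := by
    unfold wR
    simp only [C_add, C_mul, C_ofNat]
    ring
  have hd : (C (105 + 45 * r) * X ^ 5
      + C (9000 + 3780 * r) * X ^ 4 + C (413600 + 185400 * r) * X ^ 3
      + C (12417000 + 5553000 * r) * X ^ 2 + C (232560000 + 104004000 * r) * X
      + C (2073640000 + 927360000 * r) : K[X]).degree < (6 : ℕ) := by
    refine lt_of_le_of_lt (b := ((5 : ℕ) : WithBot ℕ)) ?_ (by norm_num)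
    compute_degree
    norm_num
  constructor
  · rw [e]
    exact monic_X_pow_add (by exact_mod_cast hd)
  · rw [e]
    apply natDegree_eq_of_degree_eq_some
    rw [degree_add_eq_left_of_degree_lt]
    · rw [degree_X_pow]
    · rw [degree_X_pow]
      exact hd

omit hp [CharP K p] in
lemma uR_deg (r : K) : (uR r).natDegree ≤ 5 := by
  unfold uR
  have e : ∀ a b : ℕ, ((a : K[X]) + (b : K[X]) * C r) = C ((a : K) + b * r) := by
    intro a b
    simp
  have e1 := e 100 30
  have e2 := e 5250 2550
  have e3 := e 164500 73500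
  have e4 := e 1885000 843000
  push_cast at e1 e2 e3 e4
  rw [e1, e2, e3, e4]
  compute_degree

omit hp [CharP K p] in
lemma vR_deg (r : K) : (vR r).natDegree ≤ 2 := by
  unfold vR
  have e : ∀ a b : ℕ, ((a : K[X]) + (b : K[X]) * C r) = C ((a : K) + b * r) := by
    intro a b
    simp
  have e1 := e 35 15
  have e2 := e 550 246
  push_cast at e1 e2
  rw [e1, e2]
  compute_degree

omit hp [CharP K p] in
lemma f1_deg (r : K) : (f1 r).natDegree ≤ 3 := by
  unfold f1
  have e : ∀ a b : ℕ, ((a : K[X]) + (b : K[X]) * C r) = C ((a : K) + b * r) := by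
    intro a b
    simp
  have e1 := e 20 9
  push_cast at e1
  rw [e1]
  compute_degree

omit hp [CharP K p] in
lemma wR_zero_ne (r : K) (hr : r ^ 2 = 5) (h2 : (2 : K) ≠ 0) (h5 : (5 : K) ≠ 0) :
    (2073640000 + 927360000 * r : K) ≠ 0 := by
  intro h
  have h1 : (2 : K) ^ 12 * 5 ^ 8 = 0 := by
    linear_combination (2073640000 - 927360000 * r) * h + 927360000 ^ 2 * hr
  rcases mul_eq_zero.mp h1 with h3 | h3
  · exact pow_ne_zero _ h2 h3
  · exact pow_ne_zero _ h5 h3

/-- the shape of a `p`-th power which is `κ₀ u^p v^p` modulo `w` -/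
theorem shape [IsAlgClosed K] (r : K) (hr : r ^ 2 = 5) (h2 : (2 : K) ≠ 0) (h5 : (5 : K) ≠ 0)
    (hco : IsCoprime (wR r) (derivative (wR r))) (P : K[X]) (hd : derivative P = 0)
    (hdeg : P.natDegree < 8 * p) (h0 : P.coeff 0 = 0) (c : K)
    (hW : wR r ∣ P - C c * (uR r ^ p * vR r ^ p)) :
    ∃ a l : K, a ^ p = c ∧ P = (C a * (uR r * vR r) + C l * (X * wR r)) ^ p := by
  have hp0 := hp.out.pos
  obtain ⟨a, ha⟩ := IsAlgClosed.exists_pow_nat_eq c hp0
  -- the root
  have : PerfectRing K p := PerfectField.toPerfectRing p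
  set H : K[X] := (contract p P).map ((frobeniusEquiv K p).symm : K →+* K) with hH
  have hHp : H ^ p = P := by
    have e : (frobenius K p).comp ((frobeniusEquiv K p).symm : K →+* K) = RingHom.id K := by
      ext x
      simp
    rw [← map_frobenius_expand p, hH, ← map_expand, Polynomial.map_map, e, Polynomial.map_id]
    exact expand_contract p hd hp.out.ne_zero
  have hHdeg : H.natDegree ≤ 7 := by
    have h1 : (H ^ p).natDegree = p * H.natDegree := natDegree_pow _ _
    rw [hHp] at h1
    by_contra hcon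
    push Not at hcon
    have h3 : p * 8 ≤ p * H.natDegree := Nat.mul_le_mul_left p hcon
    omega
  have hH0 : H.coeff 0 = 0 := by
    have h1 : (H ^ p).coeff 0 = H.coeff 0 ^ p := by
      rw [coeff_zero_eq_eval_zero, coeff_zero_eq_eval_zero, eval_pow]
    rw [hHp, h0] at h1
    exact pow_eq_zero_iff hp.out.ne_zero |>.mp h1.symm
  have hsq : Squarefree (wR r) := Polynomial.Separable.squarefree hco
  have hdvd : wR r ∣ H - C a * (uR r * vR r) := by
    rw [← hsq.dvd_pow_iff_dvd hp.out.ne_zero, sub_pow_char, hHp, mul_pow, ← C_pow, ha, mul_pow]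
    exact hW
  obtain ⟨L, hL⟩ := hdvd
  have hwm := wR_monic r
  have hLdeg : L.natDegree ≤ 1 := by
    by_cases hL0 : L = 0
    · rw [hL0, natDegree_zero]
      omega
    · have h1 : (H - C a * (uR r * vR r)).natDegree ≤ 7 := by
        refine (natDegree_sub_le _ _).trans (max_le hHdeg ?_)
        refine (natDegree_C_mul_le _ _).trans (natDegree_mul_le.trans ?_)
        have := uR_deg r
        have := vR_deg r
        omega
      rw [hL, hwm.1.natDegree_mul' hL0, hwm.2] at h1
      omega
  obtain ⟨l, l0, hl⟩ := exists_eq_X_add_C_of_natDegree_le_one hLdeg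
  have hl0 : l0 = 0 := by
    have h1 := congrArg (fun f => coeff f 0) hL
    simp only [coeff_sub, mul_coeff_zero, uR_zero, zero_mul, mul_zero, hH0,
      sub_zero] at h1
    rw [hl, wR_zero] at h1
    simp only [coeff_add, coeff_C_mul, coeff_X_zero, mul_zero, coeff_C_zero, zero_add] at h1
    rcases mul_eq_zero.mp h1.symm with h3 | h3
    · exact absurd h3 (wR_zero_ne r hr h2 h5)
    · exact h3
  refine ⟨a, l, ha, ?_⟩
  rw [← hHp]
  congr 1
  rw [hl, hl0, C_0, add_zero] at hL
  linear_combination hL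

end

end Pool.Agent.MP5c57f5
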