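import Pool.Agent.Lib.MP_5c57f5_nt.Iso

/-!
The coefficient of `X^(p-1)` in `FF^((p-1)/2)`.
-/

namespace Pool.Agent.MP5c57f5

open Polynomial Finset

variable {K : Type*} [Field K] (p : ℕ) [hp : Fact p.Prime] [CharP K p]

omit hp in
lemma term_deriv (U V : K[X]) (n i : ℕ) (hn : 2 * n + 1 = p) (hi : i ≤ n) :
    derivative (U ^ (3 * i + 1) * V ^ (6 * (n - i) + 1))
      = ((3 * i + 1 : ℕ) : K[X]) * (U ^ (3 * i) * V ^ (6 * (n - i))
        * (derivative U * V - 2 * (U * derivative V))) := by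
  have h1 : ((6 * (n - i) + 1 : ℕ) : K[X]) = -2 * ((3 * i + 1 : ℕ) : K[X]) := by
    have h2 : ((6 * (n - i) + 1 + 2 * (3 * i + 1) : ℕ) : K[X]) = 0 := by
      rw [show 6 * (n - i) + 1 + 2 * (3 * i + 1) = 3 * p by omega, Nat.cast_mul,
        CharP.cast_eq_zero K[X] p, mul_zero]
    rw [Nat.cast_add, Nat.cast_mul 2] at h2
    push_cast at h2 ⊢
    linear_combination h2
  rw [derivative_mul, derivative_pow, derivative_pow, Nat.add_sub_cancel, Nat.add_sub_cancel,
    C_eq_natCast, C_eq_natCast, h1]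
  ring

/-- the coefficient of the `i`-th term -/
def kap (K : Type*) [Field K] (n i : ℕ) : K := (n.choose i : K) * 4 ^ i * 625000 ^ (n - i)

include hp in
theorem key (r : K) (hr : r ^ 2 = 5) (n : ℕ) (hn : 2 * n + 1 = p) :
    ∃ Q : K[X], WW r ^ p * FF r ^ n = derivative Q
      + ∑ i ∈ range (n + 1), if 3 * i + 1 = p then
          C (kap K n i) * (UU r ^ (3 * i) * VV r ^ (6 * (n - i)) * WW r) else 0 := by
  refine ⟨∑ i ∈ range (n + 1), if 3 * i + 1 = p then 0 else
    C (kap K n i * ((3 * i + 1 : ℕ) : K)⁻¹) * (UU r ^ (3 * i + 1) * VV r ^ (6 * (n - i) + 1)), ?_⟩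
  rw [derivative_sum, ← sum_add_distrib]
  have e : WW r ^ p * FF r ^ n = (FF r * WW r ^ 2) ^ n * WW r := by
    rw [← hn, mul_pow, ← pow_mul, pow_succ]
    ring
  rw [e, FW r hr, add_pow, sum_mul]
  apply sum_congr rfl
  intro i hi
  rw [mem_range] at hi
  have hk : (C (kap K n i) : K[X]) = (n.choose i : K[X]) * 4 ^ i * 625000 ^ (n - i) := by
    unfold kap
    rw [C_mul, C_mul, C_pow, C_pow, C_eq_natCast]
    rfl
  have hterm : (4 * UU r ^ 3) ^ i * (625000 * VV r ^ 6) ^ (n - i) * (n.choose i : K[X]) * WW r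
      = C (kap K n i) * (UU r ^ (3 * i) * VV r ^ (6 * (n - i)) * WW r) := by
    rw [hk, mul_pow, mul_pow, ← pow_mul, ← pow_mul]
    ring
  rw [hterm]
  split_ifs with h
  · rw [derivative_zero, zero_add]
  · rw [add_zero, derivative_C_mul, term_deriv p (UU r) (VV r) n i hn (by omega), ← WW_eq r hr]
    have hne : ((3 * i + 1 : ℕ) : K) ≠ 0 := by
      intro h0
      rw [CharP.cast_eq_zero_iff K p] at h0
      obtain ⟨c, hc⟩ := h0
      rcases c with _ | _ | c
      · omega
      · omega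
      · have : p * (c + 1 + 1) = p * c + 2 * p := by ring
        have h5 : 0 ≤ p * c := Nat.zero_le _
        omega
    rw [← C_eq_natCast, ← mul_assoc (C (kap K n i * ((3 * i + 1 : ℕ) : K)⁻¹)), ← C_mul,
      mul_assoc (kap K n i), inv_mul_cancel₀ hne, mul_one]

include hp in
theorem coeff_inert (r : K) (hr : r ^ 2 = 5) (n : ℕ) (hn : 2 * n + 1 = p) (h3 : p % 3 = 2) :
    (FF r ^ n).coeff (p - 1) = 0 := by
  obtain ⟨Q, hQ⟩ := key p r hr n hn
  rw [sum_eq_zero (fun i _ => if_neg (by omega)), add_zero] at hQ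
  apply iter_coeff p
  have h1 := congrArg (fun f => derivative^[p - 1] f) hQ
  rw [iter_mul p, ← Function.iterate_succ_apply, Nat.succ_eq_add_one,
    Nat.sub_add_cancel hp.out.one_le, iter_p p] at h1
  rcases mul_eq_zero.mp h1 with h2 | h2
  · exact absurd (pow_eq_zero_iff (hp.out.ne_zero) |>.mp h2) (WW_ne r)
  · rw [h2, neg_zero, C_0]

include hp in
theorem coeff_split [IsAlgClosed K] (r : K) (hr : r ^ 2 = 5) (n m : ℕ) (hn : 2 * n + 1 = p)
    (hm : 3 * m + 1 = p) : (FF r ^ n).coeff (p - 1) = kap K n m := by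
  obtain ⟨Q, hQ⟩ := key p r hr n hn
  have hmn : m < n + 1 := by omega
  rw [sum_eq_single_of_mem m (mem_range.mpr hmn)
    (fun i _ hi => if_neg (by omega)), if_pos hm] at hQ
  apply iter_coeff p
  have h1 := congrArg (fun f => derivative^[p - 1] f) hQ
  rw [iter_mul p, iter_add, ← Function.iterate_succ_apply, Nat.succ_eq_add_one,
    Nat.sub_add_cancel hp.out.one_le, iter_p p, zero_add, iterate_derivative_C_mul,
    show 3 * m = p - 1 by omega, show 6 * (n - m) = p - 1 by omega] at h1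
  have hpp : p - 1 + 1 = p := Nat.sub_add_cancel hp.out.one_le
  have e : UU r ^ (p - 1) * VV r ^ (p - 1) * WW r
      = VV r ^ p * (UU r ^ (p - 1) * derivative (UU r))
        + C (-2) * (UU r ^ p * (VV r ^ (p - 1) * derivative (VV r))) := by
    have h2 : (C (-2 : K) : K[X]) = -2 := by
      rw [C_neg]
      rfl
    rw [WW_eq r hr, h2]
    conv_rhs => rw [show VV r ^ p = VV r ^ (p - 1) * VV r by rw [← pow_succ, hpp],
      show UU r ^ p = UU r ^ (p - 1) * UU r by rw [← pow_succ, hpp]]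
    ring
  rw [e, iter_add, iter_mul p (VV r), iterate_derivative_C_mul, iter_mul p (UU r), jac p, jac p] at h1
  have hW : WW r ^ p = VV r ^ p * derivative (UU r) ^ p
      - 2 * (UU r ^ p * derivative (VV r) ^ p) := by
    rw [WW_eq r hr, sub_pow_char, mul_pow, mul_pow, mul_pow]
    have h2 : (2 : K[X]) ^ p = 2 := by
      rw [show (2 : K[X]) = 1 + 1 by norm_num, add_pow_char, one_pow]
    rw [h2]
    ring
  have h3 : WW r ^ p * derivative^[p - 1] (FF r ^ n) = WW r ^ p * C (-kap K n m) := by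
    rw [h1, hW, C_neg, C_neg]
    have h2 : (C (2 : K) : K[X]) = 2 := rfl
    rw [h2]
    ring
  exact mul_left_cancel₀ (pow_ne_zero _ (WW_ne r)) h3

end Pool.Agent.MP5c57f5
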