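import Pool.Agent.Lib.MP_5c57f5_nt.Core1
import Pool.Agent.Lib.MP_5c57f5_nt.Iso2

/-!
The polynomial of the transferred logarithm in characteristic `p`.
-/

namespace Pool.Agent.MP5c57f5

open Polynomial Finset

section

variable {K : Type*} [Field K] (p : ℕ) [hp : Fact p.Prime] [CharP K p]

/-- the coefficients -/
def tauK (K : Type*) [Field K] (n j : ℕ) : K := (n.choose j : K) * 125⁻¹ * (156250⁻¹) ^ j

/-- the sum without the pole -/
noncomputable def SS (r : K) (n m : ℕ) : K[X] :=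
  ∑ j ∈ range (n + 1), if j = m then 0 else
    C (tauK K n j * ((3 * j + 1 : ℕ) : K)⁻¹) * (uR r ^ (3 * j + 1) * vR r ^ (6 * (n - j) + 1))

omit hp [CharP K p] in
lemma sum_tau (r : K) (hr : r ^ 2 = 5) (n : ℕ) (h : (156250 : K) ≠ 0) :
    ∑ j ∈ range (n + 1), C (tauK K n j) * (uR r ^ (3 * j) * vR r ^ (6 * (n - j)))
      = C (125⁻¹ * (156250⁻¹) ^ n) * (f1 r ^ n * wR r ^ (2 * n)) := by
  have e : f1 r ^ n * wR r ^ (2 * n) = (f1 r * wR r ^ 2) ^ n := by
    rw [mul_pow, ← pow_mul]
  rw [e, fw1 r hr, add_pow, mul_sum]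
  apply sum_congr rfl
  intro j hj
  rw [mem_range] at hj
  have h1 : (125⁻¹ * (156250⁻¹) ^ n : K) * (156250 ^ (n - j) * (n.choose j : K)) = tauK K n j := by
    unfold tauK
    have h2 : (156250⁻¹ : K) ^ n = (156250⁻¹) ^ (n - j) * (156250⁻¹) ^ j := by
      rw [← pow_add]
      congr 1
      omega
    have h3 : (156250⁻¹ : K) ^ (n - j) * 156250 ^ (n - j) = 1 := by
      rw [← mul_pow, inv_mul_cancel₀ h, one_pow]
    rw [h2]
    linear_combination (125⁻¹ * (156250⁻¹) ^ j * (n.choose j : K)) * h3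
  rw [← h1, C_mul, C_mul (a := (156250 : K) ^ (n - j)), C_pow, C_eq_natCast,
    show (C (156250 : K) : K[X]) = 156250 from rfl]
  rw [mul_pow, ← pow_mul, ← pow_mul]
  ring

include hp in
lemma SS_deriv (r : K) (hr : r ^ 2 = 5) (n m : ℕ) (hn : 2 * n + 1 = p) (hm : 3 * m + 1 = p) :
    derivative (SS r n m) = ∑ j ∈ range (n + 1), if j = m then 0 else
      C (tauK K n j) * (uR r ^ (3 * j) * vR r ^ (6 * (n - j)) * wR r) := by
  unfold SS
  rw [derivative_sum]
  apply sum_congr rfl
  intro i hi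
  rw [mem_range] at hi
  split_ifs with h
  · exact derivative_zero
  · rw [derivative_C_mul, term_deriv p (uR r) (vR r) n i hn (by omega), ← wR_eq r hr]
    have hne : ((3 * i + 1 : ℕ) : K) ≠ 0 := by
      intro h0
      rw [CharP.cast_eq_zero_iff K p] at h0
      obtain ⟨c, hc⟩ := h0
      rcases c with _ | _ | c
      · omega
      · omega
      · have : p * (c + 1 + 1) = p * c + 2 * p := by ring
        have h5 : 0 ≤ p * c := Nat.zero_le _
        omega
    rw [← C_eq_natCast, ← mul_assoc (C (tauK K n i * ((3 * i + 1 : ℕ) : K)⁻¹)), ← C_mul,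
      mul_assoc (tauK K n i), inv_mul_cancel₀ hne, mul_one]

/-- the derivative of the whole -/
theorem MM_deriv (r : K) (hr : r ^ 2 = 5) (n m : ℕ) (hn : 2 * n + 1 = p) (hm : 3 * m + 1 = p)
    (h : (156250 : K) ≠ 0) (U1 V1 : K[X])
    (hU : derivative U1 = uR r ^ (p - 1) * derivative (uR r) - X ^ (p - 1) * derivative (uR r) ^ p)
    (hV : derivative V1 = vR r ^ (p - 1) * derivative (vR r)
      - X ^ (p - 1) * derivative (vR r) ^ p) :
    derivative (SS r n m + C (tauK K n m) * (U1 * vR r ^ p - 2 * (uR r ^ p * V1)))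
      = wR r ^ p * (C (125⁻¹ * (156250⁻¹) ^ n) * f1 r ^ n - C (tauK K n m) * X ^ (p - 1)) := by
  have hpp : p - 1 + 1 = p := Nat.sub_add_cancel hp.out.one_le
  have hpow : ∀ f : K[X], derivative (f ^ p) = 0 := by
    intro f
    rw [derivative_pow, CharP.cast_eq_zero K p, C_0, zero_mul, zero_mul]
  have hW : wR r ^ p = vR r ^ p * derivative (uR r) ^ p
      - 2 * (uR r ^ p * derivative (vR r) ^ p) := by
    rw [wR_eq r hr, sub_pow_char, mul_pow, mul_pow, mul_pow]
    have h2 : (2 : K[X]) ^ p = 2 := by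
      rw [show (2 : K[X]) = 1 + 1 by norm_num, add_pow_char, one_pow]
    rw [h2]
    ring
  have hU' : ∀ f : K[X], f ^ p = f ^ (p - 1) * f := by
    intro f
    rw [← pow_succ, hpp]
  have h1 : derivative (U1 * vR r ^ p - 2 * (uR r ^ p * V1))
      = uR r ^ (3 * m) * vR r ^ (6 * (n - m)) * wR r - X ^ (p - 1) * wR r ^ p := by
    rw [derivative_sub, derivative_mul, hpow, mul_zero, add_zero, derivative_mul, derivative_ofNat,
      zero_mul, zero_add, derivative_mul, hpow, zero_mul, zero_add, hU, hV, hW,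
      show 3 * m = p - 1 by omega, show 6 * (n - m) = p - 1 by omega]
    rw [show uR r ^ (p - 1) * vR r ^ (p - 1) * wR r
        = uR r ^ (p - 1) * vR r ^ (p - 1) * (derivative (uR r) * vR r - 2 * (uR r * derivative (vR r)))
        by rw [← wR_eq r hr]]
    linear_combination (uR r ^ (p - 1) * derivative (uR r)) * hU' (vR r)
      - (2 * vR r ^ (p - 1) * derivative (vR r)) * hU' (uR r)
  rw [derivative_add, derivative_C_mul, h1, SS_deriv p r hr n m hn hm]
  have h2 := sum_tau r hr n h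
  have h3 : ∑ j ∈ range (n + 1), (if j = m then 0 else
      C (tauK K n j) * (uR r ^ (3 * j) * vR r ^ (6 * (n - j)) * wR r))
      = (∑ j ∈ range (n + 1), C (tauK K n j) * (uR r ^ (3 * j) * vR r ^ (6 * (n - j)))) * wR r
        - C (tauK K n m) * (uR r ^ (3 * m) * vR r ^ (6 * (n - m)) * wR r) := by
    rw [eq_sub_iff_add_eq, sum_mul]
    rw [← Finset.sum_ite_eq' (range (n + 1)) m
      (fun j => C (tauK K n j) * (uR r ^ (3 * j) * vR r ^ (6 * (n - j)) * wR r)) |>.trans
      (if_pos (mem_range.mpr (by omega))), ← sum_add_distrib]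
    apply sum_congr rfl
    intro j _
    split_ifs
    · rw [zero_add]
      ring
    · rw [add_zero]
      ring
  rw [h3, h2]
  have h4 : wR r ^ p = wR r ^ (2 * n) * wR r := by
    rw [← pow_succ, hn]
  linear_combination (-(C (125⁻¹ * (156250⁻¹) ^ n) * f1 r ^ n)) * h4

end

end Pool.Agent.MP5c57f5
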