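import Pool.Agent.Lib.MP_5c57f5_nt.Core2

/-!
The polynomial of the transferred logarithm is a `p`-th power plus a part without the exponents
`0, p, 2p`.
-/

namespace Pool.Agent.MP5c57f5

open Polynomial Finset

section

variable {K : Type*} [Field K] (p : ℕ) [hp : Fact p.Prime] [CharP K p]

omit hp [CharP K p] in
lemma SS_deg (r : K) (n m : ℕ) : (SS r n m).natDegree ≤ 15 * n + 7 := by
  unfold SS
  apply natDegree_sum_le_of_forall_le
  intro j hj
  rw [mem_range] at hj
  split_ifs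
  · rw [natDegree_zero]
    omega
  · refine (natDegree_C_mul_le _ _).trans (natDegree_mul_le.trans ?_)
    have h1 : (uR r ^ (3 * j + 1)).natDegree ≤ (3 * j + 1) * 5 :=
      natDegree_pow_le.trans (Nat.mul_le_mul_left _ (uR_deg r))
    have h2 : (vR r ^ (6 * (n - j) + 1)).natDegree ≤ (6 * (n - j) + 1) * 2 :=
      natDegree_pow_le.trans (Nat.mul_le_mul_left _ (vR_deg r))
    omega

omit hp [CharP K p] in
lemma SS_zero (r : K) (n m : ℕ) : (SS r n m).coeff 0 = 0 := by
  unfold SS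
  rw [finsetSum_coeff]
  apply sum_eq_zero
  intro j _
  split_ifs
  · exact coeff_zero _
  · rw [coeff_C_mul, mul_coeff_zero, coeff_zero_eq_eval_zero (uR r ^ (3 * j + 1)), eval_pow,
      ← coeff_zero_eq_eval_zero, uR_zero, zero_pow (by omega), zero_mul, mul_zero]

omit hp [CharP K p] in
lemma cube_mod (r : K) (hr : r ^ 2 = 5) (j : ℕ) :
    wR r ∣ uR r ^ (3 * j) - (-156250 * vR r ^ 6) ^ j := by
  have h1 : wR r ∣ uR r ^ 3 - (-156250 * vR r ^ 6) := by
    refine ⟨f1 r * wR r, ?_⟩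
    linear_combination -fw1 r hr
  rw [pow_mul]
  exact h1.trans (sub_dvd_pow_sub_pow _ _ j)

omit hp [CharP K p] in
lemma SS_mod (r : K) (hr : r ^ 2 = 5) (n m : ℕ) (h : (156250 : K) ≠ 0) (s : K)
    (hs : s = ∑ j ∈ range (n + 1), (if j = m then 0 else (-1) ^ j * (n.choose j : K)
      * (((3 * j + 1 : ℕ) : K))⁻¹)) :
    wR r ∣ SS r n m - C (125⁻¹ * s) * (uR r * vR r ^ (6 * n + 1)) := by
  have e : C (125⁻¹ * s) * (uR r * vR r ^ (6 * n + 1)) = ∑ j ∈ range (n + 1),
      (if j = m then 0 else C (125⁻¹ * ((-1) ^ j * (n.choose j : K) * (((3 * j + 1 : ℕ) : K))⁻¹))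
        * (uR r * vR r ^ (6 * n + 1))) := by
    rw [hs, mul_sum, map_sum, sum_mul]
    apply sum_congr rfl
    intro j _
    split_ifs
    · rw [mul_zero, C_0, zero_mul]
    · rfl
  rw [e]
  unfold SS
  rw [← sum_sub_distrib]
  apply dvd_sum
  intro j hj
  rw [mem_range] at hj
  split_ifs
  · rw [sub_zero]
    exact dvd_zero _
  · obtain ⟨c, hc⟩ := cube_mod r hr j
    have h1 : (125⁻¹ * ((-1) ^ j * (n.choose j : K) * (((3 * j + 1 : ℕ) : K))⁻¹))
        = (tauK K n j * ((3 * j + 1 : ℕ) : K)⁻¹) * (-156250) ^ j := by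
      unfold tauK
      have h2 : (156250⁻¹ : K) ^ j * (-156250) ^ j = (-1) ^ j := by
        rw [← mul_pow]
        congr 1
        field_simp
      rw [← h2]
      ring
    rw [h1]
    refine ⟨C (tauK K n j * ((3 * j + 1 : ℕ) : K)⁻¹) * (uR r * vR r ^ (6 * (n - j) + 1)) * c, ?_⟩
    have h3 : vR r ^ (6 * n + 1) = vR r ^ (6 * (n - j) + 1) * vR r ^ (6 * j) := by
      rw [← pow_add]
      congr 1
      omega
    rw [C_mul (b := (-156250 : K) ^ j), C_pow, C_neg, show (C (156250 : K) : K[X]) = 156250 from rfl,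
      h3, pow_succ (uR r) (3 * j)]
    have h4 : (-156250 * vR r ^ 6) ^ j = (-156250) ^ j * vR r ^ (6 * j) := by
      rw [mul_pow, ← pow_mul]
    rw [h4] at hc
    linear_combination (C (tauK K n j * ((3 * j + 1 : ℕ) : K)⁻¹)
      * (uR r * vR r ^ (6 * (n - j) + 1))) * hc

theorem core_shape [IsAlgClosed K] (r : K) (hr : r ^ 2 = 5) (n m : ℕ) (hn : 2 * n + 1 = p)
    (hm : 3 * m + 1 = p) (h2 : (2 : K) ≠ 0) (h3 : (3 : K) ≠ 0) (h5 : (5 : K) ≠ 0)
    (hco1 : IsCoprime (wR r) (vR r)) (hco2 : IsCoprime (wR r) (derivative (wR r)))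
    (U1 V1 : K[X])
    (hU : derivative U1 = uR r ^ (p - 1) * derivative (uR r) - X ^ (p - 1) * derivative (uR r) ^ p)
    (hV : derivative V1 = vR r ^ (p - 1) * derivative (vR r)
      - X ^ (p - 1) * derivative (vR r) ^ p)
    (hU0 : U1.coeff 0 = 0) (hUd : U1.natDegree ≤ 5 * p) (hVd : V1.natDegree ≤ 2 * p) (q : K)
    (hW : wR r ∣ vR r ^ (5 * p) * (C q * (uR r ^ p * vR r ^ p)
      + 468750 * (U1 * vR r ^ p - 2 * (uR r ^ p * V1)))) (d : K)
    (hd : 3 * ∑ j ∈ range (n + 1), (if j = m then 0 else (-1) ^ j * (n.choose j : K)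
      * (((3 * j + 1 : ℕ) : K))⁻¹) = (n.choose m : K) * d) :
    ∃ a l : K, ∃ Mt : K[X], Mt.coeff 0 = 0 ∧ Mt.coeff p = 0 ∧ Mt.coeff (2 * p) = 0 ∧
      a ^ p = tauK K n m * (d / 3 - q / 468750) ∧
      SS r n m + C (tauK K n m) * (U1 * vR r ^ p - 2 * (uR r ^ p * V1))
        = (C a * (uR r * vR r) + C l * (X * wR r)) ^ p + wR r ^ p * Mt := by
  have h156 : (156250 : K) ≠ 0 := by
    rw [show (156250 : K) = 2 * 5 ^ 7 by norm_num]
    exact mul_ne_zero h2 (pow_ne_zero _ h5)
  have h468 : (468750 : K) ≠ 0 := by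
    rw [show (468750 : K) = 2 * 3 * 5 ^ 7 by norm_num]
    exact mul_ne_zero (mul_ne_zero h2 h3) (pow_ne_zero _ h5)
  have hp0 := hp.out.pos
  have hp2 := hp.out.two_le
  set S := SS r n m + C (tauK K n m) * (U1 * vR r ^ p - 2 * (uR r ^ p * V1)) with hS
  set γ : K := 125⁻¹ * (156250⁻¹) ^ n with hγ
  have hSd := MM_deriv p r hr n m hn hm h156 U1 V1 hU hV
  rw [← hS, ← hγ] at hSd
  -- the part
  set Mt : K[X] := ∑ i ∈ range (3 * n + 1), (if i = p - 1 then 0 else
    C (γ * (f1 r ^ n).coeff i * ((i + 1 : ℕ) : K)⁻¹) * X ^ (i + 1)) with hMt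
  have hfd : (f1 r ^ n).natDegree < 3 * n + 1 := by
    have h1 : (f1 r ^ n).natDegree ≤ n * 3 :=
      natDegree_pow_le.trans (Nat.mul_le_mul_left _ (f1_deg r))
    omega
  have hMc : ∀ k, Mt.coeff k = if k = 0 ∨ k = p ∨ 3 * n + 1 < k then 0 else
      γ * (f1 r ^ n).coeff (k - 1) * ((k : ℕ) : K)⁻¹ := by
    intro k
    rw [hMt, finsetSum_coeff]
    have e : ∀ i ∈ range (3 * n + 1), (if i = p - 1 then (0 : K[X]) else
        C (γ * (f1 r ^ n).coeff i * ((i + 1 : ℕ) : K)⁻¹) * X ^ (i + 1)).coeff k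
        = if i + 1 = k then (if k = p then 0 else
          γ * (f1 r ^ n).coeff (k - 1) * ((k : ℕ) : K)⁻¹) else 0 := by
      intro i _
      by_cases h1 : i + 1 = k
      · rw [if_pos h1]
        by_cases h4 : i = p - 1
        · rw [if_pos h4, if_pos (by omega), coeff_zero]
        · rw [if_neg h4, if_neg (by omega), coeff_C_mul_X_pow, if_pos h1.symm, ← h1,
            Nat.add_sub_cancel]
      · rw [if_neg h1]
        split_ifs
        · exact coeff_zero _
        · rw [coeff_C_mul_X_pow, if_neg (by omega)]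
    rw [sum_congr rfl e]
    by_cases h1 : k = 0 ∨ k = p ∨ 3 * n + 1 < k
    · rw [if_pos h1]
      apply sum_eq_zero
      intro i hi
      rw [mem_range] at hi
      rcases h1 with h1 | h1 | h1
      · rw [if_neg (by omega)]
      · rw [if_pos h1, ite_self]
      · rw [if_neg (by omega)]
    · rw [if_neg h1, sum_eq_single_of_mem (k - 1) (mem_range.mpr (by omega))
        (fun i _ hi => if_neg (by omega)), if_pos (by omega), if_neg (by omega)]
  have hM0 : Mt.coeff 0 = 0 := by rw [hMc, if_pos (by omega)]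
  have hMp : Mt.coeff p = 0 := by rw [hMc, if_pos (by omega)]
  have hM2 : Mt.coeff (2 * p) = 0 := by rw [hMc, if_pos (by omega)]
  have hMdeg : Mt.natDegree ≤ 3 * n + 1 := by
    rw [natDegree_le_iff_coeff_eq_zero]
    intro k hk
    rw [hMc, if_pos (by omega)]
  have hMd : derivative Mt = C γ * f1 r ^ n - C (γ * (f1 r ^ n).coeff (p - 1)) * X ^ (p - 1) := by
    ext k
    rw [coeff_derivative, hMc, coeff_sub, coeff_C_mul, coeff_C_mul_X_pow]
    by_cases h1 : k = p - 1
    · rw [if_pos (by omega), if_pos h1, h1, zero_mul, sub_self]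
    · rw [if_neg h1, sub_zero]
      by_cases h4 : 3 * n + 1 < k + 1
      · rw [if_pos (by omega), coeff_eq_zero_of_natDegree_lt (by omega : (f1 r ^ n).natDegree < k)]
        ring
      · rw [if_neg (by omega), Nat.add_sub_cancel]
        have hne : ((k + 1 : ℕ) : K) ≠ 0 := by
          intro h0
          rw [CharP.cast_eq_zero_iff K p] at h0
          obtain ⟨c, hc⟩ := h0
          rcases c with _ | _ | c
          · omega
          · omega
          · have : p * (c + 1 + 1) = p * c + 2 * p := by ring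
            have h5 : 0 ≤ p * c := Nat.zero_le _
            omega
        have : ((k : K) + 1) = ((k + 1 : ℕ) : K) := by push_cast; rfl
        rw [this, mul_assoc, inv_mul_cancel₀ hne, mul_one]
  have hpow : ∀ f : K[X], derivative (f ^ p) = 0 := by
    intro f
    rw [derivative_pow, CharP.cast_eq_zero K p, C_0, zero_mul, zero_mul]
  have hPd : derivative (S - wR r ^ p * Mt)
      = wR r ^ p * (C (γ * (f1 r ^ n).coeff (p - 1) - tauK K n m) * X ^ (p - 1)) := by
    rw [derivative_sub, derivative_mul, hpow, zero_mul, zero_add, hSd, hMd, C_sub]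
    ring
  have hδ : γ * (f1 r ^ n).coeff (p - 1) - tauK K n m = 0 := by
    have h1 : (derivative (S - wR r ^ p * Mt)).coeff (p - 1) = (wR r ^ p * (C (γ
      * (f1 r ^ n).coeff (p - 1) - tauK K n m) * X ^ (p - 1))).coeff (p - 1) := by rw [hPd]
    rw [coeff_derivative, show wR r ^ p * (C (γ * (f1 r ^ n).coeff (p - 1) - tauK K n m)
      * X ^ (p - 1)) = (wR r ^ p * C (γ * (f1 r ^ n).coeff (p - 1) - tauK K n m)) * X ^ (p - 1)
      by ring, coeff_mul_X_pow', if_pos le_rfl, Nat.sub_self, mul_coeff_zero, coeff_C_zero] at h1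
    have h4 : (((p - 1 : ℕ) : K) + 1) = 0 := by
      have : (((p - 1 + 1 : ℕ)) : K) = 0 := by
        rw [Nat.sub_add_cancel hp.out.one_le, CharP.cast_eq_zero K p]
      exact_mod_cast this
    rw [h4, mul_zero] at h1
    rcases mul_eq_zero.mp h1.symm with h6 | h6
    · exfalso
      rw [coeff_zero_eq_eval_zero, eval_pow, ← coeff_zero_eq_eval_zero, wR_zero] at h6
      exact wR_zero_ne r hr h2 h5 (pow_eq_zero_iff hp.out.ne_zero |>.mp h6)
    · exact h6
  rw [hδ, C_0, zero_mul, mul_zero] at hPd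
  have hdeg : (S - wR r ^ p * Mt).natDegree < 8 * p := by
    have hu : (uR r ^ p).natDegree ≤ p * 5 :=
      natDegree_pow_le.trans (Nat.mul_le_mul_left _ (uR_deg r))
    have hv : (vR r ^ p).natDegree ≤ p * 2 :=
      natDegree_pow_le.trans (Nat.mul_le_mul_left _ (vR_deg r))
    have hw : (wR r ^ p).natDegree ≤ p * 6 :=
      natDegree_pow_le.trans (Nat.mul_le_mul_left _ (wR_monic r).2.le)
    have h1 : (C (tauK K n m) * (U1 * vR r ^ p - 2 * (uR r ^ p * V1))).natDegree ≤ 7 * p := by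
      refine (natDegree_C_mul_le _ _).trans ((natDegree_sub_le _ _).trans (max_le ?_ ?_))
      · refine natDegree_mul_le.trans ?_
        omega
      · rw [show (2 : K[X]) = C 2 from rfl]
        refine (natDegree_C_mul_le _ _).trans (natDegree_mul_le.trans ?_)
        omega
    have h4 : S.natDegree ≤ max (15 * n + 7) (7 * p) :=
      (natDegree_add_le _ _).trans (max_le_max (SS_deg r n m) h1)
    have h6 : (wR r ^ p * Mt).natDegree ≤ p * 6 + (3 * n + 1) :=
      natDegree_mul_le.trans (add_le_add hw hMdeg)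
    have h7 := natDegree_sub_le S (wR r ^ p * Mt)
    have h8 : max (15 * n + 7) (7 * p) < 8 * p := max_lt (by omega) (by omega)
    have h9 : p * 6 + (3 * n + 1) < 8 * p := by omega
    exact lt_of_le_of_lt h7 (max_lt (lt_of_le_of_lt h4 h8) (lt_of_le_of_lt h6 h9))
  have hP0 : (S - wR r ^ p * Mt).coeff 0 = 0 := by
    have h1 : (uR r ^ p).coeff 0 = 0 := by
      rw [coeff_zero_eq_eval_zero, eval_pow, ← coeff_zero_eq_eval_zero, uR_zero,
        zero_pow hp.out.ne_zero]
    rw [coeff_sub, hS, coeff_add, SS_zero, coeff_C_mul, coeff_sub, mul_coeff_zero, hU0,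
      mul_coeff_zero (2 : K[X]), mul_coeff_zero (uR r ^ p), h1, mul_coeff_zero, hM0]
    ring
  have hWP : wR r ∣ (S - wR r ^ p * Mt)
      - C (tauK K n m * (d / 3 - q / 468750)) * (uR r ^ p * vR r ^ p) := by
    have hW' : wR r ∣ C q * (uR r ^ p * vR r ^ p) + 468750 * (U1 * vR r ^ p - 2 * (uR r ^ p * V1)) :=
      (IsCoprime.pow_right hco1).dvd_of_dvd_mul_left hW
    obtain ⟨c1, hc1⟩ := hW'
    obtain ⟨c2, hc2⟩ := SS_mod r hr n m h156 _ rfl
    obtain ⟨c3, hc3⟩ := cube_mod r hr m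
    obtain ⟨c4, hc4⟩ : wR r ∣ wR r ^ p := dvd_pow_self _ hp.out.ne_zero
    have hev : Even m := by
      rw [Nat.even_iff]
      omega
    set s := ∑ j ∈ range (n + 1), (if j = m then 0 else (-1) ^ j * (n.choose j : K)
      * (((3 * j + 1 : ℕ) : K))⁻¹) with hsdef
    have hs : s = (n.choose m : K) * d / 3 := by
      rw [eq_div_iff h3]
      linear_combination hd
    have e1 : (125⁻¹ * s : K) = tauK K n m * (d / 3) * (-156250) ^ m := by
      rw [hs, hev.neg_pow]
      unfold tauK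
      have h4 : (156250⁻¹ : K) ^ m * 156250 ^ m = 1 := by
        rw [← mul_pow, inv_mul_cancel₀ h156, one_pow]
      linear_combination (-(125⁻¹ * (n.choose m : K) * d / 3)) * h4
    have e2 : (-156250 * vR r ^ 6) ^ m = C ((-156250 : K) ^ m) * vR r ^ (6 * m) := by
      rw [mul_pow, ← pow_mul, C_pow, C_neg]
      rfl
    have e3 : vR r ^ (6 * n + 1) = vR r ^ (6 * m) * vR r ^ p := by
      rw [← pow_add]
      congr 1
      omega
    have e4 : uR r ^ p = uR r ^ (3 * m) * uR r := by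
      rw [← pow_succ, hm]
    have e5 : (U1 * vR r ^ p - 2 * (uR r ^ p * V1))
        = C (468750⁻¹) * (wR r * c1 - C q * (uR r ^ p * vR r ^ p)) := by
      rw [← hc1, add_sub_cancel_left]
      have : C (468750⁻¹ : K) * (468750 : K[X]) = 1 := by
        rw [show (468750 : K[X]) = C 468750 from rfl, ← C_mul, inv_mul_cancel₀ h468, C_1]
      linear_combination (-(U1 * vR r ^ p - 2 * (uR r ^ p * V1))) * this
    rw [e2] at hc3
    refine ⟨c2 + C (tauK K n m) * C (468750⁻¹) * c1 - c4 * Mt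
      - C (tauK K n m * (d / 3)) * (uR r * vR r ^ p) * c3, ?_⟩
    rw [hS, e5, eq_add_of_sub_eq hc2, e1, e3]
    have e6 : C (tauK K n m * (d / 3 - q / 468750))
        = C (tauK K n m * (d / 3)) - C (tauK K n m) * C (468750⁻¹) * C q := by
      rw [← C_mul, ← C_mul, ← C_sub]
      congr 1
      rw [div_eq_mul_inv q]
      ring
    rw [e6, C_mul (a := tauK K n m * (d / 3))]
    rw [hc4]
    have e7 := e4
    linear_combination (-(C (tauK K n m * (d / 3)) * vR r ^ p)) * e7
      - (C (tauK K n m * (d / 3)) * (uR r * vR r ^ p)) * hc3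
  obtain ⟨a, l, ha, hal⟩ := shape p r hr h2 h5 hco2 _ hPd hdeg hP0 _ hWP
  refine ⟨a, l, Mt, hM0, hMp, hM2, ha, ?_⟩
  rw [← hal]
  ring

end

end Pool.Agent.MP5c57f5
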