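import Pool.Agent.Lib.MP_5c57f5_nt.Core3

/-!
Lifts of the `p`-th powers of the polynomials of the isogeny.
-/

namespace Pool.Agent.MP5c57f5

open Polynomial Finset

section ring

variable {A : Type*} [CommRing A]

lemma uR_degA (r : A) : (uR r).natDegree ≤ 5 := by
  unfold uR
  have e : ∀ a b : ℕ, ((a : A[X]) + (b : A[X]) * C r) = C ((a : A) + b * r) := by
    intro a b
    simp
  have e1 := e 100 30
  have e2 := e 5250 2550
  have e3 := e 164500 73500
  have e4 := e 1885000 843000
  push_cast at e1 e2 e3 e4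
  rw [e1, e2, e3, e4]
  compute_degree

lemma vR_degA (r : A) : (vR r).natDegree ≤ 2 := by
  unfold vR
  have e : ∀ a b : ℕ, ((a : A[X]) + (b : A[X]) * C r) = C ((a : A) + b * r) := by
    intro a b
    simp
  have e1 := e 35 15
  have e2 := e 550 246
  push_cast at e1 e2
  rw [e1, e2]
  compute_degree

lemma wR_monicA (r : A) : (wR r).Monic := by
  have e : wR r = X ^ 6 + (C (105 + 45 * r) * X ^ 5
      + C (9000 + 3780 * r) * X ^ 4 + C (413600 + 185400 * r) * X ^ 3
      + C (12417000 + 5553000 * r) * X ^ 2 + C (232560000 + 104004000 * r) * X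
      + C (2073640000 + 927360000 * r)) := by
    unfold wR
    simp only [C_add, C_mul, C_ofNat]
    ring
  rw [e]
  apply monic_X_pow_add
  refine lt_of_le_of_lt (b := ((5 : ℕ) : WithBot ℕ)) ?_ (by norm_num)
  compute_degree
  norm_num

/-- divisibility of the coefficients by `p` and monic factors -/
lemma dvd_of_monic (a : A) (w z : A[X]) (hw : w.Monic) (h : C a ∣ w * z) : C a ∣ z := by
  rw [C_dvd_iff_dvd_coeff] at h ⊢
  set q := Ideal.Quotient.mk (Ideal.span {a}) with hq
  have h1 : (w * z).map q = 0 := by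
    ext i
    rw [coeff_map, coeff_zero, hq, Ideal.Quotient.eq_zero_iff_mem, Ideal.mem_span_singleton]
    exact h i
  rw [Polynomial.map_mul, (hw.map q).mul_right_eq_zero_iff] at h1
  intro i
  have h2 := congrArg (fun f => coeff f i) h1
  simp only [coeff_map, coeff_zero] at h2
  rw [hq, Ideal.Quotient.eq_zero_iff_mem, Ideal.mem_span_singleton] at h2
  exact h2

/-- a `p`-th power and the expansion -/
lemma pow_expand (p : ℕ) [hp : Fact p.Prime] (hnu : ¬ IsUnit (p : A)) (f f' : A[X])
    (h : ∀ q : A →+* A ⧸ Ideal.span {(p : A)}, q = Ideal.Quotient.mk (Ideal.span {(p : A)}) →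
      ∀ [ExpChar (A ⧸ Ideal.span {(p : A)}) p], (f.map q).map (frobenius _ p) = f'.map q) :
    ∃ g : A[X], f ^ p = expand A p f' + C (p : A) * g := by
  have hc : CharP (A ⧸ Ideal.span {(p : A)}) p := CharP.quotient A p hnu
  set q := Ideal.Quotient.mk (Ideal.span {(p : A)}) with hq
  have hE : ExpChar (A ⧸ Ideal.span {(p : A)}) p := ExpChar.prime hp.out
  have h1 := h q hq
  have h2 : (f ^ p - expand A p f').map q = 0 := by
    have e1 : (f.map q) ^ p = expand _ p (f'.map q) := by
      rw [← map_frobenius_expand p, map_expand, h1]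
    rw [Polynomial.map_sub, Polynomial.map_pow, e1, map_expand, sub_self]
  have h3 : C (p : A) ∣ f ^ p - expand A p f' := by
    rw [C_dvd_iff_dvd_coeff]
    intro i
    have h4 := congrArg (fun f => coeff f i) h2
    simp only [coeff_map, coeff_zero] at h4
    rw [hq, Ideal.Quotient.eq_zero_iff_mem, Ideal.mem_span_singleton] at h4
    exact h4
  obtain ⟨g, hg⟩ := h3
  exact ⟨g, by linear_combination hg⟩

lemma frob_r (p : ℕ) (r r' d : A) (hrp : r ^ p = r' + p * d)
    (q : A →+* A ⧸ Ideal.span {(p : A)}) (hq : q = Ideal.Quotient.mk (Ideal.span {(p : A)}))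
    [ExpChar (A ⧸ Ideal.span {(p : A)}) p] : (frobenius _ p) (q r) = q r' := by
  rw [frobenius_def, ← map_pow, hrp, map_add, map_mul]
  have : q (p : A) = 0 := by
    rw [hq, Ideal.Quotient.eq_zero_iff_mem]
    exact Ideal.mem_span_singleton_self _
  rw [this, zero_mul, add_zero]

end ring

section

variable {A : Type*} [CommRing A] [IsDomain A] {K : Type*} [Field K] (p : ℕ) [hp : Fact p.Prime]
  [CharP K p]

lemma lift_deriv (π : A →+* K) (hpA : (p : A) ≠ 0) (f f' g : A[X])
    (h : f ^ p = expand A p f' + C (p : A) * g)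
    (hff : (f.map π).map (frobenius K p) = f'.map π) :
    derivative (g.map π) = (f.map π) ^ (p - 1) * derivative (f.map π)
      - X ^ (p - 1) * derivative (f.map π) ^ p := by
  have h1 := congrArg derivative h
  rw [derivative_add, derivative_C_mul, derivative_expand, derivative_pow] at h1
  have hC : (C (p : A) : A[X]) ≠ 0 := by
    rw [Ne, C_eq_zero]
    exact hpA
  have h2 : derivative g = f ^ (p - 1) * derivative f
      - X ^ (p - 1) * expand A p (derivative f') := by
    apply mul_left_cancel₀ hC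
    have e : ((p : ℕ) : A[X]) = C (p : A) := by simp
    rw [e] at h1
    linear_combination -h1
  rw [derivative_map, h2, Polynomial.map_sub, Polynomial.map_mul, Polynomial.map_pow,
    Polynomial.map_mul, Polynomial.map_pow, map_X, ← derivative_map, map_expand, ← derivative_map,
    ← hff, ← map_frobenius_expand p, derivative_map, map_expand, derivative_map, derivative_map]

theorem lifts (π : A →+* K) (hpA : (p : A) ≠ 0) (hnu : ¬ IsUnit (p : A)) (r r' d : A)
    (hr : r ^ 2 = 5) (hr' : r' ^ 2 = 5) (hrp : r ^ p = r' + p * d) (hp2 : Odd p) (q : ℤ)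
    (hq : (156250 : ℤ) - 156250 ^ p = p * q) :
    ∃ U1 V1 : A[X], uR r ^ p = expand A p (uR r') + C (p : A) * U1 ∧
      vR r ^ p = expand A p (vR r') + C (p : A) * V1 ∧
      derivative (U1.map π) = uR (π r) ^ (p - 1) * derivative (uR (π r))
        - X ^ (p - 1) * derivative (uR (π r)) ^ p ∧
      derivative (V1.map π) = vR (π r) ^ (p - 1) * derivative (vR (π r))
        - X ^ (p - 1) * derivative (vR (π r)) ^ p ∧
      (U1.map π).coeff 0 = 0 ∧ (U1.map π).natDegree ≤ 5 * p ∧ (V1.map π).natDegree ≤ 2 * p ∧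
      wR (π r) ∣ vR (π r) ^ (5 * p) * (C (q : K) * (uR (π r) ^ p * vR (π r) ^ p)
        + 468750 * ((U1.map π) * vR (π r) ^ p - 2 * (uR (π r) ^ p * (V1.map π)))) := by
  have hp0 := hp.out.pos
  obtain ⟨U1, hU⟩ := pow_expand p hnu (uR r) (uR r') (by
    intro q hq hE
    rw [uR_map, uR_map, uR_map, frob_r p r r' d hrp q hq])
  obtain ⟨V1, hV⟩ := pow_expand p hnu (vR r) (vR r') (by
    intro q hq hE
    rw [vR_map, vR_map, vR_map, frob_r p r r' d hrp q hq])
  obtain ⟨W1, hW⟩ := pow_expand p hnu (wR r) (wR r') (by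
    intro q hq hE
    rw [wR_map, wR_map, wR_map, frob_r p r r' d hrp q hq])
  have hC : (C (p : A) : A[X]) ≠ 0 := by
    rw [Ne, C_eq_zero]
    exact hpA
  have hπ : frobenius K p (π r) = π r' := by
    rw [frobenius_def, ← map_pow, hrp, map_add, map_mul, map_natCast, CharP.cast_eq_zero K p,
      zero_mul, add_zero]
  have hUu : ((uR r).map π).map (frobenius K p) = (uR r').map π := by
    rw [uR_map, uR_map, uR_map, hπ]
  have hVv : ((vR r).map π).map (frobenius K p) = (vR r').map π := by
    rw [vR_map, vR_map, vR_map, hπ]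
  refine ⟨U1, V1, hU, hV, ?_, ?_, ?_, ?_, ?_, ?_⟩
  · have := lift_deriv p π hpA (uR r) (uR r') U1 hU hUu
    rwa [uR_map] at this
  · have := lift_deriv p π hpA (vR r) (vR r') V1 hV hVv
    rwa [vR_map] at this
  · have h1 := congrArg (fun f => coeff f 0) hU
    simp only [coeff_add, coeff_C_mul] at h1
    rw [coeff_zero_eq_eval_zero (uR r ^ p), eval_pow, ← coeff_zero_eq_eval_zero, uR_zero,
      zero_pow hp.out.ne_zero, coeff_expand hp0, if_pos (dvd_zero p), Nat.zero_div, uR_zero,
      zero_add] at h1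
    have h2 : U1.coeff 0 = 0 := by
      rcases mul_eq_zero.mp h1.symm with h3 | h3
      · exact absurd h3 hpA
      · exact h3
    rw [coeff_map, h2, map_zero]
  · refine (natDegree_map_le).trans ?_
    have h2 : C (p : A) * U1 = uR r ^ p - expand A p (uR r') := by linear_combination -hU
    rw [← natDegree_C_mul hpA, h2]
    refine (natDegree_sub_le _ _).trans (max_le ?_ ?_)
    · have := natDegree_pow_le.trans (Nat.mul_le_mul_left p (uR_degA r))
      omega
    · rw [natDegree_expand]
      have := Nat.mul_le_mul_right p (uR_degA r')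
      omega
  · refine (natDegree_map_le).trans ?_
    have h2 : C (p : A) * V1 = vR r ^ p - expand A p (vR r') := by linear_combination -hV
    rw [← natDegree_C_mul hpA, h2]
    refine (natDegree_sub_le _ _).trans (max_le ?_ ?_)
    · have := natDegree_pow_le.trans (Nat.mul_le_mul_left p (vR_degA r))
      omega
    · rw [natDegree_expand]
      have := Nat.mul_le_mul_right p (vR_degA r')
      omega
  · -- the relation
    set P : A[X] := C (p : A) with hP
    set a := uR r ^ p with ha
    set b := vR r ^ p with hb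
    have hE := congrArg (expand A p) (fw1 r' hr')
    rw [map_mul, map_pow, map_add, map_pow, map_mul, map_pow, map_ofNat] at hE
    have eU : expand A p (uR r') = a - P * U1 := by linear_combination -hU
    have eV : expand A p (vR r') = b - P * V1 := by linear_combination -hV
    have eW : expand A p (wR r') = wR r ^ p - P * W1 := by linear_combination -hW
    rw [eU, eV, eW] at hE
    have hcube : wR r ∣ a ^ 3 + 156250 ^ p * b ^ 6 := by
      have h1 : wR r ∣ uR r ^ 3 - (-156250 * vR r ^ 6) := by
        refine ⟨f1 r * wR r, ?_⟩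
        linear_combination -fw1 r hr
      have h2 := h1.trans (sub_dvd_pow_sub_pow _ _ p)
      have e : (uR r ^ 3) ^ p - (-156250 * vR r ^ 6) ^ p = a ^ 3 + 156250 ^ p * b ^ 6 := by
        rw [neg_mul, hp2.neg_pow, mul_pow, ha, hb, ← pow_mul, ← pow_mul, ← pow_mul, ← pow_mul,
          mul_comm 3 p, mul_comm 6 p]
        ring
      rwa [e] at h2
    obtain ⟨z3, hz3⟩ := hcube
    have hqA : (156250 : A[X]) - 156250 ^ p = P * C (q : A) := by
      have h1 := congrArg (fun z : ℤ => (C ((z : ℤ) : A) : A[X])) hq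
      simp only [Int.cast_sub, Int.cast_pow, Int.cast_mul, Int.cast_natCast, Int.cast_ofNat,
        C_sub, C_pow, C_mul] at h1
      exact h1
    have hWp : wR r ^ p = wR r * wR r ^ (p - 1) := by
      rw [← pow_succ', Nat.sub_add_cancel hp.out.one_le]
    set Y : A[X] := C (q : A) * b ^ 6 - 3 * a ^ 2 * U1 - 937500 * b ^ 5 * V1 with hY
    set E := expand A p (f1 r') with hEE
    have hmain : ∃ Z Z2 : A[X], P * Y = wR r * Z + P * (P * Z2) := by
      refine ⟨E * wR r ^ (p - 1) * (wR r ^ p - 2 * P * W1) - z3,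
        E * W1 ^ 2 - 3 * a * U1 ^ 2 + P * U1 ^ 3
          - 156250 * (15 * b ^ 4 * V1 ^ 2 - 20 * P * b ^ 3 * V1 ^ 3 + 15 * P ^ 2 * b ^ 2 * V1 ^ 4
            - 6 * P ^ 3 * b * V1 ^ 5 + P ^ 4 * V1 ^ 6), ?_⟩
      have h6 : wR r ^ p * wR r ^ p = wR r * wR r ^ (p - 1) * wR r ^ p := by rw [← hWp]
      rw [hY]
      linear_combination (-b ^ 6) * hqA - hz3 - hE + E * h6 - (2 * E * P * W1) * hWp
    obtain ⟨Z, Z2, hZ⟩ := hmain
    have hPZ : P ∣ wR r * Z := ⟨Y - P * Z2, by linear_combination -hZ⟩
    obtain ⟨Z', hZ'⟩ := dvd_of_monic (p : A) (wR r) Z (wR_monicA r) hPZ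
    have hYY : Y = wR r * Z' + P * Z2 := by
      apply mul_left_cancel₀ hC
      rw [hZ, hZ']
      ring
    -- to the field
    have hPK : P.map π = 0 := by
      rw [hP, map_C, map_natCast, CharP.cast_eq_zero K p, C_0]
    have hmap : (Y.map π) = wR (π r) * Z'.map π := by
      rw [hYY, Polynomial.map_add, Polynomial.map_mul, Polynomial.map_mul, hPK, zero_mul, add_zero,
        wR_map]
    have hY2 : Y.map π = C (q : K) * (vR (π r) ^ p) ^ 6 - 3 * (uR (π r) ^ p) ^ 2 * U1.map π
        - 937500 * (vR (π r) ^ p) ^ 5 * V1.map π := by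
      rw [hY, ha, hb]
      simp only [Polynomial.map_sub, Polynomial.map_mul, Polynomial.map_pow, map_intCast,
        Polynomial.map_intCast, uR_map, vR_map, Polynomial.map_ofNat]
    have hz3K := congrArg (fun f : A[X] => f.map π) hz3
    simp only [ha, hb, Polynomial.map_add, Polynomial.map_mul, Polynomial.map_pow,
        uR_map, vR_map, wR_map, Polynomial.map_ofNat] at hz3K
    have h156 : (156250 : K[X]) ^ p = 156250 := by
      have h1 : (C (((156250 : ℤ) - 156250 ^ p : ℤ) : K) : K[X]) = 0 := by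
        rw [hq, Int.cast_mul, Int.cast_natCast, CharP.cast_eq_zero K p, zero_mul, C_0]
      simp only [Int.cast_sub, Int.cast_pow, Int.cast_ofNat, C_sub, C_pow] at h1
      have h2 : (C (156250 : K) : K[X]) = 156250 := rfl
      rw [h2] at h1
      linear_combination -h1
    rw [h156] at hz3K
    rw [hY2] at hmap
    have e5 : vR (π r) ^ (5 * p) = (vR (π r) ^ p) ^ 5 := by rw [← pow_mul, mul_comm]
    rw [e5]
    refine ⟨uR (π r) ^ p * Z'.map π + 3 * z3.map π * U1.map π, ?_⟩
    linear_combination (uR (π r) ^ p) * hmap + (3 * U1.map π) * hz3K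

end

end Pool.Agent.MP5c57f5
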