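import Mathlib

/-!
# Coefficients of the generating series of the elimination step

`uS g'` is the inverse of `3 X + g` and `GS p g' i40` is the truncated composite of the
square-root series; its coefficients are the binomial sums of the problem.
-/

open Finset

namespace Pool.Agent.MP5c57f5

variable {A : Type*} [CommRing A]

/-- The inverse power series of `3 X + g`, where `g * g' = 1`. -/
noncomputable def uS (g' : A) : PowerSeries A :=
  PowerSeries.C g' * PowerSeries.rescale (-3 * g') (PowerSeries.mk 1)

/-- The truncated composite series. -/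
noncomputable def GS (p : ℕ) (g' i40 : A) : PowerSeries A :=
  ∑ j ∈ range p, PowerSeries.C ((-1) ^ j * ((2 * j).choose j : A) * i40 ^ j) *
    PowerSeries.X ^ (3 * j) * uS g' ^ (2 * j + 1)

theorem uS_mul (g g' : A) (hg : g * g' = 1) :
    uS g' * (3 * PowerSeries.X + PowerSeries.C g) = 1 := by
  have h1 : PowerSeries.C g' * (3 * PowerSeries.X + PowerSeries.C g) =
      PowerSeries.rescale (-3 * g') (1 - PowerSeries.X) := by
    rw [map_sub, map_one, PowerSeries.rescale_X, mul_add, ← map_mul, mul_comm g' g, hg, map_one,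
      map_mul, map_neg]
    have h3 : (PowerSeries.C (3 : A) : PowerSeries A) = 3 := map_ofNat _ 3
    rw [h3]
    ring
  have h2 : uS g' * (3 * PowerSeries.X + PowerSeries.C g) =
      PowerSeries.rescale (-3 * g') (PowerSeries.mk 1) *
        (PowerSeries.C g' * (3 * PowerSeries.X + PowerSeries.C g)) := by
    unfold uS
    ring
  rw [h2, h1, ← map_mul, PowerSeries.mk_one_mul_one_sub_eq_one, map_one]

/-- Coefficients of the powers of `uS g'`. -/
theorem uS_pow_coeff (g' : A) (d k : ℕ) :
    PowerSeries.coeff k (uS g' ^ (d + 1)) =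
      g' ^ (d + 1) * ((-3 * g') ^ k * ((d + k).choose d : A)) := by
  unfold uS
  rw [mul_pow, ← map_pow, ← map_pow, PowerSeries.mk_one_pow_eq_mk_choose_add,
    PowerSeries.coeff_C_mul, PowerSeries.coeff_rescale, PowerSeries.coeff_mk]

theorem GS_coeff (g g' i40 i1080 : A) (hg : g * g' = 1) (h40 : 40 * i40 = 1)
    (h1080 : 1080 * i1080 = 1) (p n : ℕ) (hn : 0 < n) :
    PowerSeries.coeff (n - 1) (GS p g' i40) =
      (-3) ^ (n - 1) * g' ^ n *
        ∑ j ∈ range p, (((2 * j).choose j * (n - 1 - j).choose (2 * j) : ℕ) : A) *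
          (g * i1080) ^ j := by
  have hi : i40 = 27 * i1080 := by
    linear_combination (27 * i1080) * h40 - i40 * h1080
  unfold GS
  rw [map_sum, mul_sum]
  refine sum_congr rfl fun j _ => ?_
  rw [mul_assoc, PowerSeries.coeff_C_mul, PowerSeries.coeff_X_pow_mul', uS_pow_coeff]
  by_cases h : 3 * j ≤ n - 1
  · rw [if_pos h]
    obtain ⟨k, hk⟩ := Nat.exists_eq_add_of_le h
    have e1 : n - 1 - 3 * j = k := by omega
    have e2 : n - 1 - j = 2 * j + k := by omega
    have e3 : n = 3 * j + k + 1 := by omega
    rw [e1, e2, hk]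
    have e4 : g' ^ n = g' ^ (3 * j + k + 1) := by rw [← e3]
    rw [e4]
    have key : ((-3 : A)) ^ (3 * j) * g' ^ j * (g * i1080) ^ j = (-1) ^ j * i40 ^ j := by
      rw [pow_mul, ← mul_pow, ← mul_pow, ← mul_pow]
      congr 1
      rw [hi]
      linear_combination (-27 * i1080) * hg
    have key2 : ((-3 : A)) ^ (3 * j + k) * g' ^ (3 * j + k + 1) * (g * i1080) ^ j =
        (-1) ^ j * i40 ^ j * (g' ^ (2 * j + 1) * (-3 * g') ^ k) := by
      rw [← key]
      rw [mul_pow (-3 : A) g' k]
      have : 3 * j + k + 1 = j + (2 * j + 1) + k := by ring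
      rw [this, pow_add, pow_add g', pow_add g']
      ring
    push_cast
    linear_combination (-((2 * j).choose j : A) * ((2 * j + k).choose (2 * j) : A)) * key2
  · rw [if_neg h]
    have e1 : (n - 1 - j).choose (2 * j) = 0 := Nat.choose_eq_zero_of_lt (by omega)
    rw [e1]
    simp

end Pool.Agent.MP5c57f5
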