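import Mathlib

/-!
MP_5c57f5_nt, rows S1 and tools for SIG: harmonic numbers modulo `p`.
-/

namespace Pool.Agent.MP5c57f5

open Finset

section field

variable {K : Type*} [Field K]

/-- the harmonic number `1 + 1/2 + ... + 1/k` -/
noncomputable def HK (K : Type*) [Field K] (k : ℕ) : K := ∑ i ∈ range k, (((i + 1 : ℕ) : K))⁻¹

theorem HK_zero : HK K 0 = 0 := by
  unfold HK
  rw [range_zero, sum_empty]

theorem HK_succ (k : ℕ) : HK K (k + 1) = HK K k + (((k + 1 : ℕ) : K))⁻¹ := by
  unfold HK
  rw [sum_range_succ]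

theorem HK_add (a L : ℕ) : HK K (a + L) = HK K a + ∑ i ∈ range L, (((a + 1 + i : ℕ) : K))⁻¹ := by
  unfold HK
  rw [sum_range_add]
  congr 1
  apply sum_congr rfl
  intro i _
  congr 2
  ring

/-- `sum_{i<M} C(N+i,N)/(M-i) = C(N+M,N) (H_{N+M} - H_N)` -/
theorem choose_harm (B : ℕ) (hB : ∀ k, 1 ≤ k → k ≤ B → (k : K) ≠ 0) :
    ∀ s N M : ℕ, N + M = s → N + M ≤ B →
      ∑ i ∈ range M, ((N + i).choose N : K) * (((M - i : ℕ) : K))⁻¹
        = ((N + M).choose N : K) * (HK K (N + M) - HK K N) := by
  intro s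
  induction s with
  | zero =>
    intro N M h _
    have h1 : N = 0 := by omega
    have h2 : M = 0 := by omega
    subst h1
    subst h2
    simp
  | succ s ih =>
    intro N M h hle
    rcases M with _ | M
    · simp
    rcases N with _ | N
    · -- N = 0
      have e : ∑ i ∈ range (M + 1), ((0 + i).choose 0 : K) * (((M + 1 - i : ℕ) : K))⁻¹
          = HK K (M + 1) := by
        unfold HK
        rw [← sum_range_reflect]
        apply sum_congr rfl
        intro i hi
        rw [mem_range] at hi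
        rw [Nat.choose_zero_right, Nat.cast_one, one_mul]
        congr 2
        omega
      rw [e, HK_zero, Nat.choose_zero_right, Nat.cast_one, one_mul, sub_zero, zero_add]
    · have h1 := ih (N + 1) M (by omega) (by omega)
      have h2 := ih N (M + 1) (by omega) (by omega)
      have e : ∑ i ∈ range (M + 1), ((N + 1 + i).choose (N + 1) : K) * (((M + 1 - i : ℕ) : K))⁻¹
          = ∑ i ∈ range M, ((N + 1 + i).choose (N + 1) : K) * (((M - i : ℕ) : K))⁻¹
            + ∑ i ∈ range (M + 1), ((N + i).choose N : K) * (((M + 1 - i : ℕ) : K))⁻¹ := by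
        have e1 : ∀ i, ((N + 1 + i).choose (N + 1) : K)
            = ((N + i).choose N : K) + ((N + i).choose (N + 1) : K) := by
          intro i
          rw [show N + 1 + i = (N + i) + 1 by ring, Nat.choose_succ_succ]
          push_cast
          rfl
        rw [sum_congr rfl fun i _ => by rw [e1 i, add_mul], sum_add_distrib, add_comm]
        congr 1
        rw [sum_range_succ']
        rw [show (N + 0).choose (N + 1) = 0 from Nat.choose_eq_zero_of_lt (by omega)]
        rw [Nat.cast_zero, zero_mul, add_zero]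
        apply sum_congr rfl
        intro i _
        rw [show N + (i + 1) = N + 1 + i by ring, show M + 1 - (i + 1) = M - i by omega]
      rw [e, h1, h2]
      have hN : ((N + 1 : ℕ) : K) ≠ 0 := hB _ (by omega) (by omega)
      have hNM : ((N + 1 + M + 1 : ℕ) : K) ≠ 0 := hB _ (by omega) (by omega)
      have e3 : HK K (N + 1 + (M + 1)) = HK K (N + 1 + M) + (((N + 1 + M + 1 : ℕ) : K))⁻¹ := by
        rw [show N + 1 + (M + 1) = (N + 1 + M) + 1 by ring, HK_succ]
      have e4 : HK K (N + 1) = HK K N + (((N + 1 : ℕ) : K))⁻¹ := HK_succ N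
      have e5 : N + (M + 1) = N + 1 + M := by ring
      have e6 : ((N + 1 + (M + 1)).choose (N + 1) : K)
          = ((N + 1 + M).choose N : K) + ((N + 1 + M).choose (N + 1) : K) := by
        rw [show N + 1 + (M + 1) = (N + 1 + M) + 1 by ring, Nat.choose_succ_succ]
        push_cast
        rfl
      have e7 : ((N + 1 + (M + 1)).choose (N + 1) : K) * ((N + 1 : ℕ) : K)
          = ((N + 1 + M + 1 : ℕ) : K) * ((N + 1 + M).choose N : K) := by
        have := Nat.add_one_mul_choose_eq (N + 1 + M) N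
        have h8 : (N + 1 + (M + 1)).choose (N + 1) * (N + 1)
            = (N + 1 + M + 1) * (N + 1 + M).choose N := by
          rw [show N + 1 + (M + 1) = N + 1 + M + 1 by ring]
          exact this.symm
        have h9 := congrArg (Nat.cast : ℕ → K) h8
        rw [Nat.cast_mul, Nat.cast_mul] at h9
        exact h9
      rw [e5, e3, e4]
      rw [e6] at e7 ⊢
      field_simp
      linear_combination (-1 : K) * e7
      
end field

section prime

variable (p : ℕ) [hp : Fact p.Prime]

theorem cast_ne (k : ℕ) (h1 : 1 ≤ k) (h2 : k < p) : (k : ZMod p) ≠ 0 := by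
  intro h
  rw [ZMod.natCast_eq_zero_iff] at h
  have := Nat.le_of_dvd (by omega) h
  omega

/-- a symmetric sum of inverses is zero -/
theorem inv_sum_zero (a L : ℕ) (h : 2 * a + L = p + 1) (h2 : 2 < p) :
    ∑ i ∈ range L, (((a + i : ℕ) : ZMod p))⁻¹ = 0 := by
  have e : ∑ i ∈ range L, (((a + i : ℕ) : ZMod p))⁻¹
      = -∑ i ∈ range L, (((a + i : ℕ) : ZMod p))⁻¹ := by
    conv_lhs => rw [← sum_range_reflect]
    rw [← sum_neg_distrib]
    apply sum_congr rfl
    intro i hi
    rw [mem_range] at hi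
    have e1 : ((a + (L - 1 - i) : ℕ) : ZMod p) = -((a + i : ℕ) : ZMod p) := by
      rw [eq_neg_iff_add_eq_zero, ← Nat.cast_add, show a + (L - 1 - i) + (a + i) = p by omega]
      exact ZMod.natCast_self p
    rw [e1, inv_neg]
  have h3 : (2 : ZMod p) ≠ 0 := by
    have := cast_ne p 2 (by norm_num) h2
    exact_mod_cast this
  have h4 : (2 : ZMod p) * ∑ i ∈ range L, (((a + i : ℕ) : ZMod p))⁻¹ = 0 := by
    linear_combination e
  exact (mul_eq_zero.mp h4).resolve_left h3

theorem HK_two_m (m : ℕ) (hm : 3 * m + 1 = p) (h0 : 0 < m) :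
    HK (ZMod p) (2 * m) = HK (ZMod p) m := by
  rw [show 2 * m = m + m by ring, HK_add, inv_sum_zero p (m + 1) m (by omega) (by omega), add_zero]

/-- `(-1)^i C(2m,i) = C(m+i,i)` modulo `p = 3 m + 1` -/
theorem choose_neg (m : ℕ) (hm : 3 * m + 1 = p) : ∀ i : ℕ, i ≤ 2 * m →
    (-1 : ZMod p) ^ i * ((2 * m).choose i : ZMod p) = ((m + i).choose m : ZMod p) := by
  intro i
  induction i with
  | zero => intro _; simp
  | succ i ih =>
    intro hi
    have h1 := ih (by omega)
    have hne : ((i + 1 : ℕ) : ZMod p) ≠ 0 := cast_ne p _ (by omega) (by omega)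
    apply mul_right_cancel₀ hne
    -- C(2m,i+1)(i+1) = C(2m,i)(2m-i)
    have h2 : (((2 * m).choose (i + 1) : ℕ) : ZMod p) * ((i + 1 : ℕ) : ZMod p)
        = ((2 * m).choose i : ZMod p) * ((2 * m - i : ℕ) : ZMod p) := by
      have := Nat.choose_succ_right_eq (2 * m) i
      exact_mod_cast congrArg (fun x : ℕ => (x : ZMod p)) this
    -- C(m+i+1,m)(i+1) = C(m+i,m)(m+i+1)
    have h3 : (((m + (i + 1)).choose m : ℕ) : ZMod p) * ((i + 1 : ℕ) : ZMod p)
        = ((m + i).choose m : ZMod p) * ((m + i + 1 : ℕ) : ZMod p) := by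
      have h4 : (m + (i + 1)).choose m * (i + 1) = (m + i).choose m * (m + i + 1) := by
        have := Nat.add_one_mul_choose_eq (m + i) i
        rw [Nat.choose_symm_add (a := m) (b := i + 1), show m + (i + 1) = m + i + 1 by ring,
          ← this, Nat.choose_symm_add (a := m) (b := i)]
        ring
      exact_mod_cast congrArg (fun x : ℕ => (x : ZMod p)) h4
    have h5 : ((2 * m - i : ℕ) : ZMod p) = -((m + i + 1 : ℕ) : ZMod p) := by
      rw [eq_neg_iff_add_eq_zero, ← Nat.cast_add, show 2 * m - i + (m + i + 1) = p by omega]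
      exact ZMod.natCast_self p
    rw [h3, mul_assoc, h2, ← h1, h5]
    ring

/-- row S1 -/
theorem s_one (m : ℕ) (hm : 3 * m + 1 = p) (h0 : 0 < m) :
    ∑ i ∈ range m, (-1) ^ i * ((2 * m).choose i : ZMod p) * (((m - i : ℕ) : ZMod p))⁻¹ = 0 := by
  have e : ∑ i ∈ range m, (-1) ^ i * ((2 * m).choose i : ZMod p) * (((m - i : ℕ) : ZMod p))⁻¹
      = ∑ i ∈ range m, ((m + i).choose m : ZMod p) * (((m - i : ℕ) : ZMod p))⁻¹ := by
    apply sum_congr rfl
    intro i hi
    rw [mem_range] at hi
    rw [choose_neg p m hm i (by omega)]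
  rw [e, choose_harm (2 * m) (fun k h1 h2 => cast_ne p k h1 (by omega)) (m + m) m m rfl (by omega)]
  rw [show m + m = 2 * m by ring, HK_two_m p m hm h0, sub_self, mul_zero]

end prime

end Pool.Agent.MP5c57f5
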