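import Mathlib
import Pool.Agent.Lib.MP_5c57f5_nt.SOne

/-!
MP_5c57f5_nt, row SIG.
-/

namespace Pool.Agent.MP5c57f5

open Finset

section field

variable {K : Type*} [Field K]

/-- the sum `sum_{j ≠ m} (-1)^j C(n,j) / (j - m)` -/
noncomputable def TK (K : Type*) [Field K] (n m : ℕ) : K :=
  ∑ j ∈ range (n + 1), (if j = m then 0 else (-1) ^ j * (n.choose j : K) * ((j : K) - (m : K))⁻¹)

/-- the second part in Pascal's rule -/
noncomputable def SKs (K : Type*) [Field K] (n m : ℕ) : K :=
  ∑ i ∈ range (n + 1), (if i + 1 = m then 0 else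
    (-1) ^ (i + 1) * (n.choose i : K) * (((i + 1 : ℕ) : K) - (m : K))⁻¹)

theorem TK_succ (n m : ℕ) : TK K (n + 1) m = TK K n m + SKs K n m := by
  have h1 : TK K n m = ∑ j ∈ range (n + 1 + 1), (if j = m then 0 else
      (-1) ^ j * (n.choose j : K) * ((j : K) - (m : K))⁻¹) := by
    rw [sum_range_succ, Nat.choose_succ_self, Nat.cast_zero, mul_zero, zero_mul, ite_self,
      add_zero]
    rfl
  rw [h1]
  unfold TK SKs
  rw [sum_range_succ', sum_range_succ' (fun j => if j = m then 0 else
      (-1) ^ j * (n.choose j : K) * ((j : K) - (m : K))⁻¹), add_right_comm, ← sum_add_distrib]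
  congr 1
  · apply sum_congr rfl
    intro i _
    split_ifs with h
    · rw [add_zero]
    · rw [Nat.choose_succ_succ]
      push_cast
      ring
  · rw [Nat.choose_zero_right, Nat.choose_zero_right]

theorem SKs_succ (n m : ℕ) : SKs K n (m + 1) = - TK K n m := by
  unfold SKs TK
  rw [← sum_neg_distrib]
  apply sum_congr rfl
  intro i _
  by_cases h : i = m
  · rw [if_pos (by rw [h]), if_pos h, neg_zero]
  · rw [if_neg (fun h1 => h (by omega)), if_neg h]
    have e : (((i + 1 : ℕ) : K) - ((m + 1 : ℕ) : K)) = (i : K) - (m : K) := by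
      push_cast
      ring
    rw [e, pow_succ]
    ring

theorem SKs_zero (n : ℕ) (hn : ∀ k, 1 ≤ k → k ≤ n + 1 → (k : K) ≠ 0) :
    SKs K n 0 = - (((n + 1 : ℕ) : K))⁻¹ := by
  have h1 : ∀ i ∈ range (n + 1), (if i + 1 = 0 then 0 else
      (-1) ^ (i + 1) * (n.choose i : K) * (((i + 1 : ℕ) : K) - ((0 : ℕ) : K))⁻¹)
      = ((-1) ^ (i + 1) * ((n + 1).choose (i + 1) : K)) * (((n + 1 : ℕ) : K))⁻¹ := by
    intro i hi
    rw [mem_range] at hi
    have a1 : ((i + 1 : ℕ) : K) ≠ 0 := hn _ (by omega) (by omega)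
    have a2 : ((n + 1 : ℕ) : K) ≠ 0 := hn _ (by omega) (by omega)
    have a3 := congrArg (Nat.cast : ℕ → K) (Nat.add_one_mul_choose_eq n i)
    rw [Nat.cast_mul, Nat.cast_mul] at a3
    rw [if_neg (Nat.succ_ne_zero i), Nat.cast_zero, sub_zero]
    field_simp
    linear_combination a3
  unfold SKs
  rw [sum_congr rfl h1, ← sum_mul]
  have h2 : ∑ i ∈ range (n + 1), (-1 : K) ^ (i + 1) * ((n + 1).choose (i + 1) : K) = -1 := by
    have h3 := Int.alternating_sum_range_choose (n := n + 1)
    rw [if_neg (Nat.succ_ne_zero n)] at h3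
    have h4 := congrArg (Int.cast : ℤ → K) h3
    rw [sum_range_succ'] at h4
    push_cast at h4
    simp only [Nat.choose_zero_right, Nat.cast_one, mul_one] at h4
    linear_combination h4
  rw [h2]
  ring

theorem TK_symm (n m : ℕ) (hm : m ≤ n) : TK K n (n - m) = - ((-1) ^ n * TK K n m) := by
  unfold TK
  rw [← sum_range_reflect, mul_sum, ← sum_neg_distrib]
  apply sum_congr rfl
  intro i hi
  rw [mem_range] at hi
  have e0 : n + 1 - 1 - i = n - i := by omega
  rw [e0]
  by_cases h : i = m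
  · rw [if_pos (by rw [h]), if_pos h, mul_zero, neg_zero]
  · rw [if_neg (fun h1 => h (by omega)), if_neg h, Nat.choose_symm (by omega : i ≤ n)]
    have e1 : ((n - i : ℕ) : K) - ((n - m : ℕ) : K) = -((i : K) - (m : K)) := by
      rw [Nat.cast_sub (by omega : i ≤ n), Nat.cast_sub hm]
      ring
    have e2 : (-1 : K) ^ (n - i) = (-1) ^ n * (-1) ^ i := by
      have h5 : (-1 : K) ^ n = (-1) ^ (n - i) * (-1) ^ i := by
        rw [← pow_add]
        congr 1
        omega
      rw [h5, mul_assoc, ← pow_add, ← two_mul, Even.neg_one_pow (even_two_mul i), mul_one]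
    rw [e1, e2, inv_neg]
    ring

theorem TK_zero (B : ℕ) (hB : ∀ k, 1 ≤ k → k ≤ B → (k : K) ≠ 0) :
    ∀ n, n ≤ B → TK K n 0 = - HK K n := by
  intro n
  induction n with
  | zero =>
    intro _
    rw [HK_zero]
    unfold TK
    simp
  | succ n ih =>
    intro hn
    rw [TK_succ, ih (by omega), SKs_zero n fun k h1 h2 => hB k h1 (by omega), HK_succ]
    ring

/-- `sum_{j ≠ m} (-1)^j C(n,j)/(j-m) = (-1)^m C(n,m) (H_m - H_{n-m})` -/
theorem TK_eq (B : ℕ) (hB : ∀ k, 1 ≤ k → k ≤ B → (k : K) ≠ 0) :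
    ∀ n, n ≤ B → ∀ m, m ≤ n →
      TK K n m = (-1) ^ m * (n.choose m : K) * (HK K m - HK K (n - m)) := by
  intro n
  induction n with
  | zero =>
    intro _ m hm
    obtain rfl : m = 0 := by omega
    rw [TK_zero B hB 0 (Nat.zero_le _)]
    simp [HK_zero]
  | succ n ih =>
    intro hn m hm
    rcases m with _ | m
    · rw [TK_zero B hB (n + 1) hn, HK_zero, Nat.choose_zero_right, Nat.sub_zero]
      simp
    rcases Nat.lt_or_ge m n with h | h
    · have h1 := ih (by omega) (m + 1) (by omega)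
      have h2 := ih (by omega) m (by omega)
      rw [TK_succ, SKs_succ, h1, h2]
      have a1 : ((m + 1 : ℕ) : K) ≠ 0 := hB _ (by omega) (by omega)
      have a2 : ((n - m : ℕ) : K) ≠ 0 := hB _ (by omega) (by omega)
      have e1 : HK K (n - m) = HK K (n - (m + 1)) + (((n - m : ℕ) : K))⁻¹ := by
        rw [show n - m = n - (m + 1) + 1 by omega, HK_succ]
      have e2 : n + 1 - (m + 1) = n - m := by omega
      have e3 : (n.choose (m + 1) : K) * ((m + 1 : ℕ) : K) = (n.choose m : K) * ((n - m : ℕ) : K) := by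
        have h9 := congrArg (Nat.cast : ℕ → K) (Nat.choose_succ_right_eq n m)
        rw [Nat.cast_mul, Nat.cast_mul] at h9
        exact h9
      have e4 : ((n + 1).choose (m + 1) : K) = (n.choose m : K) + (n.choose (m + 1) : K) := by
        rw [Nat.choose_succ_succ]
        push_cast
        rfl
      rw [e2, e4, HK_succ, e1, pow_succ]
      field_simp
      linear_combination (-1 : K) * e3
    · obtain rfl : m = n := by omega
      have h1 := TK_symm (K := K) (m + 1) 0 (Nat.zero_le _)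
      rw [Nat.sub_zero] at h1
      rw [h1, TK_zero B hB (m + 1) hn, Nat.choose_self, Nat.sub_self, HK_zero]
      simp

end field

section prime

variable (p : ℕ) [hp : Fact p.Prime]

theorem HK_pred (h2 : 2 < p) : HK (ZMod p) (p - 1) = 0 := by
  have h := inv_sum_zero p 1 (p - 1) (by omega) h2
  unfold HK
  rw [← h]
  apply sum_congr rfl
  intro i _
  rw [add_comm i 1]

/-- `H_(p-1) = 2 sum of the even terms + alternating sum` -/
theorem alt_sum (n : ℕ) (hn : 2 * n + 1 = p) (h2 : 2 < p) :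
    ∑ i ∈ range (2 * n), (-1) ^ i * (((i + 1 : ℕ) : ZMod p))⁻¹ = - HK (ZMod p) n := by
  have h3 : (2 : ZMod p) ≠ 0 := by
    have := cast_ne p 2 (by norm_num) h2
    exact_mod_cast this
  have key : ∀ k : ℕ, k ≤ n → ∑ i ∈ range (2 * k), (-1) ^ i * (((i + 1 : ℕ) : ZMod p))⁻¹
      = HK (ZMod p) (2 * k) - HK (ZMod p) k := by
    intro k
    induction k with
    | zero => intro _; simp [HK_zero]
    | succ k ih =>
      intro hk
      have a1 : ((k + 1 : ℕ) : ZMod p) ≠ 0 := cast_ne p _ (by omega) (by omega)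
      have e1 : 2 * (k + 1) = 2 * k + 1 + 1 := by ring
      have e2 : (((2 * k + 1 + 1 : ℕ) : ZMod p)) = 2 * ((k + 1 : ℕ) : ZMod p) := by
        push_cast
        ring
      rw [e1, sum_range_succ, sum_range_succ, ih (by omega), HK_succ, HK_succ, HK_succ, e2, pow_succ,
        Even.neg_one_pow (even_two_mul k)]
      field_simp
      ring
  have h4 := key n le_rfl
  rw [show HK (ZMod p) (2 * n) = 0 by rw [show 2 * n = p - 1 by omega]; exact HK_pred p h2] at h4
  rw [h4]
  ring

/-- the quotient of Fermat -/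
theorem fermat_quot (n : ℕ) (hn : 2 * n + 1 = p) (h2 : 2 < p) (d : ℤ)
    (hd : (4 : ℤ) ^ (p - 1) - 1 = p * d) : (d : ZMod p) = - HK (ZMod p) n := by
  have hp0 : (p : ℤ) ≠ 0 := by exact_mod_cast hp.out.ne_zero
  -- the binomial coefficients
  have h3 : ∀ i ∈ range (p - 1), ∃ c : ℕ, p.choose (i + 1) = p * c ∧
      (c : ZMod p) = (-1) ^ i * (((i + 1 : ℕ) : ZMod p))⁻¹ := by
    intro i hi
    rw [mem_range] at hi
    obtain ⟨c, hc⟩ := hp.out.dvd_choose_self (k := i + 1) (by omega) (by omega)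
    refine ⟨c, hc, ?_⟩
    have a1 : ((i + 1 : ℕ) : ZMod p) ≠ 0 := cast_ne p _ (by omega) (by omega)
    have h4 := Nat.add_one_mul_choose_eq (p - 1) i
    rw [show p - 1 + 1 = p by omega, hc] at h4
    have h5 : (p - 1).choose i = c * (i + 1) := by
      have h6 : p * (p - 1).choose i = p * (c * (i + 1)) := by rw [h4]; ring
      exact Nat.eq_of_mul_eq_mul_left hp.out.pos h6
    have h6 : ((p - 1).choose i : ZMod p) = (-1) ^ i := by
      have h7 : ∀ k : ℕ, k ≤ p - 1 → ((p - 1).choose k : ZMod p) = (-1) ^ k := by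
        intro k
        induction k with
        | zero => intro _; simp
        | succ k ih =>
          intro hk
          have h8 : ((p.choose (k + 1) : ℕ) : ZMod p) = 0 := by
            rw [ZMod.natCast_eq_zero_iff]
            exact hp.out.dvd_choose_self (by omega) (by omega)
          have h9 : p.choose (k + 1) = (p - 1).choose k + (p - 1).choose (k + 1) := by
            conv_lhs => rw [show p = p - 1 + 1 by omega]
            rw [Nat.choose_succ_succ]
          rw [h9, Nat.cast_add, ih (by omega)] at h8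
          rw [pow_succ]
          linear_combination h8
      exact h7 i (by omega)
    rw [h5, Nat.cast_mul] at h6
    field_simp
    exact h6
  choose! c hc1 hc2 using h3
  have h4 : (2 : ℤ) ^ p - 2 = p * ∑ i ∈ range (p - 1), (c i : ℤ) := by
    have h5 := Nat.sum_range_choose p
    have h6 : (∑ i ∈ range (p - 1), p.choose (i + 1)) + 2 = 2 ^ p := by
      rw [← h5, sum_range_succ', Nat.choose_zero_right]
      conv_rhs => rw [show p = p - 1 + 1 by omega]
      rw [sum_range_succ, show p - 1 + 1 = p by omega, Nat.choose_self]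
    have h7 : (∑ i ∈ range (p - 1), p.choose (i + 1)) = p * ∑ i ∈ range (p - 1), c i := by
      rw [mul_sum]
      exact sum_congr rfl hc1
    rw [h7] at h6
    have h8 : ((p * ∑ i ∈ range (p - 1), c i + 2 : ℕ) : ℤ) = ((2 ^ p : ℕ) : ℤ) := by rw [h6]
    push_cast at h8
    linear_combination (-1 : ℤ) * h8
  have h5 : 4 * d = (∑ i ∈ range (p - 1), (c i : ℤ)) * (2 ^ p + 2) := by
    apply mul_left_cancel₀ hp0
    have h6 : (4 : ℤ) ^ p = 4 * 4 ^ (p - 1) := by
      conv_lhs => rw [show p = p - 1 + 1 by omega]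
      rw [pow_succ]
      ring
    have h7 : (4 : ℤ) ^ p = 2 ^ p * 2 ^ p := by
      rw [← mul_pow]
      norm_num
    linear_combination (-4 : ℤ) * hd - h6 + h7 + (2 ^ p + 2) * h4
  have h6 := congrArg (Int.cast : ℤ → ZMod p) h5
  push_cast at h6
  have h7 : (2 : ZMod p) ^ p = 2 := ZMod.pow_card 2
  have h8 : (4 : ZMod p) ≠ 0 := by
    have h9 : (2 : ZMod p) ≠ 0 := by
      have := cast_ne p 2 (by norm_num) h2
      exact_mod_cast this
    rw [show (4 : ZMod p) = 2 * 2 by norm_num]
    exact mul_ne_zero h9 h9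
  rw [h7, show (2 : ZMod p) + 2 = 4 by norm_num, mul_comm] at h6
  have h9 := mul_right_cancel₀ h8 h6
  rw [h9, ← alt_sum p n hn h2, show 2 * n = p - 1 by omega]
  exact sum_congr rfl hc2

theorem harm_half (n m : ℕ) (hn : 2 * n + 1 = p) (hm : 3 * m + 1 = p) (h0 : 0 < m) :
    HK (ZMod p) m - HK (ZMod p) (n - m) = - HK (ZMod p) n := by
  have h2 : 2 < p := by omega
  have h3 : (2 : ZMod p) ≠ 0 := by
    have := cast_ne p 2 (by norm_num) h2
    exact_mod_cast this
  obtain ⟨k, hk⟩ : ∃ k, m = 2 * k := ⟨m / 2, by omega⟩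
  have hk2 : n - m = k := by omega
  -- odd and even terms
  have key : ∀ l : ℕ, l ≤ k → 2 * HK (ZMod p) (2 * l)
      = HK (ZMod p) l + HK (ZMod p) (n + l) - HK (ZMod p) n := by
    intro l
    induction l with
    | zero => intro _; simp [HK_zero]
    | succ l ih =>
      intro hl
      have a1 : ((l + 1 : ℕ) : ZMod p) ≠ 0 := cast_ne p _ (by omega) (by omega)
      have a2 : ((n + l + 1 : ℕ) : ZMod p) ≠ 0 := cast_ne p _ (by omega) (by omega)
      have e1 : 2 * (l + 1) = 2 * l + 1 + 1 := by ring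
      have e2 : (((2 * l + 1 + 1 : ℕ) : ZMod p)) = 2 * ((l + 1 : ℕ) : ZMod p) := by
        push_cast
        ring
      have e3 : (((2 * l + 1 : ℕ) : ZMod p)) = 2 * ((n + l + 1 : ℕ) : ZMod p) := by
        have h5 : (((2 * l + 1 + p : ℕ) : ZMod p)) = 2 * ((n + l + 1 : ℕ) : ZMod p) := by
          rw [show 2 * l + 1 + p = 2 * (n + l + 1) by omega, Nat.cast_mul]
          rfl
        rw [← h5, Nat.cast_add _ p, ZMod.natCast_self, add_zero]
      have h6 := ih (by omega)
      rw [e1, show n + (l + 1) = n + l + 1 by ring, HK_succ, HK_succ, HK_succ, HK_succ, e2, e3]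
      rw [mul_inv, mul_inv]
      have h7 : (2 : ZMod p) * 2⁻¹ = 1 := mul_inv_cancel₀ h3
      linear_combination h6 + ((((n + l + 1 : ℕ) : ZMod p))⁻¹ + (((l + 1 : ℕ) : ZMod p))⁻¹) * h7
  have h4 := key k le_rfl
  have h5 := HK_two_m p m hm h0
  rw [← hk, show n + k = 2 * m by omega, h5] at h4
  rw [hk2]
  linear_combination h4

/-- row SIG -/
theorem sigma_zero (n m : ℕ) (hn : 2 * n + 1 = p) (hm : 3 * m + 1 = p)
    (h0 : 0 < m) (d : ℤ) (hd : (4 : ℤ) ^ (p - 1) - 1 = p * d) :
    3 * ∑ j ∈ range (n + 1), (if j = m then 0 else (-1) ^ j * (n.choose j : ZMod p)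
      * (((3 * j + 1 : ℕ) : ZMod p))⁻¹) = (n.choose m : ZMod p) * d := by
  have h2 : 2 < p := by omega
  have h3 : (3 : ZMod p) ≠ 0 := by
    have := cast_ne p 3 (by norm_num) (by omega)
    exact_mod_cast this
  have e : 3 * ∑ j ∈ range (n + 1), (if j = m then 0 else (-1) ^ j * (n.choose j : ZMod p)
      * (((3 * j + 1 : ℕ) : ZMod p))⁻¹) = TK (ZMod p) n m := by
    unfold TK
    rw [mul_sum]
    apply sum_congr rfl
    intro j _
    split_ifs with h
    · rw [mul_zero]
    · have e1 : ((3 * j + 1 : ℕ) : ZMod p) = 3 * ((j : ZMod p) - (m : ZMod p)) := by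
        have h5 : ((3 * m + 1 : ℕ) : ZMod p) = 0 := by
          rw [hm]
          exact ZMod.natCast_self p
        push_cast at h5 ⊢
        linear_combination h5
      rw [e1, mul_inv]
      have h7 : (3 : ZMod p) * 3⁻¹ = 1 := mul_inv_cancel₀ h3
      linear_combination ((-1) ^ j * (n.choose j : ZMod p) * ((j : ZMod p) - (m : ZMod p))⁻¹) * h7
  rw [e, TK_eq n (fun k h1 h2 => cast_ne p k h1 (by omega)) n le_rfl m (by omega),
    harm_half p n m hn hm h0, fermat_quot p n hn h2 d hd]
  have hev : Even m := by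
    rw [Nat.even_iff]
    omega
  rw [hev.neg_one_pow, one_mul]

end prime

end Pool.Agent.MP5c57f5
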