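import Mathlib
import Pool.Agent.Lib.MP_5c57f5_nt.Sig

/-!
MP_5c57f5_nt, row JAC, part A: Teichmüller lifts modulo `p^2`.
-/

namespace Pool.Agent.MP5c57f5

open Finset

section

variable (p : ℕ) [hp : Fact p.Prime]

/-- the reduction -/
def rd : ZMod (p ^ 2) →+* ZMod p := ZMod.castHom (dvd_pow_self p two_ne_zero) (ZMod p)

instance neZero_sq : NeZero (p ^ 2) := ⟨pow_ne_zero 2 hp.out.ne_zero⟩

theorem rd_nat (n : ℕ) : rd p (n : ZMod (p ^ 2)) = (n : ZMod p) := map_natCast _ n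

theorem rd_int (n : ℤ) : rd p (n : ZMod (p ^ 2)) = (n : ZMod p) := map_intCast _ n

omit hp in
theorem p_sq2 : (p : ZMod (p ^ 2)) ^ 2 = 0 := by
  rw [← Nat.cast_pow]
  exact ZMod.natCast_self _

omit hp in
theorem p_sq : (p : ZMod (p ^ 2)) * (p : ZMod (p ^ 2)) = 0 := by
  rw [← pow_two]
  exact p_sq2 p

theorem dvd_of_rd (a : ZMod (p ^ 2)) (h : rd p a = 0) : (p : ZMod (p ^ 2)) ∣ a := by
  have h1 : a = ((a.val : ℕ) : ZMod (p ^ 2)) := (ZMod.natCast_zmod_val a).symm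
  rw [h1, rd_nat, ZMod.natCast_eq_zero_iff] at h
  rw [h1]
  exact Nat.cast_dvd_cast h

theorem p_mul_zero (y : ℤ) (h : (y : ZMod p) = 0) :
    (p : ZMod (p ^ 2)) * (y : ZMod (p ^ 2)) = 0 := by
  obtain ⟨z, hz⟩ := dvd_of_rd p (y : ZMod (p ^ 2)) (by rw [rd_int, h])
  rw [hz, ← mul_assoc, p_sq, zero_mul]

theorem pow_eq_of_rd (a b : ZMod (p ^ 2)) (h : rd p a = rd p b) : a ^ p = b ^ p := by
  have h1 : (p : ZMod (p ^ 2)) ∣ a - b := dvd_of_rd p _ (by rw [map_sub, h, sub_self])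
  have h2 := dvd_sub_pow_of_dvd_sub h1 1
  rw [pow_one, one_add_one_eq_two, p_sq2, zero_dvd_iff, sub_eq_zero] at h2
  exact h2

theorem unit_of_rd (a : ZMod (p ^ 2)) (h : rd p a ≠ 0) : IsUnit a := by
  have h1 : a = ((a.val : ℕ) : ZMod (p ^ 2)) := (ZMod.natCast_zmod_val a).symm
  rw [h1, rd_nat, Ne, ZMod.natCast_eq_zero_iff] at h
  rw [h1, ZMod.isUnit_iff_coprime]
  exact Nat.Coprime.pow_right 2 ((Nat.Prime.coprime_iff_not_dvd hp.out).mpr h).symm

/-- the lift -/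
def ta (x : ZMod p) : ZMod (p ^ 2) := ((x.val : ℕ) : ZMod (p ^ 2)) ^ p

theorem ta_of (a : ZMod (p ^ 2)) (x : ZMod p) (h : rd p a = x) : a ^ p = ta p x := by
  apply pow_eq_of_rd
  rw [h, rd_nat, ZMod.natCast_zmod_val]

theorem rd_ta (x : ZMod p) : rd p (ta p x) = x := by
  unfold ta
  rw [map_pow, rd_nat, ZMod.natCast_zmod_val, ZMod.pow_card]

theorem ta_mul (x y : ZMod p) : ta p (x * y) = ta p x * ta p y := by
  rw [← ta_of p (ta p x * ta p y) (x * y) (by rw [map_mul, rd_ta, rd_ta]), mul_pow,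
    ta_of p (ta p x) x (rd_ta p x), ta_of p (ta p y) y (rd_ta p y)]

theorem ta_pow_p (x : ZMod p) : ta p x ^ p = ta p x := ta_of p _ x (rd_ta p x)

theorem ta_one_sub (x : ZMod p) : ta p (1 - x) = (1 - ta p x) ^ p := by
  rw [ta_of p (1 - ta p x) (1 - x) (by rw [map_sub, map_one, rd_ta])]

theorem ta_zero : ta p 0 = 0 := by
  unfold ta
  rw [ZMod.val_zero, Nat.cast_zero, zero_pow hp.out.ne_zero]

theorem ta_one : ta p 1 = 1 := by
  rw [← ta_of p 1 1 (map_one _), one_pow]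

theorem ta_pow (x : ZMod p) (k : ℕ) : ta p (x ^ k) = ta p x ^ k := by
  induction k with
  | zero => rw [pow_zero, pow_zero, ta_one]
  | succ k ih => rw [pow_succ x k, pow_succ (ta p x) k, ta_mul, ih]

theorem ta_nat (n : ℕ) : ta p (n : ZMod p) = (n : ZMod (p ^ 2)) ^ p :=
  (ta_of p _ _ (rd_nat p n)).symm

/-- the power sums -/
theorem ta_psum (k : ℕ) (hk : 0 < k) : ∑ x : ZMod p, ta p x ^ k
    = if (p - 1) ∣ k then ((p : ZMod (p ^ 2)) - 1) else 0 := by
  classical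
  split_ifs with h
  · have e : ∀ x : ZMod p, ta p x ^ k = 1 - if x = 0 then 1 else 0 := by
      intro x
      split_ifs with h3
      · rw [h3, ta_zero, zero_pow (by omega), sub_self]
      · obtain ⟨l, rfl⟩ := h
        rw [pow_mul, ← ta_pow, ZMod.pow_card_sub_one_eq_one h3, ta_one, one_pow, sub_zero]
    rw [sum_congr rfl fun x _ => e x, sum_sub_distrib]
    simp
  · obtain ⟨g, hg⟩ := IsCyclic.exists_generator (α := (ZMod p)ˣ)
    have hgk : (g : ZMod p) ^ k ≠ 1 := by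
      intro h1
      have h2 : g ^ k = 1 := by
        ext
        rw [Units.val_pow_eq_pow_val, Units.val_one]
        exact h1
      have h3 := orderOf_dvd_of_pow_eq_one h2
      rw [orderOf_eq_card_of_forall_mem_zpowers hg, Nat.card_eq_fintype_card, ZMod.card_units] at h3
      exact h h3
    have h1 : ∑ x : ZMod p, ta p x ^ k = ta p g ^ k * ∑ x : ZMod p, ta p x ^ k := by
      rw [mul_sum]
      rw [← Equiv.sum_comp (Equiv.mulLeft₀ (g : ZMod p) g.ne_zero) (fun x => ta p x ^ k)]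
      apply sum_congr rfl
      intro x _
      rw [Equiv.mulLeft₀_apply, ta_mul, mul_pow]
    have h2 : IsUnit (ta p g ^ k - 1) := by
      apply unit_of_rd
      rw [map_sub, map_pow, rd_ta, map_one]
      exact sub_ne_zero.mpr hgk
    have h3 : (ta p g ^ k - 1) * ∑ x : ZMod p, ta p x ^ k = 0 := by
      rw [sub_mul, one_mul, ← h1, sub_self]
    exact (h2.mul_right_eq_zero).mp h3

end

end Pool.Agent.MP5c57f5
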