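import Mathlib
import Pool.Agent.Lib.MP_5c57f5_nt.JacA

/-!
MP_5c57f5_nt, row JAC, part C: the sum `sum_x tau(x)^(2m) tau(1-x)^(2m)` modulo `p^2`.
-/

namespace Pool.Agent.MP5c57f5

open Finset

section

variable (p : ℕ) [hp : Fact p.Prime]

theorem choose_div (i : ℕ) (hi : i < p - 1) : ∃ c : ℤ,
    ((-1) ^ (i + 1) * (p.choose (i + 1) : ℤ) = p * c) ∧
      (c : ZMod p) = - (((i + 1 : ℕ) : ZMod p))⁻¹ := by
  obtain ⟨c, hc⟩ := hp.out.dvd_choose_self (k := i + 1) (by omega) (by omega)
  refine ⟨(-1) ^ (i + 1) * c, ?_, ?_⟩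
  · rw [hc]
    push_cast
    ring
  · have a1 : ((i + 1 : ℕ) : ZMod p) ≠ 0 := cast_ne p _ (by omega) (by omega)
    have h4 := Nat.add_one_mul_choose_eq (p - 1) i
    rw [show p - 1 + 1 = p by omega, hc] at h4
    have h5 : (p - 1).choose i = c * (i + 1) := by
      have h6 : p * (p - 1).choose i = p * (c * (i + 1)) := by rw [h4]; ring
      exact Nat.eq_of_mul_eq_mul_left hp.out.pos h6
    have h6 : ((p - 1).choose i : ZMod p) = (-1) ^ i := by
      have h7 : ∀ k : ℕ, k ≤ p - 1 → ((p - 1).choose k : ZMod p) = (-1) ^ k := by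
        intro k
        induction k with
        | zero => intro _; simp
        | succ k ih =>
          intro hk
          have h8 : ((p.choose (k + 1) : ℕ) : ZMod p) = 0 := by
            rw [ZMod.natCast_eq_zero_iff]
            exact hp.out.dvd_choose_self (by omega) (by omega)
          have h9 : p.choose (k + 1) = (p - 1).choose k + (p - 1).choose (k + 1) := by
            conv_lhs => rw [show p = p - 1 + 1 by omega]
            rw [Nat.choose_succ_succ]
          rw [h9, Nat.cast_add, ih (by omega)] at h8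
          rw [pow_succ]
          linear_combination h8
      exact h7 i (by omega)
    rw [h5, Nat.cast_mul] at h6
    have h8 : ((-1 : ZMod p) ^ i) * (-1) ^ i = 1 := by
      rw [← pow_add, ← two_mul, Even.neg_one_pow (even_two_mul i)]
    have h9 : (c : ZMod p) = (-1) ^ i * (((i + 1 : ℕ) : ZMod p))⁻¹ := by
      rw [← h6, mul_assoc, mul_inv_cancel₀ a1, mul_one]
    push_cast
    rw [pow_succ, h9]
    push_cast
    linear_combination (-(((i : ZMod p) + 1))⁻¹) * h8

omit hp in
/-- `(u + p v)^(k+1) = u^(k+1) + (k+1) p v u^k` -/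
theorem pow_add_p (u v : ZMod (p ^ 2)) (k : ℕ) :
    (u + (p : ZMod (p ^ 2)) * v) ^ (k + 1)
      = u ^ (k + 1) + ((k : ZMod (p ^ 2)) + 1) * ((p : ZMod (p ^ 2)) * v * u ^ k) := by
  have h := p_sq p
  induction k with
  | zero => simp
  | succ k ih =>
    rw [pow_succ (u + (p : ZMod (p ^ 2)) * v) (k + 1), ih]
    push_cast
    linear_combination (((k : ZMod (p ^ 2)) + 1) * v * v * u ^ k) * h

/-- the `p`-th power of `1 - t` -/
theorem one_sub_pow (c : ℕ → ℤ) (hc : ∀ i ∈ range (p - 1),
    (-1) ^ (i + 1) * (p.choose (i + 1) : ℤ) = p * c i) (h2 : 2 < p) (t : ZMod (p ^ 2))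
    (ht : t ^ p = t) : (1 - t) ^ p
      = (1 - t) + (p : ZMod (p ^ 2))
        * ∑ j ∈ range (p - 1), (c j : ZMod (p ^ 2)) * t ^ (j + 1) := by
  have hodd : Odd p := hp.out.odd_of_ne_two (by omega)
  have h1 : (1 - t) ^ p = ∑ k ∈ range (p + 1), (-1 : ZMod (p ^ 2)) ^ k * (p.choose k : ZMod (p ^ 2))
      * t ^ k := by
    rw [sub_eq_neg_add, add_pow]
    apply sum_congr rfl
    intro k _
    rw [one_pow, neg_pow]
    ring
  rw [h1, sum_range_succ, Nat.choose_self, ht, hodd.neg_one_pow]
  have h3 : ∑ k ∈ range p, (-1 : ZMod (p ^ 2)) ^ k * (p.choose k : ZMod (p ^ 2)) * t ^ k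
      = ∑ k ∈ range (p - 1), ((-1 : ZMod (p ^ 2)) ^ (k + 1) * (p.choose (k + 1) : ZMod (p ^ 2))
        * t ^ (k + 1)) + 1 := by
    conv_lhs => rw [show range p = range (p - 1 + 1) by rw [show p - 1 + 1 = p by omega]]
    rw [sum_range_succ']
    simp
  have h4 : ∑ k ∈ range (p - 1), ((-1 : ZMod (p ^ 2)) ^ (k + 1) * (p.choose (k + 1) : ZMod (p ^ 2))
        * t ^ (k + 1)) = (p : ZMod (p ^ 2))
          * ∑ j ∈ range (p - 1), (c j : ZMod (p ^ 2)) * t ^ (j + 1) := by
    rw [mul_sum]
    apply sum_congr rfl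
    intro j hj
    have h5 := congrArg (Int.cast : ℤ → ZMod (p ^ 2)) (hc j hj)
    push_cast at h5
    rw [h5]
    ring
  rw [h3, h4]
  push_cast
  ring

/-- the value of the inner sum modulo `p` -/
theorem inner_sum (m : ℕ) (hm : 3 * m + 1 = p) (h3 : 3 < p) (c : ℕ → ℤ)
    (hc : ∀ i ∈ range (p - 1), (c i : ZMod p) = - (((i + 1 : ℕ) : ZMod p))⁻¹) :
    (2 * m : ZMod p) * ∑ i ∈ range (2 * m), (-1) ^ i * ((2 * m - 1).choose i : ZMod p)
      * (c (if i < m then m - 1 - i else 4 * m - 1 - i) : ZMod p) = ((2 * m).choose m : ZMod p) := by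
  have hm0 : 0 < m := by omega
  have hev : Even m := by
    rw [Nat.even_iff]
    have := hp.out.eq_two_or_odd
    omega
  -- the two halves
  set Y : ZMod p := ∑ i ∈ range m, (-1) ^ i * ((2 * m - 1).choose i : ZMod p)
      * (((m - i : ℕ) : ZMod p))⁻¹ with hY
  have e1 : ∑ i ∈ range m, (-1) ^ i * ((2 * m - 1).choose i : ZMod p)
      * (c (if i < m then m - 1 - i else 4 * m - 1 - i) : ZMod p) = -Y := by
    rw [hY, ← sum_neg_distrib]
    apply sum_congr rfl
    intro i hi
    rw [mem_range] at hi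
    rw [if_pos hi, hc _ (mem_range.mpr (by omega)), show m - 1 - i + 1 = m - i by omega]
    ring
  have e2 : ∑ i ∈ range m, (-1) ^ (m + i) * ((2 * m - 1).choose (m + i) : ZMod p)
      * (c (if m + i < m then m - 1 - (m + i) else 4 * m - 1 - (m + i)) : ZMod p) = -Y := by
    rw [hY, ← sum_neg_distrib]
    conv_lhs => rw [← sum_range_reflect]
    apply sum_congr rfl
    intro i hi
    rw [mem_range] at hi
    rw [if_neg (by omega), hc _ (mem_range.mpr (by omega)),
      show m + (m - 1 - i) = 2 * m - 1 - i by omega,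
      show 4 * m - 1 - (2 * m - 1 - i) + 1 = 2 * m + i + 1 by omega,
      Nat.choose_symm (by omega : i ≤ 2 * m - 1)]
    have a1 : ((2 * m + i + 1 : ℕ) : ZMod p) = -((m - i : ℕ) : ZMod p) := by
      rw [eq_neg_iff_add_eq_zero, ← Nat.cast_add, show 2 * m + i + 1 + (m - i) = p by omega]
      exact ZMod.natCast_self p
    have a2 : (-1 : ZMod p) ^ (2 * m - 1 - i) = - (-1) ^ i := by
      have h5 : (-1 : ZMod p) ^ (2 * m - 1 - i) * ((-1) ^ i * (-1)) = 1 := by
        rw [← pow_succ, ← pow_add, show 2 * m - 1 - i + (i + 1) = 2 * m by omega,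
          Even.neg_one_pow (even_two_mul m)]
      have h8 : ((-1 : ZMod p) ^ i) * (-1) ^ i = 1 := by
        rw [← pow_add, ← two_mul, Even.neg_one_pow (even_two_mul i)]
      linear_combination (-(-1 : ZMod p) ^ i) * h5 - (-1 : ZMod p) ^ (2 * m - 1 - i) * h8
    rw [a1, a2, inv_neg]
    ring
  rw [show range (2 * m) = range (m + m) by rw [two_mul], sum_range_add, e1, e2]
  -- compare with row S1
  have e3 : (2 * m : ZMod p) * Y = ∑ i ∈ range m, ((-1) ^ i * ((2 * m).choose i : ZMod p)
      + m * ((-1) ^ i * ((2 * m).choose i : ZMod p) * (((m - i : ℕ) : ZMod p))⁻¹)) := by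
    rw [hY, mul_sum]
    apply sum_congr rfl
    intro i hi
    rw [mem_range] at hi
    have a1 : ((m - i : ℕ) : ZMod p) ≠ 0 := cast_ne p _ (by omega) (by omega)
    have a2 : (2 * m : ZMod p) * ((2 * m - 1).choose i : ZMod p)
        = (m + ((m - i : ℕ) : ZMod p)) * ((2 * m).choose i : ZMod p) := by
      have h5 : 2 * m * (2 * m - 1).choose i = (m + (m - i)) * (2 * m).choose i := by
        have h6 := Nat.choose_mul_succ_eq (2 * m - 1) i
        rw [show 2 * m - 1 + 1 = 2 * m by omega] at h6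
        rw [mul_comm, h6, show m + (m - i) = 2 * m - i by omega, mul_comm]
      have h7 := congrArg (Nat.cast : ℕ → ZMod p) h5
      push_cast [Nat.cast_sub (show i ≤ m by omega)] at h7 ⊢
      exact h7
    field_simp
    linear_combination a2
  have e4 : (2 * m : ZMod p) * Y = ∑ i ∈ range m, (-1) ^ i * ((2 * m).choose i : ZMod p) := by
    rw [e3, sum_add_distrib, ← mul_sum, s_one p m hm hm0, mul_zero, add_zero]
  have e5 : ∑ i ∈ range (2 * m + 1), (-1 : ZMod p) ^ i * ((2 * m).choose i : ZMod p) = 0 := by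
    have h3 := Int.alternating_sum_range_choose (n := 2 * m)
    rw [if_neg (by omega)] at h3
    have h4 := congrArg (Int.cast : ℤ → ZMod p) h3
    push_cast at h4
    exact h4
  have e6 : ∑ i ∈ range (2 * m + 1), (-1 : ZMod p) ^ i * ((2 * m).choose i : ZMod p)
      = 2 * (∑ i ∈ range m, (-1) ^ i * ((2 * m).choose i : ZMod p))
        + ((2 * m).choose m : ZMod p) := by
    rw [show 2 * m + 1 = m + (1 + m) by ring, sum_range_add, sum_range_add]
    rw [sum_range_one, add_zero, hev.neg_one_pow, one_mul]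
    have e7 : ∑ i ∈ range m, (-1 : ZMod p) ^ (m + (1 + i)) * ((2 * m).choose (m + (1 + i)) : ZMod p)
        = ∑ i ∈ range m, (-1) ^ i * ((2 * m).choose i : ZMod p) := by
      conv_lhs => rw [← sum_range_reflect]
      apply sum_congr rfl
      intro i hi
      rw [mem_range] at hi
      rw [show m + (1 + (m - 1 - i)) = 2 * m - i by omega, Nat.choose_symm (by omega : i ≤ 2 * m)]
      congr 1
      have h5 : (-1 : ZMod p) ^ (2 * m - i) * (-1) ^ i = 1 := by
        rw [← pow_add, show 2 * m - i + i = 2 * m by omega, Even.neg_one_pow (even_two_mul m)]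
      have h8 : ((-1 : ZMod p) ^ i) * (-1) ^ i = 1 := by
        rw [← pow_add, ← two_mul, Even.neg_one_pow (even_two_mul i)]
      linear_combination (-1 : ZMod p) ^ i * h5 - (-1 : ZMod p) ^ (2 * m - i) * h8
    rw [e7]
    ring
  rw [e5] at e6
  linear_combination (-2 : ZMod p) * e4 + e6

/-- the sum `J'` -/
theorem jac_choose (m : ℕ) (hm : 3 * m + 1 = p) (h3 : 3 < p) :
    ∑ x : ZMod p, ta p x ^ (2 * m) * ta p (1 - x) ^ (2 * m)
      = -(((2 * m).choose m : ℕ) : ZMod (p ^ 2)) := by
  have hm0 : 0 < m := by omega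
  have hev : Even m := by
    rw [Nat.even_iff]
    have := hp.out.eq_two_or_odd
    omega
  have hch : ∀ i, ∃ c : ℤ, i ∈ range (p - 1) →
      ((-1) ^ (i + 1) * (p.choose (i + 1) : ℤ) = p * c) ∧
      (c : ZMod p) = - (((i + 1 : ℕ) : ZMod p))⁻¹ := by
    intro i
    by_cases hi : i ∈ range (p - 1)
    · obtain ⟨c, hc⟩ := choose_div p i (mem_range.mp hi)
      exact ⟨c, fun _ => hc⟩
    · exact ⟨0, fun h => absurd h hi⟩
  choose c hc using hch
  set P : ℕ → ZMod (p ^ 2) := fun k => ∑ x : ZMod p, ta p x ^ k with hP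
  set k0 : ℕ := 2 * m - 1 with hk0
  have hk1 : k0 + 1 = 2 * m := by omega
  -- the expansion
  have h4 : ∀ x : ZMod p, ta p x ^ (2 * m) * ta p (1 - x) ^ (2 * m)
      = ∑ i ∈ range (2 * m + 1), ((-1 : ZMod (p ^ 2)) ^ i * ((2 * m).choose i : ZMod (p ^ 2)))
          * ta p x ^ (2 * m + i)
        + (2 * m : ZMod (p ^ 2)) * ∑ i ∈ range (2 * m), ∑ j ∈ range (p - 1),
          ((-1 : ZMod (p ^ 2)) ^ i * ((2 * m - 1).choose i : ZMod (p ^ 2))
            * (c j : ZMod (p ^ 2))) * ((p : ZMod (p ^ 2)) * ta p x ^ (2 * m + i + (j + 1))) := by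
    intro x
    have h5 := one_sub_pow p c (fun i hi => (hc i hi).1) (by omega) (ta p x) (ta_pow_p p x)
    rw [ta_one_sub, h5]
    have h6 := pow_add_p p (1 - ta p x)
      (∑ j ∈ range (p - 1), (c j : ZMod (p ^ 2)) * ta p x ^ (j + 1)) k0
    rw [hk1] at h6
    rw [h6]
    have h7 : ((k0 : ZMod (p ^ 2)) + 1) = 2 * m := by
      have := congrArg (Nat.cast : ℕ → ZMod (p ^ 2)) hk1
      push_cast at this
      exact this
    rw [h7, mul_add]
    have h8 : ∀ N : ℕ, (1 - ta p x) ^ N = ∑ i ∈ range (N + 1),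
        ((-1 : ZMod (p ^ 2)) ^ i * (N.choose i : ZMod (p ^ 2))) * ta p x ^ i := by
      intro N
      rw [sub_eq_neg_add, add_pow]
      apply sum_congr rfl
      intro k _
      rw [one_pow, neg_pow]
      ring
    congr 1
    · rw [h8, mul_sum]
      apply sum_congr rfl
      intro i _
      rw [pow_add]
      ring
    · rw [h8 k0, hk1, mul_left_comm]
      congr 1
      rw [mul_sum, mul_sum]
      apply sum_congr rfl
      intro i _
      rw [mul_sum, sum_mul, mul_sum]
      apply sum_congr rfl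
      intro j _
      rw [pow_add, pow_add, pow_add]
      ring
  rw [sum_congr rfl fun x _ => h4 x, sum_add_distrib, ← mul_sum]
  -- the first sum
  have h5 : ∑ x : ZMod p, ∑ i ∈ range (2 * m + 1),
      ((-1 : ZMod (p ^ 2)) ^ i * ((2 * m).choose i : ZMod (p ^ 2))) * ta p x ^ (2 * m + i)
      = ((2 * m).choose m : ZMod (p ^ 2)) * ((p : ZMod (p ^ 2)) - 1) := by
    rw [sum_comm]
    have e : ∀ i ∈ range (2 * m + 1), ∑ x : ZMod p,
        ((-1 : ZMod (p ^ 2)) ^ i * ((2 * m).choose i : ZMod (p ^ 2))) * ta p x ^ (2 * m + i)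
        = if i = m then ((2 * m).choose m : ZMod (p ^ 2)) * ((p : ZMod (p ^ 2)) - 1) else 0 := by
      intro i hi
      rw [mem_range] at hi
      rw [← mul_sum, ta_psum p (2 * m + i) (by omega)]
      by_cases him : i = m
      · rw [if_pos him, if_pos, him, hev.neg_one_pow, one_mul]
        exact ⟨1, by omega⟩
      · rw [if_neg him, if_neg, mul_zero]
        rintro ⟨l, hl⟩
        rcases l with _ | _ | l
        · omega
        · omega
        · have h9 : (p - 1) * (l + 1 + 1) = (p - 1) * l + 2 * (p - 1) := by ring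
          rw [h9] at hl
          omega
    rw [sum_congr rfl e, sum_ite_eq' (range (2 * m + 1)) m, if_pos (mem_range.mpr (by omega))]
  -- the second sum
  have h6 : ∑ x : ZMod p, ∑ i ∈ range (2 * m), ∑ j ∈ range (p - 1),
          ((-1 : ZMod (p ^ 2)) ^ i * ((2 * m - 1).choose i : ZMod (p ^ 2))
            * (c j : ZMod (p ^ 2))) * ((p : ZMod (p ^ 2)) * ta p x ^ (2 * m + i + (j + 1)))
      = - ((p : ZMod (p ^ 2)) * ∑ i ∈ range (2 * m), (-1) ^ i * ((2 * m - 1).choose i : ZMod (p ^ 2))
      * (c (if i < m then m - 1 - i else 4 * m - 1 - i) : ZMod (p ^ 2))) := by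
    rw [sum_comm, mul_sum, ← sum_neg_distrib]
    apply sum_congr rfl
    intro i hi
    rw [mem_range] at hi
    rw [sum_comm]
    have e : ∀ j ∈ range (p - 1), ∑ x : ZMod p,
          ((-1 : ZMod (p ^ 2)) ^ i * ((2 * m - 1).choose i : ZMod (p ^ 2))
            * (c j : ZMod (p ^ 2))) * ((p : ZMod (p ^ 2)) * ta p x ^ (2 * m + i + (j + 1)))
        = if j = (if i < m then m - 1 - i else 4 * m - 1 - i) then
          -((p : ZMod (p ^ 2)) * ((-1 : ZMod (p ^ 2)) ^ i * ((2 * m - 1).choose i : ZMod (p ^ 2))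
            * (c (if i < m then m - 1 - i else 4 * m - 1 - i) : ZMod (p ^ 2)))) else 0 := by
      intro j hj
      rw [mem_range] at hj
      rw [← mul_sum, ← mul_sum, ta_psum p _ (by omega)]
      by_cases hjm : j = (if i < m then m - 1 - i else 4 * m - 1 - i)
      · rw [if_pos hjm, if_pos, ← hjm]
        · linear_combination ((-1 : ZMod (p ^ 2)) ^ i * ((2 * m - 1).choose i : ZMod (p ^ 2))
            * (c j : ZMod (p ^ 2))) * p_sq p
        · by_cases him : i < m
          · rw [if_pos him] at hjm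
            exact ⟨1, by omega⟩
          · rw [if_neg him] at hjm
            exact ⟨2, by omega⟩
      · rw [if_neg hjm, if_neg, mul_zero, mul_zero]
        rintro ⟨l, hl⟩
        apply hjm
        rcases l with _ | _ | _ | l
        · omega
        · have him : i < m := by omega
          rw [if_pos him]
          omega
        · have him : ¬ i < m := by omega
          rw [if_neg him]
          omega
        · have h9 : (p - 1) * (l + 1 + 1 + 1) = (p - 1) * l + 3 * (p - 1) := by ring
          rw [h9] at hl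
          omega
    rw [sum_congr rfl e, sum_ite_eq', if_pos (mem_range.mpr (by split_ifs <;> omega))]
  rw [h5, h6]
  -- the comparison
  have h7 := p_mul_zero p (2 * m * ∑ i ∈ range (2 * m), (-1) ^ i * ((2 * m - 1).choose i : ℤ)
      * c (if i < m then m - 1 - i else 4 * m - 1 - i) - ((2 * m).choose m : ℤ)) (by
    have h8 := inner_sum p m hm h3 c (fun i hi => (hc i hi).2)
    push_cast
    rw [h8, sub_self])
  push_cast at h7
  linear_combination (-1 : ZMod (p ^ 2)) * h7

end

end Pool.Agent.MP5c57f5
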