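import Mathlib

/-!
`binom((p-1)/2, (p-1)/3) = 2x mod p` up to sign, for `p = x^2 + 3y^2` (Jacobi sums).
-/

namespace Pool.Agent.MP5c57f5

open Finset

section

variable (p : ℕ) [hp : Fact p.Prime]

lemma psum (j : ℕ) (h0 : 0 < j) (h : j < 2 * (p - 1)) :
    ∑ x : ZMod p, x ^ j = if j = p - 1 then -1 else 0 := by
  have h2 := hp.out.two_le
  rcases lt_trichotomy j (p - 1) with h1 | h1 | h1
  · rw [if_neg (by omega)]
    apply FiniteField.sum_pow_lt_card_sub_one
    rwa [ZMod.card]
  · rw [if_pos h1, h1]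
    have e : ∀ x : ZMod p, x ^ (p - 1) = 1 - if x = 0 then 1 else 0 := by
      intro x
      split_ifs with h3
      · rw [h3, zero_pow (by omega), sub_self]
      · rw [ZMod.pow_card_sub_one_eq_one h3, sub_zero]
    rw [sum_congr rfl fun x _ => e x, sum_sub_distrib]
    simp
  · rw [if_neg (by omega)]
    have e : ∀ x : ZMod p, x ^ j = x ^ (j - (p - 1)) := by
      intro x
      by_cases h3 : x = 0
      · rw [h3, zero_pow (by omega), zero_pow (by omega)]
      · conv_lhs => rw [show j = (p - 1) + (j - (p - 1)) by omega, pow_add,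
          ZMod.pow_card_sub_one_eq_one h3, one_mul]
    rw [sum_congr rfl fun x _ => e x]
    apply FiniteField.sum_pow_lt_card_sub_one
    rw [ZMod.card]
    omega

lemma bsum (a n : ℕ) (h0 : 0 < a) (hn : 2 * n + 1 = p) (h : a + n < 2 * (p - 1)) :
    ∑ x : ZMod p, x ^ a * (1 - x) ^ n
      = ∑ l ∈ range (n + 1), if a + l = p - 1 then -((-1) ^ l * (n.choose l : ZMod p)) else 0 := by
  have e : ∀ x : ZMod p, x ^ a * (1 - x) ^ n
      = ∑ l ∈ range (n + 1), ((-1) ^ l * (n.choose l : ZMod p)) * x ^ (a + l) := by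
    intro x
    rw [sub_eq_neg_add, add_pow, mul_sum]
    apply sum_congr rfl
    intro l _
    rw [one_pow, neg_pow, pow_add]
    ring
  rw [sum_congr rfl fun x _ => e x, sum_comm]
  apply sum_congr rfl
  intro l hl
  rw [mem_range] at hl
  rw [← mul_sum, psum p (a + l) (by omega) (by omega)]
  split_ifs
  · ring
  · ring

lemma bsum_one (n m : ℕ) (hn : 2 * n + 1 = p) (hm : 3 * m + 1 = p) (h0 : 0 < m) :
    ∑ x : ZMod p, x ^ m * (1 - x) ^ n = 0 := by
  rw [bsum p m n h0 hn (by omega)]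
  apply sum_eq_zero
  intro l hl
  rw [mem_range] at hl
  rw [if_neg (by omega)]

lemma bsum_two (n m : ℕ) (hn : 2 * n + 1 = p) (hm : 3 * m + 1 = p) (h0 : 0 < m) :
    ∑ x : ZMod p, x ^ (2 * m) * (1 - x) ^ n = -(n.choose m : ZMod p) := by
  rw [bsum p (2 * m) n (by omega) hn (by omega), sum_eq_single_of_mem m
    (mem_range.mpr (by omega)) (fun l _ hl => if_neg (by omega)), if_pos (by omega)]
  have hev : Even m := by
    rw [Nat.even_iff]
    omega
  rw [hev.neg_one_pow, one_mul]

/-- the class sums -/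
noncomputable def AA (m : ℕ) (z : ZMod p) (i : ℕ) : ℤ :=
  ∑ x : ZMod p, if x ^ m = z ^ i then quadraticChar (ZMod p) (1 - x) else 0

/-- the representation of `p` -/
theorem jac_sum (m : ℕ) (hm : 3 * m + 1 = p) (h3 : 3 < p) :
    ∃ a b : ℤ, (p : ℤ) = a ^ 2 + 3 * b ^ 2 ∧ (p : ℤ) ∣ ((p / 2).choose m : ℤ) + 2 * a := by
  classical
  have hn : 2 * (p / 2) + 1 = p := by
    have := hp.out.eq_two_or_odd
    omega
  set n := p / 2 with hnd
  have hm0 : 0 < m := by omega
  obtain ⟨g, hg⟩ := IsCyclic.exists_generator (α := (ZMod p)ˣ)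
  have hcard : Fintype.card (ZMod p)ˣ = 3 * m := by
    rw [ZMod.card_units]
    omega
  have hord : orderOf g = 3 * m := by
    rw [orderOf_eq_card_of_forall_mem_zpowers hg, Nat.card_eq_fintype_card, hcard]
  set z : ZMod p := (g : ZMod p) ^ m with hz
  have hz3 : z ^ 3 = 1 := by
    rw [hz, ← pow_mul, mul_comm m 3, ← Units.val_pow_eq_pow_val, ← hord, pow_orderOf_eq_one,
      Units.val_one]
  have hz1 : z ≠ 1 := by
    intro h
    have h1 : g ^ m = 1 := by
      ext
      rw [Units.val_pow_eq_pow_val, Units.val_one]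
      exact h
    have h2 := orderOf_dvd_of_pow_eq_one h1
    rw [hord] at h2
    have := Nat.le_of_dvd hm0 h2
    omega
  have hzs : z ^ 2 + z + 1 = 0 := by
    have h1 : (z - 1) * (z ^ 2 + z + 1) = 0 := by linear_combination hz3
    rcases mul_eq_zero.mp h1 with h2 | h2
    · exact absurd (sub_eq_zero.mp h2) hz1
    · exact h2
  have hz0 : z ≠ 0 := by
    intro h
    rw [h] at hz3
    norm_num at hz3
  have hz2 : z ^ 2 ≠ 1 := by
    intro h
    apply hz1
    have : z ^ 3 = z ^ 2 * z := by ring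
    rw [hz3, h, one_mul] at this
    exact this.symm
  -- the complex side
  obtain ⟨w, hw⟩ : ∃ w : ℂ, IsPrimitiveRoot w 3 :=
    ⟨_, Complex.isPrimitiveRoot_exp 3 (by norm_num)⟩
  have hw3 : w ^ 3 = 1 := hw.pow_eq_one
  have hw1 : w ≠ 1 := hw.ne_one (by norm_num)
  have hws : w ^ 2 + w + 1 = 0 := by
    have h1 : (w - 1) * (w ^ 2 + w + 1) = 0 := by linear_combination hw3
    rcases mul_eq_zero.mp h1 with h2 | h2
    · exact absurd (sub_eq_zero.mp h2) hw1
    · exact h2
  have hw0 : w ≠ 0 := by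
    intro h
    rw [h] at hw3
    norm_num at hw3
  set W : ℂˣ := Units.mk0 w hw0 with hW
  have hWr : W ∈ rootsOfUnity (Fintype.card (ZMod p)ˣ) ℂ := by
    rw [mem_rootsOfUnity, hcard, pow_mul]
    have : W ^ 3 = 1 := by
      ext
      rw [Units.val_pow_eq_pow_val, Units.val_one]
      exact hw3
    rw [this, one_pow]
  set χ : MulChar (ZMod p) ℂ := MulChar.ofRootOfUnity hWr hg with hχ
  have hχg : χ g = w := MulChar.ofRootOfUnity_spec hWr hg
  -- the classes
  have hcls : ∀ x : ZMod p, x ≠ 0 → ∃ i, i < 3 ∧ x ^ m = z ^ i ∧ χ x = w ^ i := by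
    intro x hx
    have h1 := hg (Units.mk0 x hx)
    rw [← mem_powers_iff_mem_zpowers] at h1
    obtain ⟨k, hk⟩ := h1
    have hk' : (g : ZMod p) ^ k = x := by
      have := congrArg Units.val hk
      rwa [Units.val_pow_eq_pow_val] at this
    refine ⟨k % 3, Nat.mod_lt _ (by norm_num), ?_, ?_⟩
    · rw [← hk', ← pow_mul, mul_comm k m, pow_mul, ← hz]
      conv_lhs => rw [← Nat.div_add_mod k 3, pow_add, pow_mul, hz3, one_pow, one_mul]
    · rw [← hk', map_pow, hχg]
      conv_lhs => rw [← Nat.div_add_mod k 3, pow_add, pow_mul, hw3, one_pow, one_mul]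
  have hdist : ∀ i j : ℕ, i < 3 → j < 3 → z ^ i = z ^ j → i = j := by
    intro i j hi hj h
    have h12 : z ≠ z ^ 2 := by
      intro h
      apply hz1
      have : z * z = z * 1 := by
        rw [mul_one, ← pow_two]
        exact h.symm
      exact mul_left_cancel₀ hz0 this
    interval_cases i <;> interval_cases j <;> first | rfl | (exfalso
                                                             simp only [pow_zero, pow_one] at h
                                                             first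
      | exact hz1 h.symm | exact hz1 h | exact hz2 h.symm | exact hz2 h | exact h12 h
      | exact h12 h.symm)
  have hsel : ∀ (R : Type) [AddCommMonoid R] (f : ℕ → R) (x : ZMod p) (i : ℕ), i < 3 →
      x ^ m = z ^ i → ∑ j ∈ range 3, (if x ^ m = z ^ j then f j else 0) = f i := by
    intro R _ f x i hi hx
    rw [sum_eq_single_of_mem i (mem_range.mpr hi), if_pos hx]
    intro j hj hji
    rw [if_neg]
    intro h
    rw [hx] at h
    exact hji (hdist j i (mem_range.mp hj) hi h.symm)
  have hsel0 : ∀ (R : Type) [AddCommMonoid R] (f : ℕ → R),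
      ∑ j ∈ range 3, (if (0 : ZMod p) ^ m = z ^ j then f j else 0) = 0 := by
    intro R _ f
    apply sum_eq_zero
    intro j _
    rw [if_neg]
    intro h
    rw [zero_pow (by omega)] at h
    exact pow_ne_zero j hz0 h.symm
  set qc := quadraticChar (ZMod p) with hqc
  -- sums over the field
  have hcomb : ∀ (R : Type) [CommRing R] (f : ℕ → R) (F : ZMod p → R),
      (∀ x, F x = ∑ j ∈ range 3, (if x ^ m = z ^ j then f j else 0)) →
      ∑ x : ZMod p, F x * ((qc (1 - x) : ℤ) : R) = ∑ j ∈ range 3, f j * ((AA p m z j : ℤ) : R) := by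
    intro R _ f F hF
    have e : ∀ x, F x * ((qc (1 - x) : ℤ) : R)
        = ∑ j ∈ range 3, f j * ((if x ^ m = z ^ j then qc (1 - x) else 0 : ℤ) : R) := by
      intro x
      rw [hF, sum_mul]
      apply sum_congr rfl
      intro j _
      split_ifs
      · rfl
      · simp
    rw [sum_congr rfl fun x _ => e x, sum_comm]
    apply sum_congr rfl
    intro j _
    unfold AA
    rw [← mul_sum]
    push_cast
    rfl
  have hrc : ringChar (ZMod p) ≠ 2 := by
    rw [ZMod.ringChar_zmod_n]
    omega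
  have hqp : ∀ y : ZMod p, ((qc y : ℤ) : ZMod p) = y ^ n := by
    intro y
    rw [hqc, quadraticChar_eq_pow_of_char_ne_two' hrc, ZMod.card]
  have T1 : ∑ j ∈ range 3, z ^ j * ((AA p m z j : ℤ) : ZMod p) = 0 := by
    rw [← hcomb (ZMod p) (fun j => z ^ j) (fun x => x ^ m), ← bsum_one p n m hn hm hm0]
    · apply sum_congr rfl
      intro x _
      simp only [hqp]
    · intro x
      by_cases hx : x = 0
      · simp only [hx]
        rw [hsel0 (ZMod p), zero_pow (by omega)]
      · obtain ⟨i, hi, h1, -⟩ := hcls x hx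
        rw [hsel (ZMod p) _ x i hi h1]
        exact h1
  have T2 : ∑ j ∈ range 3, (z ^ j) ^ 2 * ((AA p m z j : ℤ) : ZMod p) = -(n.choose m : ZMod p) := by
    rw [← hcomb (ZMod p) (fun j => (z ^ j) ^ 2) (fun x => x ^ (2 * m)), ← bsum_two p n m hn hm hm0]
    · apply sum_congr rfl
      intro x _
      simp only [hqp]
    · intro x
      by_cases hx : x = 0
      · simp only [hx]
        rw [hsel0 (ZMod p), zero_pow (by omega)]
      · obtain ⟨i, hi, h1, -⟩ := hcls x hx
        rw [hsel (ZMod p) _ x i hi h1, ← h1, mul_comm 2 m, pow_mul]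
  -- Jacobi sums
  set φ : MulChar (ZMod p) ℂ := qc.ringHomComp (Int.castRingHom ℂ) with hφ
  have hφa : ∀ y, φ y = ((qc y : ℤ) : ℂ) := fun y => rfl
  have hφ1 : φ ≠ 1 := by
    rw [hφ, MulChar.ringHomComp_ne_one_iff (RingHom.injective_int _)]
    exact quadraticChar_ne_one hrc
  have hχ1 : χ ≠ 1 := by
    intro h
    rw [h, MulChar.one_apply g.isUnit] at hχg
    exact hw1 hχg.symm
  have hφi : φ⁻¹ = φ := by
    have : φ.IsQuadratic := (quadraticChar_isQuadratic (ZMod p)).comp _
    exact this.inv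
  have hφg : φ g * φ g = 1 := by
    rw [hφa, ← Int.cast_mul, ← pow_two, hqc, quadraticChar_sq_one g.ne_zero, Int.cast_one]
  have hχφ : χ * φ ≠ 1 := by
    intro h
    have h1 := congrArg (fun ψ : MulChar (ZMod p) ℂ => ψ g) h
    simp only [MulChar.mul_apply, MulChar.one_apply g.isUnit, hχg] at h1
    have h2 : w ^ 2 = 1 := by
      calc w ^ 2 = w ^ 2 * (φ g * φ g) := by rw [hφg, mul_one]
        _ = (w * φ g) ^ 2 := by ring
        _ = 1 := by rw [h1, one_pow]
    apply hw1
    have : w ^ 3 = w ^ 2 * w := by ring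
    rw [hw3, h2, one_mul] at this
    exact this.symm
  have hrr : ringChar ℂ ≠ ringChar (ZMod p) := by
    rw [ZMod.ringChar_zmod_n, ringChar.eq_zero]
    exact (hp.out.ne_zero).symm
  have hJ := jacobiSum_mul_jacobiSum_inv hrr hχ1 hφ1 hχφ
  rw [hφi, ZMod.card] at hJ
  have J1 : jacobiSum χ φ = ∑ j ∈ range 3, w ^ j * ((AA p m z j : ℤ) : ℂ) := by
    rw [← hcomb ℂ (fun j => w ^ j) (fun x => χ x)]
    · rfl
    · intro x
      by_cases hx : x = 0
      · simp only [hx]
        rw [hsel0 ℂ, MulChar.map_zero]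
      · obtain ⟨i, hi, h1, h2⟩ := hcls x hx
        rw [hsel ℂ _ x i hi h1]
        exact h2
  have J2 : jacobiSum χ⁻¹ φ = ∑ j ∈ range 3, (w ^ j) ^ 2 * ((AA p m z j : ℤ) : ℂ) := by
    rw [← hcomb ℂ (fun j => (w ^ j) ^ 2) (fun x => χ⁻¹ x)]
    · rfl
    · intro x
      by_cases hx : x = 0
      · simp only [hx]
        rw [hsel0 ℂ, MulChar.map_zero]
      · obtain ⟨i, hi, h1, h2⟩ := hcls x hx
        rw [hsel ℂ _ x i hi h1, MulChar.inv_apply_eq_inv', h2]
        have h3 : (w ^ i) ^ 3 = 1 := by rw [← pow_mul, mul_comm i 3, pow_mul, hw3, one_pow]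
        rw [eq_comm]
        apply eq_inv_of_mul_eq_one_left
        rw [← h3]
        ring
  rw [J1, J2] at hJ
  simp only [sum_range_succ, sum_range_zero, zero_add, pow_zero, pow_one, one_pow, one_mul]
    at hJ T1 T2
  set A0 := AA p m z 0 with hA0
  set A1 := AA p m z 1 with hA1
  set A2 := AA p m z 2 with hA2
  have hw4 : (w ^ 2) ^ 2 = w := by
    have : (w ^ 2) ^ 2 = w ^ 3 * w := by ring
    rw [this, hw3, one_mul]
  have hz4 : (z ^ 2) ^ 2 = z := by
    have : (z ^ 2) ^ 2 = z ^ 3 * z := by ring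
    rw [this, hz3, one_mul]
  rw [hw4] at hJ
  rw [hz4] at T2
  have hnorm : A0 ^ 2 + A1 ^ 2 + A2 ^ 2 - A0 * A1 - A1 * A2 - A0 * A2 = (p : ℤ) := by
    have h1 : ((A0 ^ 2 + A1 ^ 2 + A2 ^ 2 - A0 * A1 - A1 * A2 - A0 * A2 : ℤ) : ℂ) = ((p : ℤ) : ℂ) := by
      push_cast
      rw [← hJ]
      linear_combination (-(A0 * A1 : ℂ) - (A0 : ℂ) * A2 - (A1 : ℂ) * A2
        - (w - 1) * ((A1 : ℂ) ^ 2 + (A2 : ℂ) ^ 2) - (w ^ 2 - w) * (A1 : ℂ) * A2) * hws
    exact_mod_cast h1
  have hpar : ∀ i, 0 < i → i < 3 → (2 : ℤ) ∣ AA p m z i := by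
    intro i hi0 hi
    suffices hs : ((AA p m z i : ℤ) : ZMod 2) = 0 by
      have := (ZMod.intCast_zmod_eq_zero_iff_dvd (AA p m z i) 2).mp hs
      exact_mod_cast this
    unfold AA
    push_cast
    have e : ∀ x : ZMod p, ((if x ^ m = z ^ i then quadraticChar (ZMod p) (1 - x) else 0 : ℤ) : ZMod 2)
        = if x ^ m = z ^ i then 1 else 0 := by
      intro x
      split_ifs with h
      · have hx1 : 1 - x ≠ 0 := by
          intro h1
          have h2 : x = 1 := (sub_eq_zero.mp h1).symm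
          rw [h2, one_pow] at h
          have := hdist 0 i (by norm_num) hi (by rw [pow_zero]; exact h)
          omega
        rcases quadraticChar_dichotomy hx1 with h1 | h1
        · rw [h1]
          norm_num
        · rw [h1]
          decide
      · norm_num
    have e2 : ∑ x : ZMod p, ((if x ^ m = z ^ i then quadraticChar (ZMod p) (1 - x) else 0 : ℤ) : ZMod 2)
        = ∑ x : ZMod p, if x ^ m = z ^ i then (1 : ZMod 2) else 0 := sum_congr rfl fun x _ => e x
    refine Eq.trans ?_ (e2.trans ?_)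
    · push_cast
      rfl
    · have hev : Even m := by
        rw [Nat.even_iff]
        omega
      apply sum_involution (fun x _ => -x)
      · intro x _
        rw [hev.neg_pow]
        split_ifs
        · decide
        · decide
      · intro x _ hne h
        have hx0 : x ≠ 0 := by
          intro h0
          rw [h0, zero_pow (by omega)] at hne
          apply hne
          rw [if_neg]
          intro h1
          exact pow_ne_zero i hz0 h1.symm
        have h2 : (2 : ZMod p) * x = 0 := by linear_combination (-1 : ZMod p) * h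
        rcases mul_eq_zero.mp h2 with h3 | h3
        · have h4 : ((2 : ℕ) : ZMod p) = 0 := by exact_mod_cast h3
          rw [ZMod.natCast_eq_zero_iff] at h4
          have := Nat.le_of_dvd (by norm_num) h4
          omega
        · exact hx0 h3
      · intro x _
        exact neg_neg x
      · intro x _
        exact mem_univ _
  obtain ⟨b1, hb1⟩ := hpar 1 (by norm_num) (by norm_num)
  obtain ⟨b2, hb2⟩ := hpar 2 (by norm_num) (by norm_num)
  rw [← hA1] at hb1
  rw [← hA2] at hb2
  refine ⟨A0 - b1 - b2, b1 - b2, ?_, ?_⟩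
  · rw [← hnorm, hb1, hb2]
    ring
  · rw [← ZMod.intCast_zmod_eq_zero_iff_dvd _ p]
    push_cast
    have h1 : (A1 : ZMod p) = 2 * b1 := by exact_mod_cast congrArg (fun a : ℤ => (a : ZMod p)) hb1
    have h2 : (A2 : ZMod p) = 2 * b2 := by exact_mod_cast congrArg (fun a : ℤ => (a : ZMod p)) hb2
    have h4 : (2 : ZMod p) * A0 - A1 - A2 = -(n.choose m : ZMod p) := by
      linear_combination T1 + T2 - ((A1 : ZMod p) + A2) * hzs
    linear_combination h4 + h1 + h2

end

/-- uniqueness of the representation -/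
theorem rep_unique (p : ℕ) (hp : p.Prime) (x y a b : ℤ) (h1 : (p : ℤ) = x ^ 2 + 3 * y ^ 2)
    (h2 : (p : ℤ) = a ^ 2 + 3 * b ^ 2) : x ^ 2 = a ^ 2 := by
  have hpz : Prime (p : ℤ) := Nat.prime_iff_prime_int.mp hp
  have hp0 : (0 : ℤ) < p := by exact_mod_cast hp.pos
  have key : ∀ y : ℤ, (p : ℤ) = x ^ 2 + 3 * y ^ 2 → (p : ℤ) ∣ x * b - y * a → x ^ 2 = a ^ 2 := by
    intro y h1 hd
    have h3 : (x * a + 3 * y * b) ^ 2 + 3 * (x * b - y * a) ^ 2 = (p : ℤ) ^ 2 := by
      have : (p : ℤ) ^ 2 = (x ^ 2 + 3 * y ^ 2) * (a ^ 2 + 3 * b ^ 2) := by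
        rw [← h1, ← h2, pow_two]
      rw [this]
      ring
    obtain ⟨c, hc⟩ := hd
    have hc0 : c = 0 := by
      by_contra hne
      have h4 : 1 ≤ c ^ 2 := by
        have : 0 < c ^ 2 := by positivity
        omega
      rw [hc] at h3
      have h5 : 0 ≤ (x * a + 3 * y * b) ^ 2 := sq_nonneg _
      have h6 : (p : ℤ) ^ 2 ≤ (p : ℤ) ^ 2 * c ^ 2 := by
        have : 0 < (p : ℤ) ^ 2 := by positivity
        nlinarith
      have h7 : 0 < (p : ℤ) ^ 2 := by positivity
      nlinarith
    rw [hc0, mul_zero] at hc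
    have h4 : (p : ℤ) * (b ^ 2 - y ^ 2) = 0 := by
      have e1 : (x * b - y * a) * (x * b + y * a) = 0 := by rw [hc, zero_mul]
      linear_combination e1 + b ^ 2 * h1 - y ^ 2 * h2
    rcases mul_eq_zero.mp h4 with h5 | h5
    · omega
    · linear_combination h2 - h1 + 3 * h5
  have h3 : (p : ℤ) ∣ (x * b - y * a) * (x * b + y * a) := by
    refine ⟨b ^ 2 - y ^ 2, ?_⟩
    linear_combination (-b ^ 2) * h1 + y ^ 2 * h2
  rcases hpz.dvd_or_dvd h3 with h4 | h4
  · exact key y h1 h4
  · apply key (-y) (by rw [h1]; ring)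
    rw [show x * b - -y * a = x * b + y * a by ring]
    exact h4

theorem choose_sq (p : ℕ) (hp : p.Prime) (h3 : 3 < p) (m : ℕ) (hm : 3 * m + 1 = p) (x y : ℤ)
    (h : (p : ℤ) = x ^ 2 + 3 * y ^ 2) :
    (p : ℤ) ∣ ((p / 2).choose m : ℤ) ^ 2 - 4 * x ^ 2 := by
  have hf : Fact p.Prime := ⟨hp⟩
  obtain ⟨a, b, h1, h2⟩ := jac_sum p m hm h3
  have h4 := rep_unique p hp x y a b h h1
  have e : ((p / 2).choose m : ℤ) ^ 2 - 4 * x ^ 2
      = (((p / 2).choose m : ℤ) + 2 * a) * (((p / 2).choose m : ℤ) - 2 * a) := by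
    rw [h4]
    ring
  rw [e]
  exact Dvd.dvd.mul_right h2 _

end Pool.Agent.MP5c57f5
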