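import Mathlib
import Pool.Agent.Lib.MP_5c57f5_nt.Jacobi
import Pool.Agent.Lib.MP_5c57f5_nt.JacC

/-!
MP_5c57f5_nt, row JAC.
-/

namespace Pool.Agent.MP5c57f5

open Finset

section

variable (p : ℕ) [hp : Fact p.Prime]

/-- the data of the Jacobi sum of a cubic and the quadratic character -/
theorem jac_data (m : ℕ) (hm : 3 * m + 1 = p) (h3 : 3 < p) :
    ∃ z : ZMod p, z ^ 2 + z + 1 = 0 ∧ z ≠ 1 ∧ (∀ x : ZMod p, x ≠ 0 → ∃ i, i < 3 ∧ x ^ m = z ^ i) ∧
      (∀ i j : ℕ, i < 3 → j < 3 → z ^ i = z ^ j → i = j) ∧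
      ∃ b1 b2 : ℤ, AA p m z 1 = 2 * b1 ∧ AA p m z 2 = 2 * b2 ∧
        (p : ℤ) = (AA p m z 0 - b1 - b2) ^ 2 + 3 * (b1 - b2) ^ 2 := by
  classical
  have hn : 2 * (p / 2) + 1 = p := by
    have := hp.out.eq_two_or_odd
    omega
  set n := p / 2 with hnd
  have hm0 : 0 < m := by omega
  obtain ⟨g, hg⟩ := IsCyclic.exists_generator (α := (ZMod p)ˣ)
  have hcard : Fintype.card (ZMod p)ˣ = 3 * m := by
    rw [ZMod.card_units]
    omega
  have hord : orderOf g = 3 * m := by
    rw [orderOf_eq_card_of_forall_mem_zpowers hg, Nat.card_eq_fintype_card, hcard]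
  set z : ZMod p := (g : ZMod p) ^ m with hz
  have hz3 : z ^ 3 = 1 := by
    rw [hz, ← pow_mul, mul_comm m 3, ← Units.val_pow_eq_pow_val, ← hord, pow_orderOf_eq_one,
      Units.val_one]
  have hz1 : z ≠ 1 := by
    intro h
    have h1 : g ^ m = 1 := by
      ext
      rw [Units.val_pow_eq_pow_val, Units.val_one]
      exact h
    have h2 := orderOf_dvd_of_pow_eq_one h1
    rw [hord] at h2
    have := Nat.le_of_dvd hm0 h2
    omega
  have hzs : z ^ 2 + z + 1 = 0 := by
    have h1 : (z - 1) * (z ^ 2 + z + 1) = 0 := by linear_combination hz3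
    rcases mul_eq_zero.mp h1 with h2 | h2
    · exact absurd (sub_eq_zero.mp h2) hz1
    · exact h2
  have hz0 : z ≠ 0 := by
    intro h
    rw [h] at hz3
    norm_num at hz3
  have hz2 : z ^ 2 ≠ 1 := by
    intro h
    apply hz1
    have : z ^ 3 = z ^ 2 * z := by ring
    rw [hz3, h, one_mul] at this
    exact this.symm
  -- the complex side
  obtain ⟨w, hw⟩ : ∃ w : ℂ, IsPrimitiveRoot w 3 :=
    ⟨_, Complex.isPrimitiveRoot_exp 3 (by norm_num)⟩
  have hw3 : w ^ 3 = 1 := hw.pow_eq_one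
  have hw1 : w ≠ 1 := hw.ne_one (by norm_num)
  have hws : w ^ 2 + w + 1 = 0 := by
    have h1 : (w - 1) * (w ^ 2 + w + 1) = 0 := by linear_combination hw3
    rcases mul_eq_zero.mp h1 with h2 | h2
    · exact absurd (sub_eq_zero.mp h2) hw1
    · exact h2
  have hw0 : w ≠ 0 := by
    intro h
    rw [h] at hw3
    norm_num at hw3
  set W : ℂˣ := Units.mk0 w hw0 with hW
  have hWr : W ∈ rootsOfUnity (Fintype.card (ZMod p)ˣ) ℂ := by
    rw [mem_rootsOfUnity, hcard, pow_mul]
    have : W ^ 3 = 1 := by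
      ext
      rw [Units.val_pow_eq_pow_val, Units.val_one]
      exact hw3
    rw [this, one_pow]
  set χ : MulChar (ZMod p) ℂ := MulChar.ofRootOfUnity hWr hg with hχ
  have hχg : χ g = w := MulChar.ofRootOfUnity_spec hWr hg
  -- the classes
  have hcls : ∀ x : ZMod p, x ≠ 0 → ∃ i, i < 3 ∧ x ^ m = z ^ i ∧ χ x = w ^ i := by
    intro x hx
    have h1 := hg (Units.mk0 x hx)
    rw [← mem_powers_iff_mem_zpowers] at h1
    obtain ⟨k, hk⟩ := h1
    have hk' : (g : ZMod p) ^ k = x := by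
      have := congrArg Units.val hk
      rwa [Units.val_pow_eq_pow_val] at this
    refine ⟨k % 3, Nat.mod_lt _ (by norm_num), ?_, ?_⟩
    · rw [← hk', ← pow_mul, mul_comm k m, pow_mul, ← hz]
      conv_lhs => rw [← Nat.div_add_mod k 3, pow_add, pow_mul, hz3, one_pow, one_mul]
    · rw [← hk', map_pow, hχg]
      conv_lhs => rw [← Nat.div_add_mod k 3, pow_add, pow_mul, hw3, one_pow, one_mul]
  have hdist : ∀ i j : ℕ, i < 3 → j < 3 → z ^ i = z ^ j → i = j := by
    intro i j hi hj h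
    have h12 : z ≠ z ^ 2 := by
      intro h
      apply hz1
      have : z * z = z * 1 := by
        rw [mul_one, ← pow_two]
        exact h.symm
      exact mul_left_cancel₀ hz0 this
    interval_cases i <;> interval_cases j <;> first | rfl | (exfalso
                                                             simp only [pow_zero, pow_one] at h
                                                             first
      | exact hz1 h.symm | exact hz1 h | exact hz2 h.symm | exact hz2 h | exact h12 h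
      | exact h12 h.symm)
  have hsel : ∀ (R : Type) [AddCommMonoid R] (f : ℕ → R) (x : ZMod p) (i : ℕ), i < 3 →
      x ^ m = z ^ i → ∑ j ∈ range 3, (if x ^ m = z ^ j then f j else 0) = f i := by
    intro R _ f x i hi hx
    rw [sum_eq_single_of_mem i (mem_range.mpr hi), if_pos hx]
    intro j hj hji
    rw [if_neg]
    intro h
    rw [hx] at h
    exact hji (hdist j i (mem_range.mp hj) hi h.symm)
  have hsel0 : ∀ (R : Type) [AddCommMonoid R] (f : ℕ → R),
      ∑ j ∈ range 3, (if (0 : ZMod p) ^ m = z ^ j then f j else 0) = 0 := by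
    intro R _ f
    apply sum_eq_zero
    intro j _
    rw [if_neg]
    intro h
    rw [zero_pow (by omega)] at h
    exact pow_ne_zero j hz0 h.symm
  set qc := quadraticChar (ZMod p) with hqc
  -- sums over the field
  have hcomb : ∀ (R : Type) [CommRing R] (f : ℕ → R) (F : ZMod p → R),
      (∀ x, F x = ∑ j ∈ range 3, (if x ^ m = z ^ j then f j else 0)) →
      ∑ x : ZMod p, F x * ((qc (1 - x) : ℤ) : R) = ∑ j ∈ range 3, f j * ((AA p m z j : ℤ) : R) := by
    intro R _ f F hF
    have e : ∀ x, F x * ((qc (1 - x) : ℤ) : R)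
        = ∑ j ∈ range 3, f j * ((if x ^ m = z ^ j then qc (1 - x) else 0 : ℤ) : R) := by
      intro x
      rw [hF, sum_mul]
      apply sum_congr rfl
      intro j _
      split_ifs
      · rfl
      · simp
    rw [sum_congr rfl fun x _ => e x, sum_comm]
    apply sum_congr rfl
    intro j _
    unfold AA
    rw [← mul_sum]
    push_cast
    rfl
  have hrc : ringChar (ZMod p) ≠ 2 := by
    rw [ZMod.ringChar_zmod_n]
    omega
  have hqp : ∀ y : ZMod p, ((qc y : ℤ) : ZMod p) = y ^ n := by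
    intro y
    rw [hqc, quadraticChar_eq_pow_of_char_ne_two' hrc, ZMod.card]
  -- Jacobi sums
  set φ : MulChar (ZMod p) ℂ := qc.ringHomComp (Int.castRingHom ℂ) with hφ
  have hφa : ∀ y, φ y = ((qc y : ℤ) : ℂ) := fun y => rfl
  have hφ1 : φ ≠ 1 := by
    rw [hφ, MulChar.ringHomComp_ne_one_iff (RingHom.injective_int _)]
    exact quadraticChar_ne_one hrc
  have hχ1 : χ ≠ 1 := by
    intro h
    rw [h, MulChar.one_apply g.isUnit] at hχg
    exact hw1 hχg.symm
  have hφi : φ⁻¹ = φ := by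
    have : φ.IsQuadratic := (quadraticChar_isQuadratic (ZMod p)).comp _
    exact this.inv
  have hφg : φ g * φ g = 1 := by
    rw [hφa, ← Int.cast_mul, ← pow_two, hqc, quadraticChar_sq_one g.ne_zero, Int.cast_one]
  have hχφ : χ * φ ≠ 1 := by
    intro h
    have h1 := congrArg (fun ψ : MulChar (ZMod p) ℂ => ψ g) h
    simp only [MulChar.mul_apply, MulChar.one_apply g.isUnit, hχg] at h1
    have h2 : w ^ 2 = 1 := by
      calc w ^ 2 = w ^ 2 * (φ g * φ g) := by rw [hφg, mul_one]
        _ = (w * φ g) ^ 2 := by ring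
        _ = 1 := by rw [h1, one_pow]
    apply hw1
    have : w ^ 3 = w ^ 2 * w := by ring
    rw [hw3, h2, one_mul] at this
    exact this.symm
  have hrr : ringChar ℂ ≠ ringChar (ZMod p) := by
    rw [ZMod.ringChar_zmod_n, ringChar.eq_zero]
    exact (hp.out.ne_zero).symm
  have hJ := jacobiSum_mul_jacobiSum_inv hrr hχ1 hφ1 hχφ
  rw [hφi, ZMod.card] at hJ
  have J1 : jacobiSum χ φ = ∑ j ∈ range 3, w ^ j * ((AA p m z j : ℤ) : ℂ) := by
    rw [← hcomb ℂ (fun j => w ^ j) (fun x => χ x)]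
    · rfl
    · intro x
      by_cases hx : x = 0
      · simp only [hx]
        rw [hsel0 ℂ, MulChar.map_zero]
      · obtain ⟨i, hi, h1, h2⟩ := hcls x hx
        rw [hsel ℂ _ x i hi h1]
        exact h2
  have J2 : jacobiSum χ⁻¹ φ = ∑ j ∈ range 3, (w ^ j) ^ 2 * ((AA p m z j : ℤ) : ℂ) := by
    rw [← hcomb ℂ (fun j => (w ^ j) ^ 2) (fun x => χ⁻¹ x)]
    · rfl
    · intro x
      by_cases hx : x = 0
      · simp only [hx]
        rw [hsel0 ℂ, MulChar.map_zero]
      · obtain ⟨i, hi, h1, h2⟩ := hcls x hx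
        rw [hsel ℂ _ x i hi h1, MulChar.inv_apply_eq_inv', h2]
        have h3 : (w ^ i) ^ 3 = 1 := by rw [← pow_mul, mul_comm i 3, pow_mul, hw3, one_pow]
        rw [eq_comm]
        apply eq_inv_of_mul_eq_one_left
        rw [← h3]
        ring
  rw [J1, J2] at hJ
  simp only [sum_range_succ, sum_range_zero, zero_add, pow_zero, pow_one, one_pow, one_mul]
    at hJ
  set A0 := AA p m z 0 with hA0
  set A1 := AA p m z 1 with hA1
  set A2 := AA p m z 2 with hA2
  have hw4 : (w ^ 2) ^ 2 = w := by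
    have : (w ^ 2) ^ 2 = w ^ 3 * w := by ring
    rw [this, hw3, one_mul]
  rw [hw4] at hJ
  have hnorm : A0 ^ 2 + A1 ^ 2 + A2 ^ 2 - A0 * A1 - A1 * A2 - A0 * A2 = (p : ℤ) := by
    have h1 : ((A0 ^ 2 + A1 ^ 2 + A2 ^ 2 - A0 * A1 - A1 * A2 - A0 * A2 : ℤ) : ℂ) = ((p : ℤ) : ℂ) := by
      push_cast
      rw [← hJ]
      linear_combination (-(A0 * A1 : ℂ) - (A0 : ℂ) * A2 - (A1 : ℂ) * A2
        - (w - 1) * ((A1 : ℂ) ^ 2 + (A2 : ℂ) ^ 2) - (w ^ 2 - w) * (A1 : ℂ) * A2) * hws
    exact_mod_cast h1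
  have hpar : ∀ i, 0 < i → i < 3 → (2 : ℤ) ∣ AA p m z i := by
    intro i hi0 hi
    suffices hs : ((AA p m z i : ℤ) : ZMod 2) = 0 by
      have := (ZMod.intCast_zmod_eq_zero_iff_dvd (AA p m z i) 2).mp hs
      exact_mod_cast this
    unfold AA
    push_cast
    have e : ∀ x : ZMod p, ((if x ^ m = z ^ i then quadraticChar (ZMod p) (1 - x) else 0 : ℤ) : ZMod 2)
        = if x ^ m = z ^ i then 1 else 0 := by
      intro x
      split_ifs with h
      · have hx1 : 1 - x ≠ 0 := by
          intro h1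
          have h2 : x = 1 := (sub_eq_zero.mp h1).symm
          rw [h2, one_pow] at h
          have := hdist 0 i (by norm_num) hi (by rw [pow_zero]; exact h)
          omega
        rcases quadraticChar_dichotomy hx1 with h1 | h1
        · rw [h1]
          norm_num
        · rw [h1]
          decide
      · norm_num
    have e2 : ∑ x : ZMod p, ((if x ^ m = z ^ i then quadraticChar (ZMod p) (1 - x) else 0 : ℤ) : ZMod 2)
        = ∑ x : ZMod p, if x ^ m = z ^ i then (1 : ZMod 2) else 0 := sum_congr rfl fun x _ => e x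
    refine Eq.trans ?_ (e2.trans ?_)
    · push_cast
      rfl
    · have hev : Even m := by
        rw [Nat.even_iff]
        omega
      apply sum_involution (fun x _ => -x)
      · intro x _
        rw [hev.neg_pow]
        split_ifs
        · decide
        · decide
      · intro x _ hne h
        have hx0 : x ≠ 0 := by
          intro h0
          rw [h0, zero_pow (by omega)] at hne
          apply hne
          rw [if_neg]
          intro h1
          exact pow_ne_zero i hz0 h1.symm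
        have h2 : (2 : ZMod p) * x = 0 := by linear_combination (-1 : ZMod p) * h
        rcases mul_eq_zero.mp h2 with h3 | h3
        · have h4 : ((2 : ℕ) : ZMod p) = 0 := by exact_mod_cast h3
          rw [ZMod.natCast_eq_zero_iff] at h4
          have := Nat.le_of_dvd (by norm_num) h4
          omega
        · exact hx0 h3
      · intro x _
        exact neg_neg x
      · intro x _
        exact mem_univ _
  obtain ⟨b1, hb1⟩ := hpar 1 (by norm_num) (by norm_num)
  obtain ⟨b2, hb2⟩ := hpar 2 (by norm_num) (by norm_num)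
  rw [← hA1] at hb1
  rw [← hA2] at hb2
  refine ⟨z, hzs, hz1, fun x hx => ?_, hdist, b1, b2, hb1, hb2, ?_⟩
  · obtain ⟨i, hi, h1, -⟩ := hcls x hx
    exact ⟨i, hi, h1⟩
  · rw [← hnorm, hb1, hb2]
    ring

/-- the change of variables `w = 2 x - 1` -/
theorem sum_aff (h3 : 3 < p) {R : Type*} [AddCommMonoid R] (F : ZMod p → R) :
    ∑ x : ZMod p, F (2 * x - 1) = ∑ w : ZMod p, F w := by
  have h2 : (2 : ZMod p) ≠ 0 := by
    have := cast_ne p 2 (by norm_num) (by omega)
    exact_mod_cast this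
  let e : ZMod p ≃ ZMod p := (Equiv.mulLeft₀ (2 : ZMod p) h2).trans (Equiv.subRight 1)
  exact Equiv.sum_comp e F

/-- `J' = 4^(mp) J` -/
theorem jac_rel (m : ℕ) (hm : 3 * m + 1 = p) (h3 : 3 < p) :
    ∑ x : ZMod p, ta p x ^ (2 * m) * ta p (1 - x) ^ (2 * m)
      = 4 ^ (m * p) * ∑ x : ZMod p, ta p x ^ (2 * m)
        * ((quadraticChar (ZMod p) (1 - x) : ℤ) : ZMod (p ^ 2)) := by
  classical
  have h4 : ((4 : ℕ) : ZMod p) ≠ 0 := by
    intro h
    rw [ZMod.natCast_eq_zero_iff] at h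
    have h5 : p ∣ 2 ^ 2 := by simpa using h
    have h6 := (Nat.prime_dvd_prime_iff_eq hp.out Nat.prime_two).mp (hp.out.dvd_of_dvd_pow h5)
    omega
  have hrc : ringChar (ZMod p) ≠ 2 := by
    rw [ZMod.ringChar_zmod_n]
    omega
  set t4 : ZMod (p ^ 2) := ta p ((4 : ℕ) : ZMod p) with ht4
  have h5 : t4 ^ (3 * m) = 1 := by
    rw [ht4, ← ta_pow, show 3 * m = p - 1 by omega, ZMod.pow_card_sub_one_eq_one h4, ta_one]
  have h6 : t4 ^ m = 4 ^ (m * p) := by
    rw [ht4, ta_nat, ← pow_mul, mul_comm p m]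
    norm_num
  -- multiply by `t4 ^ (2 m)`
  have h7 : t4 ^ (2 * m) * ∑ x : ZMod p, ta p x ^ (2 * m) * ta p (1 - x) ^ (2 * m)
      = ∑ w : ZMod p, ta p (1 - w ^ 2) ^ (2 * m) := by
    rw [← sum_aff p h3 (fun w => ta p (1 - w ^ 2) ^ (2 * m)), mul_sum]
    apply sum_congr rfl
    intro x _
    rw [ht4, ← mul_pow, ← mul_pow, ← ta_mul, ← ta_mul]
    congr 2
    push_cast
    ring
  have h8 : ∑ w : ZMod p, ta p (1 - w ^ 2) ^ (2 * m)
      = ∑ y : ZMod p, (((quadraticChar (ZMod p) y + 1 : ℤ)) : ZMod (p ^ 2))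
        * ta p (1 - y) ^ (2 * m) := by
    rw [← sum_fiberwise (univ : Finset (ZMod p)) (fun w : ZMod p => w ^ 2)
      (fun w => ta p (1 - w ^ 2) ^ (2 * m))]
    apply sum_congr rfl
    intro y _
    have e1 : ∑ w ∈ univ.filter (fun w : ZMod p => w ^ 2 = y), ta p (1 - w ^ 2) ^ (2 * m)
        = ∑ w ∈ univ.filter (fun w : ZMod p => w ^ 2 = y), ta p (1 - y) ^ (2 * m) := by
      apply sum_congr rfl
      intro w hw
      rw [(mem_filter.mp hw).2]
    rw [e1, sum_const, nsmul_eq_mul]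
    congr 1
    have h9 := quadraticChar_card_sqrts hrc y
    rw [← h9]
    rw [Int.cast_natCast]
    congr 2
    ext w
    simp
  have h9 : ∑ y : ZMod p, (((quadraticChar (ZMod p) y + 1 : ℤ)) : ZMod (p ^ 2))
        * ta p (1 - y) ^ (2 * m) = ∑ x : ZMod p, ta p x ^ (2 * m)
        * ((quadraticChar (ZMod p) (1 - x) : ℤ) : ZMod (p ^ 2)) := by
    rw [← Equiv.sum_comp (Equiv.subLeft (1 : ZMod p)) (fun y : ZMod p =>
      (((quadraticChar (ZMod p) y + 1 : ℤ)) : ZMod (p ^ 2)) * ta p (1 - y) ^ (2 * m))]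
    have e1 : ∀ x : ZMod p, (((quadraticChar (ZMod p) (Equiv.subLeft (1 : ZMod p) x) + 1 : ℤ)) :
        ZMod (p ^ 2)) * ta p (1 - Equiv.subLeft (1 : ZMod p) x) ^ (2 * m)
        = ta p x ^ (2 * m) * ((quadraticChar (ZMod p) (1 - x) : ℤ) : ZMod (p ^ 2))
          + ta p x ^ (2 * m) := by
      intro x
      rw [Equiv.subLeft_apply, sub_sub_cancel]
      push_cast
      ring
    rw [sum_congr rfl fun x _ => e1 x, sum_add_distrib, ta_psum p (2 * m) (by omega), if_neg,
      add_zero]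
    rintro ⟨l, hl⟩
    rcases l with _ | l
    · omega
    · have h10 : (p - 1) * (l + 1) = (p - 1) * l + (p - 1) := by ring
      rw [h10] at hl
      omega
  rw [h8, h9] at h7
  rw [← h7, ← h6, ← mul_assoc, ← pow_add, show m + 2 * m = 3 * m by ring, h5, one_mul]

/-- row JAC -/
theorem jac_square (m : ℕ) (hm : 3 * m + 1 = p) (h3 : 3 < p) :
    ∃ a b : ℤ, ∃ Z : ZMod (p ^ 2), Z ^ 2 + Z + 1 = 0 ∧ (p : ℤ) = a ^ 2 + 3 * b ^ 2 ∧
      (((2 * m).choose m : ℕ) : ZMod (p ^ 2))
        = -(4 ^ (m * p)) * ((a : ZMod (p ^ 2)) + (b : ZMod (p ^ 2)) * (Z ^ 2 - Z)) := by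
  classical
  obtain ⟨z, hzs, hz1, hcls, hdist, b1, b2, hb1, hb2, hn⟩ := jac_data p m hm h3
  have hz3 : z ^ 3 = 1 := by linear_combination (z - 1) * hzs
  have hz0 : z ≠ 0 := by
    intro h
    rw [h] at hz3
    norm_num at hz3
  set Z : ZMod (p ^ 2) := ta p z with hZ
  have hZ3 : Z ^ 3 = 1 := by rw [hZ, ← ta_pow, hz3, ta_one]
  have hZs : Z ^ 2 + Z + 1 = 0 := by
    have h1 : IsUnit (Z - 1) := by
      apply unit_of_rd
      rw [map_sub, hZ, rd_ta, map_one]
      exact sub_ne_zero.mpr hz1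
    have h2 : (Z - 1) * (Z ^ 2 + Z + 1) = 0 := by linear_combination hZ3
    exact (h1.mul_right_eq_zero).mp h2
  refine ⟨AA p m z 0 - b1 - b2, b1 - b2, Z, hZs, hn, ?_⟩
  have h4 := jac_choose p m hm h3
  rw [jac_rel p m hm h3] at h4
  have h5 : ∑ x : ZMod p, ta p x ^ (2 * m)
        * ((quadraticChar (ZMod p) (1 - x) : ℤ) : ZMod (p ^ 2))
      = ∑ j ∈ range 3, (Z ^ j) ^ 2 * ((AA p m z j : ℤ) : ZMod (p ^ 2)) := by
    have e : ∀ x : ZMod p, ta p x ^ (2 * m) = ∑ j ∈ range 3,
        (if x ^ m = z ^ j then (Z ^ j) ^ 2 else 0) := by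
      intro x
      by_cases hx : x = 0
      · rw [hx, ta_zero, zero_pow (by omega)]
        symm
        apply sum_eq_zero
        intro j _
        rw [if_neg]
        intro h
        rw [zero_pow (by omega)] at h
        exact pow_ne_zero j hz0 h.symm
      · obtain ⟨i, hi, h1⟩ := hcls x hx
        rw [sum_eq_single_of_mem i (mem_range.mpr hi), if_pos h1, hZ, ← ta_pow p z i,
          ← h1, ta_pow, ← pow_mul, mul_comm m 2]
        intro j hj hji
        rw [if_neg]
        intro h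
        rw [h1] at h
        exact hji (hdist j i (mem_range.mp hj) hi h.symm)
    have e2 : ∀ x : ZMod p, ta p x ^ (2 * m)
        * ((quadraticChar (ZMod p) (1 - x) : ℤ) : ZMod (p ^ 2))
        = ∑ j ∈ range 3, (Z ^ j) ^ 2
          * ((if x ^ m = z ^ j then quadraticChar (ZMod p) (1 - x) else 0 : ℤ) : ZMod (p ^ 2)) := by
      intro x
      rw [e, sum_mul]
      apply sum_congr rfl
      intro j _
      split_ifs
      · rfl
      · simp
    rw [sum_congr rfl fun x _ => e2 x, sum_comm]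
    apply sum_congr rfl
    intro j _
    unfold AA
    rw [← mul_sum]
    push_cast
    rfl
  rw [h5] at h4
  simp only [sum_range_succ, sum_range_zero, zero_add, pow_zero, pow_one, one_pow, one_mul] at h4
  rw [hb1, hb2] at h4
  push_cast at h4 ⊢
  have hZ4 : (Z ^ 2) ^ 2 = Z := by linear_combination Z * hZ3
  rw [hZ4] at h4
  linear_combination h4 - (4 : ZMod (p ^ 2)) ^ (m * p) * ((b1 : ZMod (p ^ 2)) + b2) * hZs

end

end Pool.Agent.MP5c57f5
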