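import Mathlib
import Pool.Agent.Lib.MP_5c57f5_nt.Jacobi
import Pool.Agent.Lib.MP_5c57f5_nt.JacSq

/-!
MP_5c57f5_nt, row FIN: from the congruence for the sum to the three explicit residues.
-/

namespace Pool.Agent.MP5c57f5

open Finset

section

variable (p : ℕ) [hp : Fact p.Prime]

/-- small numbers are not zero modulo `p` -/
theorem two_three_five (h5 : 5 < p) :
    (2 : ZMod p) ≠ 0 ∧ (3 : ZMod p) ≠ 0 ∧ (5 : ZMod p) ≠ 0 := by
  refine ⟨?_, ?_, ?_⟩
  · have := cast_ne p 2 (by norm_num) (by omega)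
    exact_mod_cast this
  · have := cast_ne p 3 (by norm_num) (by omega)
    exact_mod_cast this
  · have := cast_ne p 5 (by norm_num) (by omega)
    exact_mod_cast this

/-- elimination of the power of `625000` -/
theorem fin_core (h5 : 5 < p) (m : ℕ) (hm : 3 * m + 1 = p) (N E C J : ZMod (p ^ 2))
    (hN : 3 * 625000 ^ (2 * m) * N = E * C ^ 2 * (3 + 2 * (625000 ^ (3 * m) - 1)))
    (hC : C = -(4 ^ (m * p)) * J) : N = E * (10 ^ (m * p) * J ^ 2) := by
  obtain ⟨u2, u3, u5⟩ := two_three_five p h5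
  have hQ0 : (625000 : ZMod p) ≠ 0 := by
    rw [show (625000 : ZMod p) = 2 ^ 3 * 5 ^ 7 by norm_num]
    exact mul_ne_zero (pow_ne_zero _ u2) (pow_ne_zero _ u5)
  have h100 : (10 : ZMod p) ≠ 0 := by
    rw [show (10 : ZMod p) = 2 * 5 by norm_num]
    exact mul_ne_zero u2 u5
  have h3m : 3 * m = p - 1 := by omega
  -- the unit
  have hU : IsUnit (3 * 625000 ^ (2 * m) : ZMod (p ^ 2)) := by
    apply unit_of_rd
    rw [map_mul, map_pow, map_ofNat, map_ofNat]
    exact mul_ne_zero u3 (pow_ne_zero _ hQ0)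
  -- the Fermat quotient
  obtain ⟨c, hc⟩ : (p : ZMod (p ^ 2)) ∣ 625000 ^ (3 * m) - 1 := by
    apply dvd_of_rd
    rw [map_sub, map_pow, map_ofNat, map_one, h3m, ZMod.pow_card_sub_one_eq_one hQ0, sub_self]
  have hq : (625000 : ZMod (p ^ 2)) ^ (3 * m) = 1 + (p : ZMod (p ^ 2)) * c := by
    rw [← hc]; ring
  have hq2 : (625000 : ZMod (p ^ 2)) ^ (2 * m) * 625000 ^ (m * p) =
      1 + ((m : ZMod (p ^ 2)) + 1) * ((p : ZMod (p ^ 2)) * c) := by
    have e1 : (625000 : ZMod (p ^ 2)) ^ (2 * m) * 625000 ^ (m * p) =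
        (625000 ^ (3 * m)) ^ (m + 1) := by
      rw [← pow_add, ← pow_mul]
      congr 1
      rw [← hm]
      ring
    rw [e1, hq, pow_add_p]
    simp
  have hmp : (3 : ZMod (p ^ 2)) * (m : ZMod (p ^ 2)) + 1 = (p : ZMod (p ^ 2)) := by
    exact_mod_cast congrArg (Nat.cast (R := ZMod (p ^ 2))) hm
  have hpp := p_sq p
  -- powers of ten
  have hten : ((10 : ZMod (p ^ 2)) ^ (m * p)) ^ 3 = 1 := by
    have e1 : ((10 : ZMod (p ^ 2)) ^ (m * p)) ^ 3 = (10 ^ (3 * m)) ^ p := by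
      rw [← pow_mul, ← pow_mul]
      congr 1
      ring
    rw [e1, pow_eq_of_rd p (10 ^ (3 * m)) 1, one_pow]
    rw [map_pow, map_ofNat, map_one, h3m, ZMod.pow_card_sub_one_eq_one h100]
  have hten2 : (4 ^ (m * p)) ^ 2 * (625000 : ZMod (p ^ 2)) ^ (m * p) = 10 ^ (m * p) := by
    have e1 : (4 ^ (m * p)) ^ 2 * (625000 : ZMod (p ^ 2)) ^ (m * p) =
        (4 ^ 2 * 625000) ^ (m * p) := by
      rw [mul_pow, ← pow_mul, ← pow_mul, mul_comm 2 (m * p)]
    rw [e1, show (4 ^ 2 * 625000 : ZMod (p ^ 2)) = 10 ^ 7 by norm_num, ← pow_mul, mul_comm 7,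
      pow_mul]
    linear_combination (((10 : ZMod (p ^ 2)) ^ (m * p)) ^ 4 + 10 ^ (m * p)) * hten
  -- conclusion
  have hmain : 3 * 625000 ^ (2 * m) * N =
      3 * 625000 ^ (2 * m) * (E * C ^ 2 * 625000 ^ (m * p)) := by
    rw [hN, hc]
    have e2 : (3 : ZMod (p ^ 2)) * 625000 ^ (2 * m) * (E * C ^ 2 * 625000 ^ (m * p)) =
        E * C ^ 2 * (3 * (625000 ^ (2 * m) * 625000 ^ (m * p))) := by ring
    rw [e2, hq2]
    have e3 : (3 : ZMod (p ^ 2)) + 2 * ((p : ZMod (p ^ 2)) * c) =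
        3 * (1 + ((m : ZMod (p ^ 2)) + 1) * ((p : ZMod (p ^ 2)) * c)) := by
      linear_combination (-((p : ZMod (p ^ 2)) * c)) * hmp - c * hpp
    rw [e3]
  have hN2 := hU.mul_left_cancel hmain
  rw [hN2, hC, ← hten2]
  ring

/-- the square of the Jacobi sum, first case -/
theorem fin_J (x y a b : ℤ) (hxy : (p : ℤ) = x ^ 2 + 3 * y ^ 2)
    (hab : (p : ℤ) = a ^ 2 + 3 * b ^ 2) (s : ZMod (p ^ 2)) (J : ZMod (p ^ 2))
    (hJ : J = (a : ZMod (p ^ 2)) + (b : ZMod (p ^ 2)) * s) :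
    J ^ 2 = ((x : ZMod (p ^ 2)) + (y : ZMod (p ^ 2)) * s) ^ 2 ∨ J ^ 2 = ((x : ZMod (p ^ 2)) - (y : ZMod (p ^ 2)) * s) ^ 2 := by
  have h1 := rep_unique p hp.out x y a b hxy hab
  have h2 : y ^ 2 = b ^ 2 := by
    have : 3 * (y ^ 2) = 3 * b ^ 2 := by linear_combination hab - hxy - h1
    linarith
  rcases sq_eq_sq_iff_eq_or_eq_neg.mp h1 with h3 | h3 <;>
    rcases sq_eq_sq_iff_eq_or_eq_neg.mp h2 with h4 | h4
  · left; rw [hJ, h3, h4]
  · right; rw [hJ, h3, h4]; push_cast; ring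
  · right; rw [hJ, h3, h4]; push_cast; ring
  · left; rw [hJ, h3, h4]; push_cast; ring

omit hp in
/-- if `x - y v` is a unit, the square of `x + y v` is zero -/
theorem fin_sq (x y : ℤ) (hxy : (p : ℤ) = x ^ 2 + 3 * y ^ 2) (v : ZMod (p ^ 2))
    (hv : v ^ 2 = -3) (hu : IsUnit ((x : ZMod (p ^ 2)) - (y : ZMod (p ^ 2)) * v)) :
    ((x : ZMod (p ^ 2)) + (y : ZMod (p ^ 2)) * v) ^ 2 = 0 := by
  have hR : ((p : ℕ) : ZMod (p ^ 2)) = (x : ZMod (p ^ 2)) ^ 2 + 3 * (y : ZMod (p ^ 2)) ^ 2 := by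
    have := congrArg (Int.cast (R := ZMod (p ^ 2))) hxy
    push_cast at this
    exact this
  have h1 : ((x : ZMod (p ^ 2)) - (y : ZMod (p ^ 2)) * v) * ((x : ZMod (p ^ 2)) + (y : ZMod (p ^ 2)) * v) = (p : ZMod (p ^ 2)) := by
    rw [hR]
    linear_combination (-(y : ZMod (p ^ 2)) ^ 2) * hv
  have h2 : ((x : ZMod (p ^ 2)) - (y : ZMod (p ^ 2)) * v) ^ 2 * ((x : ZMod (p ^ 2)) + (y : ZMod (p ^ 2)) * v) ^ 2 =
      ((x : ZMod (p ^ 2)) - (y : ZMod (p ^ 2)) * v) ^ 2 * 0 := by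
    rw [mul_zero, ← mul_pow, h1, p_sq2]
  exact (hu.pow 2).mul_left_cancel h2

/-- the second case -/
theorem fin_caseB (h5 : 5 < p) (m : ℕ) (hm : 3 * m + 1 = p) (x y : ℤ)
    (hxy : (p : ℤ) = x ^ 2 + 3 * y ^ 2) (s J : ZMod (p ^ 2)) (hs : s ^ 2 = -3)
    (hu : IsUnit J) (hJ : J ^ 2 = ((x : ZMod (p ^ 2)) + (y : ZMod (p ^ 2)) * s) ^ 2 ∨
      J ^ 2 = ((x : ZMod (p ^ 2)) - (y : ZMod (p ^ 2)) * s) ^ 2)
    (hw : 2 * (10 : ℤ) ^ m * y ≡ -y - x [ZMOD p]) :
    (10 : ZMod (p ^ 2)) ^ (m * p) * J ^ 2 =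
      (p : ZMod (p ^ 2)) - 2 * (x : ZMod (p ^ 2)) ^ 2 + 6 * (x : ZMod (p ^ 2)) * (y : ZMod (p ^ 2)) := by
  obtain ⟨u2, u3, u5⟩ := two_three_five p h5
  have h100 : (10 : ZMod p) ≠ 0 := by
    rw [show (10 : ZMod p) = 2 * 5 by norm_num]
    exact mul_ne_zero u2 u5
  have h3m : 3 * m = p - 1 := by omega
  set w : ZMod (p ^ 2) := 10 ^ (m * p) with hwdef
  have hw3 : w ^ 3 = 1 := by
    have e1 : w ^ 3 = (10 ^ (3 * m)) ^ p := by
      rw [hwdef, ← pow_mul, ← pow_mul]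
      congr 1
      ring
    rw [e1, pow_eq_of_rd p (10 ^ (3 * m)) 1, one_pow]
    rw [map_pow, map_ofNat, map_one, h3m, ZMod.pow_card_sub_one_eq_one h100]
  have hrw : rd p w = 10 ^ m := by
    rw [hwdef, pow_mul, map_pow, map_pow, map_ofNat, ZMod.pow_card]
  -- the relation modulo p
  have hrel : 2 * (10 : ZMod p) ^ m * (y : ZMod p) = -(y : ZMod p) - (x : ZMod p) := by
    have := (ZMod.intCast_eq_intCast_iff _ _ p).mpr hw
    push_cast at this
    exact this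
  have hp0 : (x : ZMod p) ^ 2 + 3 * (y : ZMod p) ^ 2 = 0 := by
    have := congrArg (Int.cast (R := ZMod p)) hxy
    push_cast at this
    rw [← this, ZMod.natCast_self]
  -- y is not zero modulo p
  have hy : (y : ZMod p) ≠ 0 := by
    intro h
    have hx : (x : ZMod p) = 0 := by
      rw [h] at hp0
      have : (x : ZMod p) ^ 2 = 0 := by linear_combination hp0
      exact pow_eq_zero_iff (two_ne_zero) |>.mp this
    rw [ZMod.intCast_zmod_eq_zero_iff_dvd] at h hx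
    obtain ⟨y', hy'⟩ := h
    obtain ⟨x', hx'⟩ := hx
    rw [hy', hx'] at hxy
    have hpos : (0 : ℤ) < p := by exact_mod_cast hp.out.pos
    have h1 : (p : ℤ) * 1 = p * (p * (x' ^ 2 + 3 * y' ^ 2)) := by linear_combination hxy
    have h2 := mul_left_cancel₀ hpos.ne' h1
    have h3 : (p : ℤ) ∣ 1 := ⟨_, h2⟩
    have h4 : (p : ℤ) = 1 := Int.eq_one_of_dvd_one hpos.le h3
    have : p = 1 := by exact_mod_cast h4
    omega
  have hw1 : rd p w ≠ 1 := by
    intro h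
    rw [hrw] at h
    rw [h] at hrel
    have hx : (x : ZMod p) = -3 * (y : ZMod p) := by linear_combination hrel
    rw [hx] at hp0
    have : (2 : ZMod p) ^ 2 * 3 * (y : ZMod p) ^ 2 = 0 := by linear_combination hp0
    exact (mul_ne_zero (mul_ne_zero (pow_ne_zero _ u2) u3) (pow_ne_zero _ hy)) this
  have hunit1 : IsUnit (w - 1) := by
    apply unit_of_rd
    rw [map_sub, map_one]
    exact sub_ne_zero.mpr hw1
  have hww : w ^ 2 + w + 1 = 0 := by
    have : (w - 1) * (w ^ 2 + w + 1) = (w - 1) * 0 := by linear_combination hw3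
    exact hunit1.mul_left_cancel this
  set v : ZMod (p ^ 2) := 2 * w + 1 with hvdef
  have hv : v ^ 2 = -3 := by
    rw [hvdef]
    linear_combination 4 * hww
  -- x + v y is zero modulo p
  have hxv : rd p ((x : ZMod (p ^ 2)) + (y : ZMod (p ^ 2)) * v) = 0 := by
    rw [map_add, map_mul, rd_int, rd_int, hvdef, map_add, map_mul, map_ofNat, map_one, hrw]
    linear_combination hrel
  have hJ2 : J ^ 2 = ((x : ZMod (p ^ 2)) + (y : ZMod (p ^ 2)) * v) ^ 2 ∨
      J ^ 2 = ((x : ZMod (p ^ 2)) - (y : ZMod (p ^ 2)) * v) ^ 2 := by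
    have hvs : v = s ∨ v = -s := by
      have hz : (v - s) * (v + s) = 0 := by linear_combination hv - hs
      by_cases h : rd p (v - s) = 0
      · left
        have hu2 : IsUnit (v + s) := by
          apply unit_of_rd
          intro h'
          rw [map_sub] at h
          rw [map_add] at h'
          have h6 : 2 * rd p v = 0 := by linear_combination h + h'
          have h7 : rd p v = 0 := (mul_eq_zero.mp h6).resolve_left u2
          have h8 := congrArg (rd p) hv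
          rw [map_pow, h7, map_neg, map_ofNat] at h8
          apply u3
          linear_combination h8
        have : (v + s) * (v - s) = (v + s) * 0 := by linear_combination hz
        exact sub_eq_zero.mp (hu2.mul_left_cancel this)
      · right
        have hu2 : IsUnit (v - s) := unit_of_rd p _ h
        have : (v - s) * (v + s) = (v - s) * 0 := by linear_combination hz
        exact eq_neg_of_add_eq_zero_left (hu2.mul_left_cancel this)
    rcases hvs with h | h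
    · rw [h]; exact hJ
    · rw [h]
      rcases hJ with h1 | h1
      · right; rw [h1]; ring
      · left; rw [h1]; ring
  have hnot : ¬ IsUnit ((x : ZMod (p ^ 2)) + (y : ZMod (p ^ 2)) * v) := by
    intro h
    have := h.map (rd p)
    rw [hxv] at this
    exact not_isUnit_zero this
  have hJ3 : J ^ 2 = ((x : ZMod (p ^ 2)) - (y : ZMod (p ^ 2)) * v) ^ 2 := by
    rcases hJ2 with h | h
    · exfalso
      apply hnot
      have h1 : IsUnit (((x : ZMod (p ^ 2)) + (y : ZMod (p ^ 2)) * v) ^ 2) := by rw [← h]; exact hu.pow 2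
      exact (isUnit_pow_iff two_ne_zero).mp h1
    · exact h
  have hu4 : IsUnit ((x : ZMod (p ^ 2)) - (y : ZMod (p ^ 2)) * v) := by
    have h1 : IsUnit (((x : ZMod (p ^ 2)) - (y : ZMod (p ^ 2)) * v) ^ 2) := by rw [← hJ3]; exact hu.pow 2
    exact (isUnit_pow_iff two_ne_zero).mp h1
  have hsq := fin_sq p x y hxy v hv hu4
  have hR : ((p : ℕ) : ZMod (p ^ 2)) = (x : ZMod (p ^ 2)) ^ 2 + 3 * (y : ZMod (p ^ 2)) ^ 2 := by
    have := congrArg (Int.cast (R := ZMod (p ^ 2))) hxy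
    push_cast at this
    exact this
  have hu22 : IsUnit (2 : ZMod (p ^ 2)) := by
    apply unit_of_rd
    rw [map_ofNat]
    exact u2
  apply hu22.mul_left_cancel
  rw [hJ3, hR]
  have hwv : 2 * w = v - 1 := by rw [hvdef]; ring
  have : 2 * (w * ((x : ZMod (p ^ 2)) - (y : ZMod (p ^ 2)) * v) ^ 2) =
      (v - 1) * ((x : ZMod (p ^ 2)) - (y : ZMod (p ^ 2)) * v) ^ 2 := by rw [← hwv]; ring
  rw [this]
  linear_combination (v + 1) * hsq -
    (4 * (x : ZMod (p ^ 2)) * (y : ZMod (p ^ 2)) + 2 * (y : ZMod (p ^ 2)) ^ 2) * hv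

end

/-- row FIN (uses jac_square and rep_unique of Jacobi.lean) -/
theorem final_step (p : ℕ) (hp : p.Prime) (h5 : 5 < p) (m : ℕ) (hm : 3 * m + 1 = p) (N : ℤ)
    (hN : (p : ℤ) ^ 2 ∣ 3 * 625000 ^ (2 * m) * N
      - (-8640) ^ (p - 1) * ((2 * m).choose m : ℤ) ^ 2 * (3 + 2 * (625000 ^ (3 * m) - 1)))
    (x y : ℤ) (hxy : (p : ℤ) = x ^ 2 + 3 * y ^ 2) :
    ((10 : ℤ) ^ m ≡ 1 [ZMOD p] → (p : ℤ) ^ 2 ∣ N - (4 * x ^ 2 - 2 * p) * (-8640) ^ (p - 1)) ∧
    (2 * (10 : ℤ) ^ m * y ≡ -y - x [ZMOD p] →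
      (p : ℤ) ^ 2 ∣ N - (p - 2 * x ^ 2 + 6 * x * y) * (-8640) ^ (p - 1)) ∧
    (2 * (10 : ℤ) ^ m * y ≡ -y + x [ZMOD p] →
      (p : ℤ) ^ 2 ∣ N - (p - 2 * x ^ 2 - 6 * x * y) * (-8640) ^ (p - 1)) := by
  have hf : Fact p.Prime := ⟨hp⟩
  obtain ⟨u2, u3, u5⟩ := two_three_five p h5
  obtain ⟨a, b, Z, hZ, hab, hC⟩ := jac_square p m hm (by omega)
  set s : ZMod (p ^ 2) := Z ^ 2 - Z with hsdef
  have hs : s ^ 2 = -3 := by
    rw [hsdef]
    linear_combination (Z ^ 2 - 3 * Z + 3) * hZ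
  set J : ZMod (p ^ 2) := (a : ZMod (p ^ 2)) + (b : ZMod (p ^ 2)) * s with hJdef
  have hJ := fin_J p x y a b hxy hab s J hJdef
  have hcast : ∀ t : ℤ, ((t : ℤ) : ZMod (p ^ 2)) = 0 ↔ (p : ℤ) ^ 2 ∣ t := by
    intro t
    rw [ZMod.intCast_zmod_eq_zero_iff_dvd]
    push_cast
    exact Iff.rfl
  have hN2 := (hcast _).mpr hN
  push_cast at hN2
  have hcore := fin_core p h5 m hm (N : ZMod (p ^ 2)) ((-8640) ^ (p - 1))
    (((2 * m).choose m : ℕ) : ZMod (p ^ 2)) J (by linear_combination hN2) hC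
  -- J is a unit
  have huC : IsUnit ((((2 * m).choose m : ℕ)) : ZMod (p ^ 2)) := by
    apply unit_of_rd
    rw [rd_nat, Ne, ZMod.natCast_eq_zero_iff]
    intro hd
    have h1 : p ∣ (2 * m).factorial := by
      rw [← Nat.choose_mul_factorial_mul_factorial (show m ≤ 2 * m by omega)]
      exact Dvd.dvd.mul_right (Dvd.dvd.mul_right hd _) _
    have h2 := (Nat.Prime.dvd_factorial hp).mp h1
    omega
  have hu : IsUnit J := by
    rw [hC] at huC
    exact isUnit_of_mul_isUnit_right huC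
  have hR : ((p : ℕ) : ZMod (p ^ 2)) = (x : ZMod (p ^ 2)) ^ 2 + 3 * (y : ZMod (p ^ 2)) ^ 2 := by
    have := congrArg (Int.cast (R := ZMod (p ^ 2))) hxy
    push_cast at this
    exact this
  refine ⟨?_, ?_, ?_⟩
  · intro h10
    rw [← hcast]
    push_cast
    have hw : (10 : ZMod (p ^ 2)) ^ (m * p) = 1 := by
      rw [pow_mul, pow_eq_of_rd p (10 ^ m) 1, one_pow]
      rw [map_pow, map_ofNat, map_one]
      have := (ZMod.intCast_eq_intCast_iff _ _ p).mpr h10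
      push_cast at this
      exact this
    rw [hcore, hw, one_mul]
    have hJ4 : J ^ 2 = 4 * (x : ZMod (p ^ 2)) ^ 2 - 2 * (p : ZMod (p ^ 2)) := by
      rcases hJ with h | h
      · have h1 : IsUnit (((x : ZMod (p ^ 2)) + (y : ZMod (p ^ 2)) * s) ^ 2) := by rw [← h]; exact hu.pow 2
        have h2 : IsUnit ((x : ZMod (p ^ 2)) - (y : ZMod (p ^ 2)) * (-s)) := by
          have := (isUnit_pow_iff two_ne_zero).mp h1
          rw [show (x : ZMod (p ^ 2)) - (y : ZMod (p ^ 2)) * (-s) = (x : ZMod (p ^ 2)) + (y : ZMod (p ^ 2)) * s by ring]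
          exact this
        have h3 := fin_sq p x y hxy (-s) (by linear_combination hs) h2
        rw [h, hR]
        linear_combination -h3 + (2 * (y : ZMod (p ^ 2)) ^ 2) * hs
      · have h1 : IsUnit (((x : ZMod (p ^ 2)) - (y : ZMod (p ^ 2)) * s) ^ 2) := by rw [← h]; exact hu.pow 2
        have h2 := (isUnit_pow_iff two_ne_zero).mp h1
        have h3 := fin_sq p x y hxy s hs h2
        rw [h, hR]
        linear_combination -h3 + (2 * (y : ZMod (p ^ 2)) ^ 2) * hs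
    rw [hJ4]
    ring
  · intro hw
    rw [← hcast]
    push_cast
    have h := fin_caseB p h5 m hm x y hxy s J hs hu hJ hw
    rw [hcore, h]
    ring
  · intro hw
    rw [← hcast]
    push_cast
    have hJ' : J ^ 2 = ((x : ZMod (p ^ 2)) + ((-y : ℤ) : ZMod (p ^ 2)) * s) ^ 2 ∨
        J ^ 2 = ((x : ZMod (p ^ 2)) - ((-y : ℤ) : ZMod (p ^ 2)) * s) ^ 2 := by
      push_cast
      rcases hJ with h | h
      · right; rw [h]; ring
      · left; rw [h]; ring
    have h := fin_caseB p h5 m hm x (-y) (by rw [hxy]; ring) s J hs hu hJ' (by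
      have e1 : 2 * (10 : ℤ) ^ m * -y = -(2 * (10 : ℤ) ^ m * y) := by ring
      have e2 : - -y - x = -(-y + x) := by ring
      rw [e1, e2]
      exact Int.ModEq.neg hw)
    rw [hcore, h]
    push_cast
    ring

end Pool.Agent.MP5c57f5
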