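import Mathlib

/-!
The square of the truncated series of `(1 + 4 X)^(-1/2)`.  (Row HH, helper87.)
-/

set_option autoImplicit false

namespace Pool.Agent.MP5c57f5

open Polynomial Finset

lemma central_conv (n : ℕ) :
    ∑ q ∈ antidiagonal n, ((q.1.centralBinom : ℤ) * q.2.centralBinom) = 4 ^ n := by
  induction n with
  | zero => simp
  | succ n ih =>
    have h1 : ∀ m : ℕ, ∑ q ∈ antidiagonal m,
        ((q.1 : ℤ) * ((q.1.centralBinom : ℤ) * q.2.centralBinom))
        = ∑ q ∈ antidiagonal m, ((q.2 : ℤ) * ((q.1.centralBinom : ℤ) * q.2.centralBinom)) := by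
      intro m
      rw [← Finset.Nat.sum_antidiagonal_swap]
      apply Finset.sum_congr rfl
      intro q _
      simp only [Prod.fst_swap, Prod.snd_swap]
      ring
    have h2 : ∀ m : ℕ, 2 * ∑ q ∈ antidiagonal m,
        ((q.1 : ℤ) * ((q.1.centralBinom : ℤ) * q.2.centralBinom))
        = m * ∑ q ∈ antidiagonal m, ((q.1.centralBinom : ℤ) * q.2.centralBinom) := by
      intro m
      rw [two_mul]
      nth_rewrite 2 [h1]
      rw [← Finset.sum_add_distrib, Finset.mul_sum]
      apply Finset.sum_congr rfl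
      intro q hq
      have h3 : q.1 + q.2 = m := Finset.HasAntidiagonal.mem_antidiagonal.mp hq
      rw [← h3]
      push_cast
      ring
    have h4 : ∑ q ∈ antidiagonal (n + 1),
        ((q.1 : ℤ) * ((q.1.centralBinom : ℤ) * q.2.centralBinom))
        = ∑ q ∈ antidiagonal n, (2 * (2 * (q.1 : ℤ) + 1)) * ((q.1.centralBinom : ℤ)
          * q.2.centralBinom) := by
      rw [Finset.Nat.sum_antidiagonal_succ]
      simp only [Nat.cast_zero, zero_mul, zero_add]
      apply Finset.sum_congr rfl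
      intro q _
      have h5 := Nat.succ_mul_centralBinom_succ q.1
      have h6 : (((q.1 + 1 : ℕ) : ℤ)) * ((q.1 + 1).centralBinom : ℤ)
          = 2 * (2 * (q.1 : ℤ) + 1) * (q.1.centralBinom : ℤ) := by
        exact_mod_cast h5
      rw [← mul_assoc, h6]
      ring
    have h7 := h2 (n + 1)
    rw [h4] at h7
    have h8 : ∑ q ∈ antidiagonal n, (2 * (2 * (q.1 : ℤ) + 1)) * ((q.1.centralBinom : ℤ)
          * q.2.centralBinom) = 2 * (2 * ∑ q ∈ antidiagonal n,
        ((q.1 : ℤ) * ((q.1.centralBinom : ℤ) * q.2.centralBinom)))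
        + 2 * ∑ q ∈ antidiagonal n, ((q.1.centralBinom : ℤ) * q.2.centralBinom) := by
      rw [Finset.mul_sum, Finset.mul_sum, Finset.mul_sum, ← Finset.sum_add_distrib]
      apply Finset.sum_congr rfl
      intro q _
      ring
    rw [h8, h2 n, ih] at h7
    have h9 : ((n : ℤ) + 1) ≠ 0 := by positivity
    apply mul_left_cancel₀ h9
    push_cast at h7
    rw [← h7]
    ring

/-- Row HH. -/
theorem half_series (N : ℕ) :
    (X : ℤ[X]) ^ N ∣ (∑ j ∈ range N, C ((-1) ^ j * ((2 * j).choose j : ℤ)) * X ^ j) ^ 2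
      * (1 + 4 * X) - 1 := by
  set H : ℤ[X] := ∑ j ∈ range N, C ((-1) ^ j * ((2 * j).choose j : ℤ)) * X ^ j with hH
  have h1 : ∀ j, j < N → H.coeff j = (-1) ^ j * (j.centralBinom : ℤ) := by
    intro j hj
    rw [hH, finsetSum_coeff]
    simp only [coeff_C_mul, coeff_X_pow]
    rw [Finset.sum_eq_single j]
    · rw [if_pos rfl, mul_one]
      rfl
    · intro b _ hb
      rw [if_neg (Ne.symm hb), mul_zero]
    · intro h
      exact absurd (Finset.mem_range.mpr hj) h
  have h2 : ∀ k, k < N → (H ^ 2).coeff k = (-4) ^ k := by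
    intro k hk
    rw [pow_two, coeff_mul]
    have h3 : ∀ q ∈ antidiagonal k, H.coeff q.1 * H.coeff q.2
        = (-1) ^ k * ((q.1.centralBinom : ℤ) * q.2.centralBinom) := by
      intro q hq
      have h4 : q.1 + q.2 = k := Finset.HasAntidiagonal.mem_antidiagonal.mp hq
      rw [h1 q.1 (by omega), h1 q.2 (by omega), ← h4, pow_add]
      ring
    rw [Finset.sum_congr rfl h3, ← Finset.mul_sum, central_conv, ← mul_pow]
    norm_num
  rw [X_pow_dvd_iff]
  intro d hd
  have h5 : H ^ 2 * (1 + 4 * X) - 1 = H ^ 2 + C 4 * (H ^ 2 * X) - 1 := by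
    rw [map_ofNat]
    ring
  rw [h5, coeff_sub, coeff_add, coeff_C_mul, h2 d hd]
  rcases Nat.eq_zero_or_pos d with h0 | h0
  · subst h0
    rw [mul_coeff_zero]
    simp
  · obtain ⟨e, rfl⟩ := Nat.exists_eq_succ_of_ne_zero (n := d) (by omega)
    rw [coeff_mul_X, h2 e (by omega), coeff_one, if_neg (by omega), pow_succ]
    ring

end Pool.Agent.MP5c57f5
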