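import Mathlib

/-!
# Coefficients of a `p`-th power of a power series in characteristic `p`
-/

namespace Pool.Agent.MP5c57f5

theorem pow_char_coeff {K : Type*} [Field K] (p : ℕ) [hp : Fact p.Prime] [CharP K p]
    (S M : PowerSeries K) (h0 : PowerSeries.coeff 0 M = 0) (h1 : PowerSeries.coeff p M = 0)
    (h2 : PowerSeries.coeff (2 * p) M = 0) :
    PowerSeries.coeff p (S ^ p) = PowerSeries.coeff 1 S ^ p ∧
    PowerSeries.coeff (2 * p) (S ^ p) = PowerSeries.coeff 2 S ^ p ∧
    PowerSeries.coeff p (S ^ p * M) = 0 ∧ PowerSeries.coeff (2 * p) (S ^ p * M) = 0 := by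
  have hp0 : 0 < p := hp.out.pos
  have : CharP (PowerSeries K) p := by
    refine charP_of_injective_ringHom (f := (PowerSeries.C : K →+* PowerSeries K)) ?_ p
    exact PowerSeries.C_injective
  set s0 := PowerSeries.coeff 0 S
  set s1 := PowerSeries.coeff 1 S
  set s2 := PowerSeries.coeff 2 S
  have hdvd : (PowerSeries.X : PowerSeries K) ^ 3 ∣
      S - (PowerSeries.C s0 + PowerSeries.C s1 * PowerSeries.X +
        PowerSeries.C s2 * PowerSeries.X ^ 2) := by
    rw [PowerSeries.X_pow_dvd_iff]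
    intro m hm
    interval_cases m
    · simp [s0]
    · simp [PowerSeries.coeff_X_pow, PowerSeries.coeff_C, s1]
    · simp [PowerSeries.coeff_X_pow, s2]
  obtain ⟨R, hR⟩ := hdvd
  have hS : S = PowerSeries.C s0 + PowerSeries.C s1 * PowerSeries.X +
        PowerSeries.C s2 * PowerSeries.X ^ 2 + PowerSeries.X ^ 3 * R := by
    rw [← hR]; ring
  have hSp : S ^ p = PowerSeries.C (s0 ^ p) + PowerSeries.C (s1 ^ p) * PowerSeries.X ^ p +
        PowerSeries.C (s2 ^ p) * PowerSeries.X ^ (2 * p) + PowerSeries.X ^ (3 * p) * R ^ p := by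
    rw [hS, add_pow_char, add_pow_char, add_pow_char, mul_pow, mul_pow, mul_pow, ← pow_mul,
      ← pow_mul, map_pow, map_pow, map_pow]
  have hSM : S ^ p * M = PowerSeries.C (s0 ^ p) * M +
      PowerSeries.C (s1 ^ p) * (PowerSeries.X ^ p * M) +
        PowerSeries.C (s2 ^ p) * (PowerSeries.X ^ (2 * p) * M) +
          PowerSeries.X ^ (3 * p) * (R ^ p * M) := by
    rw [hSp]; ring
  have n1 : ¬ p = 0 := by omega
  have n2 : ¬ p = 2 * p := by omega
  have n3 : ¬ 3 * p ≤ p := by omega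
  have n4 : ¬ 2 * p = 0 := by omega
  have n5 : ¬ 2 * p = p := by omega
  have n6 : ¬ 3 * p ≤ 2 * p := by omega
  have n7 : ¬ 2 * p ≤ p := by omega
  have n8 : p ≤ 2 * p := by omega
  have e1 : 2 * p - p = p := by omega
  refine ⟨?_, ?_, ?_, ?_⟩
  · rw [hSp, map_add, map_add, map_add, PowerSeries.coeff_C, PowerSeries.coeff_C_mul,
      PowerSeries.coeff_C_mul, PowerSeries.coeff_X_pow, PowerSeries.coeff_X_pow,
      PowerSeries.coeff_X_pow_mul', if_neg n1, if_pos rfl, if_neg n2, if_neg n3]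
    ring
  · rw [hSp, map_add, map_add, map_add, PowerSeries.coeff_C, PowerSeries.coeff_C_mul,
      PowerSeries.coeff_C_mul, PowerSeries.coeff_X_pow, PowerSeries.coeff_X_pow,
      PowerSeries.coeff_X_pow_mul', if_neg n4, if_pos rfl, if_neg n5, if_neg n6]
    ring
  · rw [hSM, map_add, map_add, map_add, PowerSeries.coeff_C_mul, PowerSeries.coeff_C_mul,
      PowerSeries.coeff_C_mul, PowerSeries.coeff_X_pow_mul', PowerSeries.coeff_X_pow_mul',
      PowerSeries.coeff_X_pow_mul', if_pos le_rfl, if_neg n7, if_neg n3, Nat.sub_self, h0, h1]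
    ring
  · rw [hSM, map_add, map_add, map_add, PowerSeries.coeff_C_mul, PowerSeries.coeff_C_mul,
      PowerSeries.coeff_C_mul, PowerSeries.coeff_X_pow_mul', PowerSeries.coeff_X_pow_mul',
      PowerSeries.coeff_X_pow_mul', if_pos n8, if_pos le_rfl, if_neg n6, Nat.sub_self, e1, h0, h1,
      h2]
    ring

end Pool.Agent.MP5c57f5
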