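import Pool.Agent.Lib.MP_5c57f5_nt.Clausen

/-!
The sum modulo `p`, and modulo `p^2` for `p = 2 mod 3`.
-/

namespace Pool.Agent.MP5c57f5

open Finset MP8cc25e

/-- The integer `(-8640)^(p-1) S_p`. -/
def N8 (p : ℕ) : ℤ := ∑ n ∈ range p, (sg n : ℤ) * (-8640) ^ (p - 1 - n)

lemma N8_YS (p : ℕ) (z : ℤ) (h : (p : ℤ) ^ 2 ∣ (-8640) * z - 1) :
    (p : ℤ) ^ 2 ∣ (-8640) ^ (p - 1) * (YS p).eval z - N8 p := by
  rw [YS_eval, N8, mul_sum, ← sum_sub_distrib]
  apply dvd_sum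
  intro n hn
  rw [mem_range] at hn
  have e : (-8640 : ℤ) ^ (p - 1) = (-8640) ^ (p - 1 - n) * (-8640) ^ n := by
    rw [← pow_add]
    congr 1
    omega
  have h2 : (-8640 : ℤ) ^ (p - 1) * ((sg n : ℤ) * z ^ n) - (sg n : ℤ) * (-8640) ^ (p - 1 - n)
      = (((-8640) * z) ^ n - 1 ^ n) * ((sg n : ℤ) * (-8640) ^ (p - 1 - n)) := by
    rw [e, mul_pow]
    ring
  rw [h2]
  exact Dvd.dvd.mul_right (h.trans (sub_dvd_pow_sub_pow _ _ n)) _

section field

variable {K : Type*} [Field K] (p : ℕ) [hp : Fact p.Prime] [CharP K p]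

include hp in
lemma small_ne (h5 : 5 < p) : (2 : K) ≠ 0 ∧ (3 : K) ≠ 0 ∧ (5 : K) ≠ 0 := by
  refine ⟨?_, ?_, ?_⟩
  · have := cast_ne_zero_of_lt (K := K) p (j := 2) (by norm_num) (by omega)
    exact_mod_cast this
  · have := cast_ne_zero_of_lt (K := K) p (j := 3) (by norm_num) (by omega)
    exact_mod_cast this
  · have := cast_ne_zero_of_lt (K := K) p (j := 5) (by norm_num) (by omega)
    exact_mod_cast this

include hp in
lemma N8_cast (h5 : 5 < p) : ((N8 p : ℤ) : K) = ∑ n ∈ range p, (sg n : K) * ((-8640 : K)⁻¹) ^ n := by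
  obtain ⟨h2, h3, h5'⟩ := small_ne (K := K) p h5
  have h0 : (-8640 : K) ≠ 0 := by
    rw [show (-8640 : K) = -(2 ^ 6 * 3 ^ 3 * 5) by norm_num]
    exact neg_ne_zero.mpr (mul_ne_zero (mul_ne_zero (pow_ne_zero _ h2) (pow_ne_zero _ h3)) h5')
  have h1 : (-8640 : K) ^ (p - 1) = 1 := by
    have h6 : ¬ p ∣ 8640 := by
      intro h
      have h7 : p ∣ 2 ^ 6 * 3 ^ 3 * 5 := by
        refine h.trans (dvd_of_eq ?_)
        norm_num
      rcases hp.out.dvd_mul.mp h7 with h8 | h8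
      · rcases hp.out.dvd_mul.mp h8 with h9 | h9
        · have := Nat.le_of_dvd (by norm_num) (hp.out.dvd_of_dvd_pow h9)
          omega
        · have := Nat.le_of_dvd (by norm_num) (hp.out.dvd_of_dvd_pow h9)
          omega
      · have := Nat.le_of_dvd (by norm_num) h8
        omega
    have h7 := pow_pred (K := K) p 8640 h6
    have hev : Even (p - 1) := hp.out.even_sub_one (by omega)
    rw [hev.neg_pow]
    exact_mod_cast h7
  unfold N8
  push_cast
  apply sum_congr rfl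
  intro n hn
  rw [mem_range] at hn
  have e : (-8640 : K) ^ (p - 1) = (-8640) ^ (p - 1 - n) * (-8640) ^ n := by
    rw [← pow_add]
    congr 1
    omega
  rw [h1] at e
  rw [inv_pow, eq_comm, ← div_eq_mul_inv, div_eq_iff (pow_ne_zero _ h0), mul_assoc, ← e, mul_one]

include hp in
lemma main_field (r : K) (hr : r ^ 2 = 5) (n : ℕ) (hn : 2 * n + 1 = p) (h5 : 5 < p) :
    ((N8 p : ℤ) : K) = (FF r ^ n).coeff (p - 1) ^ 2 := by
  obtain ⟨h2, h3, h5'⟩ := small_ne (K := K) p h5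
  have h1080 : (1080 : K) ≠ 0 := by
    rw [show (1080 : K) = 2 ^ 3 * 3 ^ 3 * 5 by norm_num]
    exact mul_ne_zero (mul_ne_zero (pow_ne_zero _ h2) (pow_ne_zero _ h3)) h5'
  have h8640 : (-8640 : K) ≠ 0 := by
    rw [show (-8640 : K) = -(2 ^ 6 * 3 ^ 3 * 5) by norm_num]
    exact neg_ne_zero.mpr (mul_ne_zero (mul_ne_zero (pow_ne_zero _ h2) (pow_ne_zero _ h3)) h5')
  have ht : (20 + 9 * r) / 1080 * (1 - 27 * ((20 + 9 * r) / 1080)) = (-8640 : K)⁻¹ := by
    apply eq_inv_of_mul_eq_one_left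
    have e : (20 + 9 * r) / 1080 * (1 - 27 * ((20 + 9 * r) / 1080)) * -8640
        = ((20 + 9 * r) * (1080 - 27 * (20 + 9 * r)) * -8640) / (1080 * 1080) := by
      field_simp
    rw [e, div_eq_one_iff_eq (mul_ne_zero h1080 h1080)]
    linear_combination (27 * 81 * 8640 : K) * hr
  have h40 : (40 : K) ^ (p - 1) = 1 := by
    have h6 : ¬ p ∣ 40 := by
      intro h
      have h7 : p ∣ 2 ^ 3 * 5 := by
        refine h.trans (dvd_of_eq ?_)
        norm_num
      rcases hp.out.dvd_mul.mp h7 with h9 | h9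
      · have := Nat.le_of_dvd (by norm_num) (hp.out.dvd_of_dvd_pow h9)
        omega
      · have := Nat.le_of_dvd (by norm_num) h9
        omega
    exact_mod_cast pow_pred (K := K) p 40 h6
  rw [coeff_eq p r n hn h5, mul_pow, ← pow_mul, show n * 2 = p - 1 by omega, h40, one_mul,
    ← clausen_eval p (by omega), ht, N8_cast p h5]

end field

theorem inert_mod (p : ℕ) (hp : p.Prime) (h5 : 5 < p) (h3 : p % 3 = 2) : (p : ℤ) ∣ N8 p := by
  have hf : Fact p.Prime := ⟨hp⟩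
  obtain ⟨r, hr⟩ := IsAlgClosed.exists_pow_nat_eq (5 : AlgebraicClosure (ZMod p)) (n := 2)
    (by norm_num)
  have hn : 2 * (p / 2) + 1 = p := by
    have := hp.eq_two_or_odd
    omega
  rw [← CharP.intCast_eq_zero_iff (AlgebraicClosure (ZMod p)) p, main_field p r hr _ hn h5,
    coeff_inert p r hr _ hn h3]
  norm_num

theorem split_mod (p : ℕ) (hp : p.Prime) (h5 : 5 < p) (m : ℕ) (hm : 3 * m + 1 = p) :
    (p : ℤ) ∣ N8 p - ((p / 2).choose m : ℤ) ^ 2 * 10 ^ m := by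
  have hf : Fact p.Prime := ⟨hp⟩
  obtain ⟨r, hr⟩ := IsAlgClosed.exists_pow_nat_eq (5 : AlgebraicClosure (ZMod p)) (n := 2)
    (by norm_num)
  have hn : 2 * (p / 2) + 1 = p := by
    have := hp.eq_two_or_odd
    omega
  rw [← CharP.intCast_eq_zero_iff (AlgebraicClosure (ZMod p)) p]
  push_cast
  rw [main_field p r hr _ hn h5, coeff_split p r hr _ m hn hm]
  have h10 : (10 : AlgebraicClosure (ZMod p)) ^ (3 * m) = 1 := by
    have h6 : ¬ p ∣ 10 := by
      intro h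
      have h7 : p ∣ 2 * 5 := h
      rcases hp.dvd_mul.mp h7 with h9 | h9
      · have := Nat.le_of_dvd (by norm_num) h9
        omega
      · have := Nat.le_of_dvd (by norm_num) h9
        omega
    have := pow_pred (K := AlgebraicClosure (ZMod p)) p 10 h6
    rw [show p - 1 = 3 * m by omega] at this
    exact_mod_cast this
  unfold kap
  have e : (((p / 2).choose m : AlgebraicClosure (ZMod p)) * 4 ^ m * 625000 ^ (p / 2 - m)) ^ 2
      = ((p / 2).choose m : AlgebraicClosure (ZMod p)) ^ 2 * (10 ^ m * (10 ^ (3 * m)) ^ 2) := by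
    rw [mul_pow, mul_pow, ← pow_mul, ← pow_mul, mul_assoc]
    congr 1
    rw [show (p / 2 - m) * 2 = m by omega]
    have e1 : (4 : AlgebraicClosure (ZMod p)) ^ (m * 2) = 16 ^ m := by
      rw [mul_comm m 2, pow_mul]
      norm_num
    rw [e1, ← mul_pow, ← pow_mul, ← pow_add]
    rw [show (16 * 625000 : AlgebraicClosure (ZMod p)) = 10 ^ 7 by norm_num, ← pow_mul]
    congr 1
    ring
  rw [e, h10]
  ring

theorem inert_sq (p : ℕ) (hp : p.Prime) (h5 : 5 < p) (h3 : p % 3 = 2) : (p : ℤ) ^ 2 ∣ N8 p := by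
  have hpz : Prime (p : ℤ) := Nat.prime_iff_prime_int.mp hp
  have small : ∀ q : ℕ, q < 6 → 1 < q → ¬ p ∣ q := by
    intro q h1 h2 h3
    have := Nat.le_of_dvd (by omega) h3
    omega
  have h3' : ¬ (p : ℤ) ∣ 3 := by
    intro h
    exact small 3 (by norm_num) (by norm_num) (by exact_mod_cast h)
  have h8 : ¬ (p : ℤ) ∣ -8640 := by
    intro h
    rw [show (-8640 : ℤ) = -(2 ^ 6 * 3 ^ 3 * 5) by norm_num, dvd_neg] at h
    rcases hpz.dvd_or_dvd h with h7 | h7
    · rcases hpz.dvd_or_dvd h7 with h9 | h9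
      · exact small 2 (by norm_num) (by norm_num) (by exact_mod_cast hpz.dvd_of_dvd_pow h9)
      · exact h3' (hpz.dvd_of_dvd_pow h9)
    · exact small 5 (by norm_num) (by norm_num) (by exact_mod_cast h7)
  have hcop : IsCoprime (-8640 : ℤ) ((p : ℤ) ^ 2) :=
    (IsCoprime.pow_left ((Prime.coprime_iff_not_dvd hpz).mpr h8)).symm
  obtain ⟨z, b, hzb⟩ := hcop
  have hmz : (p : ℤ) ^ 2 ∣ (-8640) * z - 1 := ⟨-b, by linear_combination hzb⟩
  have hp2 : (p : ℤ) ∣ (p : ℤ) ^ 2 := dvd_pow_self _ (by norm_num)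
  have hmz1 : (p : ℤ) ∣ (-8640) * z - 1 := hp2.trans hmz
  have hN := N8_YS p z hmz
  have h0 := inert_mod p hp h5 h3
  have hY : (p : ℤ) ∣ (YS p).eval z := by
    have h1 : (p : ℤ) ∣ (-8640) ^ (p - 1) * (YS p).eval z := by
      have h2 := dvd_add (hp2.trans hN) h0
      simpa using h2
    rcases hpz.dvd_or_dvd h1 with h | h
    · exact absurd (hpz.dvd_of_dvd_pow h) h8
    · exact h
  have hz : ¬ (p : ℤ) ∣ z := by
    intro h
    have h1 : (p : ℤ) ∣ 1 := by
      obtain ⟨c, hc⟩ := hmz1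
      obtain ⟨d, hd⟩ := h
      exact ⟨(-8640) * d - c, by rw [hd] at hc; linear_combination (-1 : ℤ) * hc⟩
    exact hpz.not_isUnit (isUnit_of_dvd_one h1)
  have hP : ¬ (p : ℤ) ∣ 1 - 108 * z := by
    intro h
    have h1 : (p : ℤ) ∣ 81 := by
      obtain ⟨c, hc⟩ := hmz1
      obtain ⟨d, hd⟩ := h
      exact ⟨80 * d - c, by linear_combination 80 * hd - hc⟩
    rw [show (81 : ℤ) = 3 ^ 4 by norm_num] at h1
    exact h3' (hpz.dvd_of_dvd_pow h1)
  have h2 := lift_s p hp (by omega) z hz hP hY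
  have h3 := dvd_sub (Dvd.dvd.mul_left h2 ((-8640) ^ (p - 1))) hN
  simpa using h3

end Pool.Agent.MP5c57f5
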