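import Mathlib

/-!
A domain of characteristic zero with `sqrt 5`, in which all integers prime to `p` are units, with a
map to an algebraically closed field of characteristic `p`.  (Row RING, helper87.)
-/

set_option autoImplicit false

namespace Pool.Agent.MP5c57f5

open Finset

lemma not_unit_p (p : ℕ) (hp : p.Prime) : ¬ IsUnit ((p : ℕ) : integralClosure ℤ ℂ) := by
  intro h
  obtain ⟨b, hb⟩ := h.exists_right_inv
  have h1 : IsIntegral ℤ (b : ℂ) := b.2
  have h2 : ((p : ℂ)) * (b : ℂ) = 1 := by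
    have := congrArg (fun x : integralClosure ℤ ℂ => (x : ℂ)) hb
    simpa using this
  have hp0 : (p : ℂ) ≠ 0 := by exact_mod_cast hp.ne_zero
  have h3 : (b : ℂ) = algebraMap ℚ ℂ ((p : ℚ)⁻¹) := by
    rw [map_inv₀, map_natCast]
    field_simp
    rw [mul_comm]
    exact h2
  rw [h3, isIntegral_algebraMap_iff (algebraMap ℚ ℂ).injective] at h1
  obtain ⟨z, hz⟩ := IsIntegrallyClosed.isIntegral_iff.mp h1
  have hz2 : (z : ℚ) = (p : ℚ)⁻¹ := by simpa using hz
  have hpq : (p : ℚ) ≠ 0 := by exact_mod_cast hp.ne_zero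
  have h4 : (p : ℚ) * z = 1 := by rw [hz2, mul_inv_cancel₀ hpq]
  have h5 : (p : ℤ) * z = 1 := by exact_mod_cast h4
  have h6 : (p : ℤ) ∣ 1 := ⟨z, h5.symm⟩
  have h7 : p ∣ 1 := by exact_mod_cast h6
  exact hp.one_lt.ne' (Nat.dvd_one.mp h7)

lemma field_part (A : Type) [CommRing A] [IsLocalRing A] (p : ℕ) (hp : p.Prime)
    (h : ((p : ℕ) : A) ∈ IsLocalRing.maximalIdeal A) :
    ∃ (K : Type) (_ : Field K) (_ : IsAlgClosed K) (_ : CharP K p), Nonempty (A →+* K) := by
  have hpk : ((p : ℕ) : IsLocalRing.ResidueField A) = 0 := by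
    have h2 := (IsLocalRing.residue_eq_zero_iff _).mpr h
    rw [map_natCast] at h2
    exact h2
  have hchk : CharP (IsLocalRing.ResidueField A) p := (CharP.charP_iff_prime_eq_zero hp).mpr hpk
  have hchK : CharP (AlgebraicClosure (IsLocalRing.ResidueField A)) p :=
    charP_of_injective_algebraMap (algebraMap (IsLocalRing.ResidueField A)
      (AlgebraicClosure (IsLocalRing.ResidueField A))).injective p
  exact ⟨AlgebraicClosure (IsLocalRing.ResidueField A), inferInstance, inferInstance, hchK,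
    ⟨(algebraMap (IsLocalRing.ResidueField A)
      (AlgebraicClosure (IsLocalRing.ResidueField A))).comp (IsLocalRing.residue A)⟩⟩

/-- Row RING. -/
theorem ring_exists (p : ℕ) (hp : p.Prime) (h5 : 5 < p) :
    ∃ (A : Type) (_ : CommRing A) (_ : IsDomain A) (K : Type) (_ : Field K) (_ : IsAlgClosed K)
      (_ : CharP K p) (_ : A →+* K) (r r' d : A),
      (∀ n : ℕ, ¬ p ∣ n → IsUnit (n : A)) ∧ (p : A) ≠ 0 ∧ r ^ 2 = 5 ∧ r' ^ 2 = 5 ∧
        r ^ p = r' + p * d := by
  let B := integralClosure ℤ ℂ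
  obtain ⟨m, hm, hpm⟩ := Ideal.exists_le_maximal (Ideal.span {((p : ℕ) : B)})
    (Ideal.span_singleton_ne_top (not_unit_p p hp))
  have hpm2 : ((p : ℕ) : B) ∈ m := hpm (Ideal.subset_span rfl)
  have : m.IsPrime := hm.isPrime
  let A := Localization.AtPrime m
  have hinj : Function.Injective (algebraMap B A) :=
    IsLocalization.injective A m.primeCompl_le_nonZeroDivisors
  have hpA : ((p : ℕ) : A) ∈ IsLocalRing.maximalIdeal A := by
    have h1 : algebraMap B A (p : ℕ) ∈ IsLocalRing.maximalIdeal A :=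
      (IsLocalization.AtPrime.to_map_mem_maximal_iff A m _).mpr hpm2
    rw [map_natCast] at h1
    exact h1
  obtain ⟨K, iK, iC, hchK, ⟨φ⟩⟩ := field_part A p hp hpA
  -- the square root of five
  have hr0 : IsIntegral ℤ ((Real.sqrt 5 : ℝ) : ℂ) := by
    have h1 : ((Real.sqrt 5 : ℝ) : ℂ) ^ 2 = 5 := by
      rw [← Complex.ofReal_pow, Real.sq_sqrt (by norm_num)]
      norm_num
    apply IsIntegral.of_pow (n := 2) (by norm_num)
    rw [h1]
    exact isIntegral_algebraMap (R := ℤ) (A := ℂ) (x := 5) |> fun h => by simpa using h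
  let r0 : B := ⟨((Real.sqrt 5 : ℝ) : ℂ), hr0⟩
  have hr02 : r0 ^ 2 = 5 := by
    apply Subtype.ext
    show ((Real.sqrt 5 : ℝ) : ℂ) ^ 2 = _
    rw [← Complex.ofReal_pow, Real.sq_sqrt (by norm_num)]
    norm_num
    rfl
  have hodd : ∃ q, p = 2 * q + 1 := by
    rcases hp.eq_two_or_odd with h | h
    · omega
    · exact ⟨p / 2, by omega⟩
  obtain ⟨q, hq⟩ := hodd
  have ht : ∃ e d0 : ℤ, e ^ 2 = 1 ∧ (5 : ℤ) ^ q = e + p * d0 := by
    have h1 : (p : ℤ) ∣ (5 ^ q - 1) * (5 ^ q + 1) := by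
      have h2 : (5 : ℤ) ^ (p - 1) ≡ 1 [ZMOD p] := by
        apply Int.ModEq.pow_card_sub_one_eq_one hp
        have h3 : Nat.Coprime 5 p := by
          rw [Nat.coprime_comm]
          apply (Nat.Prime.coprime_iff_not_dvd hp).mpr
          intro h
          have := Nat.le_of_dvd (by norm_num) h
          omega
        exact_mod_cast (Nat.isCoprime_iff_coprime.mpr h3)
      have h4 := h2.symm.dvd
      refine h4.trans (dvd_of_eq ?_)
      have h5 : p - 1 = 2 * q := by omega
      rw [h5, pow_mul']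
      ring
    rcases (Nat.prime_iff_prime_int.mp hp).dvd_or_dvd h1 with ⟨c, hc⟩ | ⟨c, hc⟩
    · exact ⟨1, c, by norm_num, by linarith⟩
    · exact ⟨-1, c, by norm_num, by linarith⟩
  obtain ⟨e, d0, he, hd0⟩ := ht
  refine ⟨A, inferInstance, inferInstance, K, iK, iC, hchK, φ, algebraMap B A r0, algebraMap B A (e * r0),
    algebraMap B A (d0 * r0), ?_, ?_, ?_, ?_, ?_⟩
  · intro n hn
    have h1 : ((n : ℕ) : B) ∉ m := by
      intro h
      apply hm.ne_top
      rw [Ideal.eq_top_iff_one]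
      have h2 : IsCoprime (p : ℤ) (n : ℤ) :=
        Nat.isCoprime_iff_coprime.mpr ((Nat.Prime.coprime_iff_not_dvd hp).mpr hn)
      obtain ⟨a, b, hab⟩ := h2
      have h3 : (1 : B) = (a : B) * ((p : ℕ) : B) + (b : B) * ((n : ℕ) : B) := by
        have h4 := congrArg (fun z : ℤ => (z : B)) hab
        push_cast at h4
        exact h4.symm
      rw [h3]
      exact m.add_mem (m.mul_mem_left _ hpm2) (m.mul_mem_left _ h)
    have h2 := IsLocalization.map_units A (⟨((n : ℕ) : B), h1⟩ : m.primeCompl)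
    simpa using h2
  · intro h
    have h1 : algebraMap B A ((p : ℕ) : B) = algebraMap B A 0 := by
      rw [map_natCast, map_zero]
      exact h
    have h2 := hinj h1
    exact hp.ne_zero (by exact_mod_cast h2)
  · rw [← map_pow, hr02, map_ofNat]
  · rw [← map_pow, mul_pow, hr02, ← Int.cast_pow, he, Int.cast_one, one_mul, map_ofNat]
  · rw [← map_pow, ← map_natCast (algebraMap B A) p, ← map_mul, ← map_add]
    congr 1
    have h1 : r0 ^ p = ((5 : ℤ) ^ q : ℤ) * r0 := by
      rw [hq, pow_succ, pow_mul, hr02]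
      push_cast
      rfl
    rw [h1, hd0]
    push_cast
    ring

end Pool.Agent.MP5c57f5
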