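import Mathlib
import Pool.Agent.Lib.MP_5c57f5_nt.Coef

/-!
The second difference of `P(y) = ∏ (y - j - 1 - i)` at `0, p, 2p`.  (Row SD, helper87.)
-/

set_option autoImplicit false

namespace Pool.Agent.MP5c57f5

open Polynomial Finset

lemma sq_dvd_second (f : ℤ[X]) (x h : ℤ) :
    h ^ 2 ∣ f.eval x - 2 * f.eval (x + h) + f.eval (x + 2 * h) := by
  obtain ⟨a, ha⟩ := f.binomExpansion x h
  obtain ⟨b, hb⟩ := f.binomExpansion x (2 * h)
  refine ⟨-2 * a + 4 * b, ?_⟩
  rw [ha, hb]
  ring

/-- Row SD. -/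
theorem second_diff (p : ℕ) (hp : p.Prime) (j : ℕ) (hj : j < p) :
    (p : ℤ) ^ 2 ∣ (u j : ℤ) - 2 * ((2 * j).choose j * (p - 1 - j).choose (2 * j) : ℕ)
      + ((2 * j).choose j * (2 * p - 1 - j).choose (2 * j) : ℕ) := by
  set D : ℤ[X] := descPochhammer ℤ (2 * j) with hD
  have hc : (j.factorial * j.factorial) * (2 * j).choose j = (2 * j).factorial := by
    have h := Nat.choose_mul_factorial_mul_factorial (n := 2 * j) (k := j) (by omega)
    have h2 : 2 * j - j = j := by omega
    rw [h2] at h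
    rw [← h]
    ring
  have hcz : ((j.factorial : ℤ) * j.factorial) * ((2 * j).choose j : ℤ)
      = ((2 * j).factorial : ℤ) := by exact_mod_cast hc
  have h1 : ∀ m : ℕ, D.eval (m : ℤ) = ((2 * j).factorial : ℤ) * (m.choose (2 * j) : ℤ) := by
    intro m
    rw [hD, descPochhammer_eval_eq_descFactorial, Nat.descFactorial_eq_factorial_mul_choose]
    push_cast
    rfl
  have h2 : D.eval (-((j + 1 : ℕ) : ℤ)) = ((j.factorial : ℤ) * j.factorial) * (u j : ℤ) := by
    have h3 := ascPochhammer_eval_neg_eq_descPochhammer ℤ (-((j + 1 : ℕ) : ℤ)) (2 * j)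
    rw [neg_neg, ascPochhammer_nat_eq_natCast_ascFactorial, pow_mul, neg_one_sq, one_pow,
      one_mul] at h3
    rw [hD, ← h3]
    have h4 : (j + 1).ascFactorial (2 * j) = (j.factorial * j.factorial) * u j := by
      have h5 := Nat.factorial_mul_ascFactorial j (2 * j)
      have h6 : j + 2 * j = 3 * j := by ring
      rw [h6] at h5
      have h7 := Nat.choose_mul_factorial_mul_factorial (n := 3 * j) (k := j) (by omega)
      have h8 : 3 * j - j = 2 * j := by omega
      rw [h8] at h7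
      apply Nat.eq_of_mul_eq_mul_left (Nat.factorial_pos j)
      rw [h5, ← h7]
      unfold u
      rw [← hc]
      ring
    rw [h4]
    push_cast
    rfl
  have h9 := sq_dvd_second D (-((j + 1 : ℕ) : ℤ)) p
  have e1 : (-((j + 1 : ℕ) : ℤ)) + p = ((p - 1 - j : ℕ) : ℤ) := by omega
  have e2 : (-((j + 1 : ℕ) : ℤ)) + 2 * p = ((2 * p - 1 - j : ℕ) : ℤ) := by omega
  rw [e1, e2, h2, h1, h1, ← hcz] at h9
  have h10 : IsCoprime ((p : ℤ) ^ 2) ((j.factorial : ℤ) * j.factorial) := by
    have h11 : Nat.Coprime p j.factorial :=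
      (Nat.Prime.coprime_iff_not_dvd hp).mpr fun h => by
        have := (hp.dvd_factorial).mp h
        omega
    have h12 : IsCoprime (p : ℤ) (j.factorial : ℤ) := Nat.isCoprime_iff_coprime.mpr h11
    exact (h12.mul_right h12).pow_left
  apply h10.dvd_of_dvd_mul_left
  refine h9.trans (dvd_of_eq ?_)
  push_cast
  ring

end Pool.Agent.MP5c57f5
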