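import Pool.Agent.Lib.MP_5c57f5_nt.Core4
import Pool.Agent.Lib.MP_5c57f5_nt.Half

/-!
Power series: the transfer of the coefficients.
-/

namespace Pool.Agent.MP5c57f5

open Finset PowerSeries

section

variable {A : Type*} [CommRing A]

/-- polynomials as power series -/
noncomputable def io : Polynomial A →+* PowerSeries A := Polynomial.coeToPowerSeries.ringHom

lemma io_apply (f : Polynomial A) : io f = (f : PowerSeries A) := rfl

lemma io_X : io (Polynomial.X : Polynomial A) = X := Polynomial.coe_X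

lemma io_C (a : A) : io (Polynomial.C a) = C a := Polynomial.coe_C a

lemma io_coeff (f : Polynomial A) (n : ℕ) : coeff n (io f) = f.coeff n := Polynomial.coeff_coe _ _

lemma io_deriv (f : Polynomial A) : d⁄dX A (io f) = io (Polynomial.derivative f) :=
  PowerSeries.derivative_coe f

lemma cder (ξ : A⟦X⟧) (k n : ℕ) (hn : 0 < n) :
    ((k + 1 : ℕ) : A) * coeff (n - 1) (ξ ^ k * d⁄dX A ξ) = n * coeff n (ξ ^ (k + 1)) := by
  have h := congrArg (coeff (n - 1)) (PowerSeries.derivative_pow ξ (k + 1))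
  rw [coeff_derivative, Nat.sub_add_cancel hn, Nat.add_sub_cancel] at h
  have e : (((n - 1 : ℕ) : A) + 1) = n := by
    have : ((n - 1 + 1 : ℕ) : A) = n := by rw [Nat.sub_add_cancel hn]
    exact_mod_cast this
  rw [e, mul_assoc] at h
  have e2 : (((k + 1 : ℕ) : A⟦X⟧)) = C ((k + 1 : ℕ) : A) := by simp
  rw [e2, coeff_C_mul] at h
  rw [← h, mul_comm]

theorem transfer [IsDomain A] (p : ℕ) [hp : Fact p.Prime] (hpA : (p : A) ≠ 0) (iv : ℕ → A)
    (hiv : ∀ n, ¬ p ∣ n → (n : A) * iv n = 1) (m : ℕ) (hm : 3 * m + 1 = p) (τ : ℕ → A)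
    (ξ G : A⟦X⟧)
    (hG : X ^ (3 * p) ∣ G - (∑ j ∈ range p, C (τ j) * ξ ^ (3 * j)) * d⁄dX A ξ)
    (e : ℕ) (he : 0 < e) (he3 : e ≤ 3) :
    coeff (p * e - 1) G = ((p * e : ℕ) : A) * coeff (p * e)
      (∑ j ∈ range p, if j = m then 0 else C (τ j * iv (3 * j + 1)) * ξ ^ (3 * j + 1))
      + e * τ m * coeff (p * e) (ξ ^ p) := by
  have hp0 := hp.out.pos
  have hpe : 0 < p * e := Nat.mul_pos hp0 he
  have hlt : p * e - 1 < 3 * p := by
    have : p * e ≤ p * 3 := Nat.mul_le_mul_left p he3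
    omega
  have h1 := X_pow_dvd_iff.mp hG _ hlt
  rw [map_sub, sub_eq_zero] at h1
  rw [h1, sum_mul, map_sum, map_sum, mul_sum]
  have hterm : ∀ j ∈ range p, coeff (p * e - 1) (C (τ j) * ξ ^ (3 * j) * d⁄dX A ξ)
      = ((p * e : ℕ) : A) * coeff (p * e)
        (if j = m then 0 else C (τ j * iv (3 * j + 1)) * ξ ^ (3 * j + 1))
        + if j = m then e * τ m * coeff (p * e) (ξ ^ p) else 0 := by
    intro j hj
    rw [mem_range] at hj
    have h2 := cder ξ (3 * j) (p * e) hpe
    rw [mul_assoc, coeff_C_mul]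
    split_ifs with h3
    · rw [map_zero, mul_zero, zero_add, h3]
      rw [h3, hm] at h2
      have h4 : (p : A) * coeff (p * e - 1) (ξ ^ (3 * m) * d⁄dX A ξ)
          = p * (e * coeff (p * e) (ξ ^ p)) := by
        rw [h2]
        push_cast
        ring
      rw [mul_left_cancel₀ hpA h4]
      ring
    · have hnd : ¬ p ∣ 3 * j + 1 := by
        rintro ⟨c, hc⟩
        rcases c with _ | _ | _ | c
        · omega
        · omega
        · omega
        · have : p * (c + 1 + 1 + 1) = p * c + 3 * p := by ring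
          have h5 : 0 ≤ p * c := Nat.zero_le _
          omega
      have h4 := hiv _ hnd
      rw [add_zero, coeff_C_mul]
      linear_combination (τ j * iv (3 * j + 1)) * h2
        - (τ j * coeff (p * e - 1) (ξ ^ (3 * j) * d⁄dX A ξ)) * h4
  rw [sum_congr rfl hterm, sum_add_distrib, sum_ite_eq' (range p) m, if_pos]
  rw [mem_range]
  omega

end

end Pool.Agent.MP5c57f5
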