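import Pool.Agent.Lib.MP_5c57f5_nt.Ser1
import Pool.Agent.Lib.MP_5c57f5_nt.Eco

/-!
Power series: the isogeny and the inverse square roots.
-/

namespace Pool.Agent.MP5c57f5

open Finset PowerSeries

section

variable {A : Type*} [CommRing A]

/-- the truncated series of `(1 + 4 z)^(-1/2)` -/
noncomputable def HZ (p : ℕ) : Polynomial ℤ :=
  ∑ j ∈ range p, Polynomial.C ((-1) ^ j * ((2 * j).choose j : ℤ)) * Polynomial.X ^ j

lemma HZ_rel (p : ℕ) (z : A⟦X⟧) (hz : X ^ 3 ∣ z) :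
    X ^ (3 * p) ∣ (Polynomial.aeval z (HZ p)) ^ 2 * (1 + 4 * z) - 1 := by
  obtain ⟨c, hc⟩ := half_series p
  have hc' : HZ p ^ 2 * (1 + 4 * Polynomial.X) - 1 = Polynomial.X ^ p * c := hc
  have h1 := congrArg (Polynomial.aeval z) hc'
  simp only [map_sub, map_mul, map_pow, map_add, map_one, Polynomial.aeval_X] at h1
  have e4 : (Polynomial.aeval z) (4 : Polynomial ℤ) = 4 := map_ofNat _ 4
  rw [e4] at h1
  have h2 : (Polynomial.aeval z (HZ p)) ^ 2 * (1 + 4 * z) - 1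
      = z ^ p * Polynomial.aeval z c := h1
  rw [h2, pow_mul]
  exact Dvd.dvd.mul_right (pow_dvd_pow_of_dvd hz p) _

lemma HZ_eval (p : ℕ) (z : A⟦X⟧) : Polynomial.aeval z (HZ p)
    = ∑ j ∈ range p, C ((-1) ^ j * ((2 * j).choose j : A)) * z ^ j := by
  unfold HZ
  rw [map_sum]
  apply sum_congr rfl
  intro j _
  rw [map_mul, map_pow, Polynomial.aeval_X, Polynomial.aeval_C]
  congr 1
  simp

/-- the coefficients of the target -/
def tauA (i125 i625 : A) (j : ℕ) : A := (-1) ^ j * ((2 * j).choose j : A) * i125 * i625 ^ j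

lemma GS_eq (p : ℕ) (g' i40 : A) :
    GS p g' i40 = uS g' * Polynomial.aeval (C i40 * X ^ 3 * uS g' ^ 2) (HZ p) := by
  rw [HZ_eval, mul_sum]
  unfold GS
  apply sum_congr rfl
  intro j _
  rw [mul_pow, mul_pow, ← pow_mul, ← pow_mul, map_mul, map_pow C i40]
  ring

lemma T_eq (p : ℕ) (i125 i625 : A) (ξ : A⟦X⟧) :
    ∑ j ∈ range p, C (tauA i125 i625 j) * ξ ^ (3 * j)
      = C i125 * Polynomial.aeval (C i625 * ξ ^ 3) (HZ p) := by
  rw [HZ_eval, mul_sum]
  apply sum_congr rfl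
  intro j _
  unfold tauA
  rw [mul_pow, ← pow_mul, map_mul, map_pow C i625, map_mul]
  ring

/-- the derivative of the isogeny -/
lemma xi_deriv (r : A) (hr : r ^ 2 = 5) (vi ξ : A⟦X⟧) (hvi : io (vR r) * vi = 1)
    (hξ : ξ = io (uR r) * vi ^ 2) : d⁄dX A ξ = io (wR r) * vi ^ 3 := by
  have h1 : io (vR r) ^ 2 * ξ = io (uR r) := by
    rw [hξ]
    linear_combination (io (uR r) * (io (vR r) * vi + 1)) * hvi
  have h2 := congrArg (d⁄dX A) h1
  rw [Derivation.leibniz, pow_two, Derivation.leibniz] at h2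
  simp only [smul_eq_mul, io_deriv] at h2
  have h3 : io (wR r) = io (Polynomial.derivative (uR r)) * io (vR r)
      - 2 * (io (uR r) * io (Polynomial.derivative (vR r))) := by
    rw [wR_eq r hr]
    simp only [map_sub, map_mul, map_ofNat]
  have h4 : io (vR r) ^ 3 * d⁄dX A ξ = io (wR r) := by
    rw [h3]
    linear_combination (io (vR r)) * h2 - (2 * io (Polynomial.derivative (vR r))) * h1
  have h5 : (io (vR r) * vi) ^ 3 = 1 := by rw [hvi, one_pow]
  linear_combination (vi ^ 3) * h4 - (d⁄dX A ξ) * h5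

theorem G_rel (p : ℕ) (hp0 : 0 < p) (r g' i40 i125 i625 v' : A) (hr : r ^ 2 = 5)
    (hg : (20 + 9 * r) * g' = 1) (h40 : 40 * i40 = 1) (h125 : 125 * i125 = 1)
    (h625 : 625000 * i625 = 1) (h20 : IsUnit (20 : A)) (hv' : (550 + 246 * r) * v' = 1)
    (vi ξ : A⟦X⟧)
    (hvi : io (vR r) * vi = 1) (hξ : ξ = io (uR r) * vi ^ 2) :
    X ^ (3 * p) ∣ GS p g' i40
      - (∑ j ∈ range p, C (tauA i125 i625 j) * ξ ^ (3 * j)) * d⁄dX A ξ := by
  rw [T_eq]
  set u := uS g' with hu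
  have huu : u * (3 * X + C (20 + 9 * r)) = 1 := uS_mul _ _ hg
  have hdξ := xi_deriv r hr vi ξ hvi hξ
  set z1 : A⟦X⟧ := C i40 * X ^ 3 * u ^ 2 with hz1
  set z2 : A⟦X⟧ := C i625 * ξ ^ 3 with hz2
  have hX1 : (X : A⟦X⟧) ^ 3 ∣ z1 := ⟨C i40 * u ^ 2, by rw [hz1]; ring⟩
  have hξX : (X : A⟦X⟧) ∣ ξ := by
    rw [X_dvd_iff, hξ, map_mul, ← coeff_zero_eq_constantCoeff_apply, io_coeff, uR_zero, zero_mul]
  have hX2 : (X : A⟦X⟧) ^ 3 ∣ z2 := by
    rw [hz2]
    exact Dvd.dvd.mul_left (pow_dvd_pow_of_dvd hξX 3) _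
  obtain ⟨c1, hc1⟩ := HZ_rel p z1 hX1
  obtain ⟨c2, hc2⟩ := HZ_rel p z2 hX2
  set H1 := Polynomial.aeval z1 (HZ p) with hH1
  set H2 := Polynomial.aeval z2 (HZ p) with hH2
  have hG : GS p g' i40 = u * H1 := GS_eq p g' i40
  rw [hG]
  have hf : io (f1 r) = X ^ 3 + 10 * (3 * X + C (20 + 9 * r)) ^ 2 := by
    unfold f1
    simp only [map_add, map_mul, map_pow, map_ofNat, io_X, io_C]
  have e40 : (40 : A⟦X⟧) * C i40 = 1 := by
    rw [← map_ofNat (C (R := A)) 40, ← map_mul, h40, map_one]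
  have e125 : (125 : A⟦X⟧) * C i125 = 1 := by
    rw [← map_ofNat (C (R := A)) 125, ← map_mul, h125, map_one]
  have e625 : (625000 : A⟦X⟧) * C i625 = 1 := by
    rw [← map_ofNat (C (R := A)) 625000, ← map_mul, h625, map_one]
  have k1 : (u * H1) ^ 2 * io (f1 r) - 10 = 10 * (X ^ (3 * p) * c1) := by
    rw [← hc1, hf]
    have e1 : (u * (3 * X + C (20 + 9 * r))) ^ 2 = 1 := by rw [huu, one_pow]
    have e2 : 40 * z1 = X ^ 3 * u ^ 2 := by
      rw [hz1]
      linear_combination (X ^ 3 * u ^ 2) * e40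
    linear_combination (10 * H1 ^ 2) * e1 - (H1 ^ 2) * e2
  have hFW : io (f1 r) * io (wR r) ^ 2 = io (uR r) ^ 3 + 156250 * io (vR r) ^ 6 := by
    have := congrArg (io (A := A)) (fw1 r hr)
    simpa only [map_add, map_mul, map_pow, map_ofNat] using this
  have k2 : (C i125 * H2 * d⁄dX A ξ) ^ 2 * io (f1 r) - 10 = 10 * (X ^ (3 * p) * c2) := by
    rw [← hc2, hdξ]
    have e6 : (io (vR r) * vi) ^ 6 = 1 := by rw [hvi, one_pow]
    have e3 : ξ ^ 3 = io (uR r) ^ 3 * vi ^ 6 := by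
      rw [hξ]
      ring
    have e4 : 625000 * z2 = ξ ^ 3 := by
      rw [hz2]
      linear_combination (ξ ^ 3) * e625
    have e5 : (125 * C i125 : A⟦X⟧) ^ 2 = 1 := by rw [e125, one_pow]
    linear_combination (C i125 ^ 2 * H2 ^ 2 * vi ^ 6) * hFW
      + (156250 * C i125 ^ 2 * H2 ^ 2) * e6 - (C i125 ^ 2 * H2 ^ 2) * e3
      - (C i125 ^ 2 * H2 ^ 2) * e4 + (10 * H2 ^ 2 * (1 + 4 * z2)) * e5
  -- the unit
  have hunit : IsUnit (io (f1 r) * (u * H1 + C i125 * H2 * d⁄dX A ξ)) := by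
    rw [isUnit_iff_constantCoeff]
    have c0 : ∀ z : A⟦X⟧, X ^ 3 ∣ z → constantCoeff z = 0 := by
      intro z hz
      rw [← X_dvd_iff]
      exact (dvd_pow_self X (by norm_num)).trans hz
    have cH : ∀ z : A⟦X⟧, X ^ 3 ∣ z → constantCoeff (Polynomial.aeval z (HZ p)) = 1 := by
      intro z hz
      rw [HZ_eval, map_sum, sum_eq_single_of_mem 0 (mem_range.mpr hp0)]
      · simp
      · intro j _ hj
        rw [map_mul, map_pow, c0 z hz, zero_pow hj, mul_zero]
    have cu : constantCoeff u = g' := by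
      rw [hu]
      unfold uS
      rw [map_mul, constantCoeff_C, ← coeff_zero_eq_constantCoeff_apply
        (PowerSeries.rescale (-3 * g') (PowerSeries.mk 1)), coeff_rescale, pow_zero, one_mul,
        coeff_mk, Pi.one_apply, mul_one]
    have cvi : constantCoeff vi = v' := by
      have h1 := congrArg (constantCoeff (R := A)) hvi
      rw [map_mul, map_one, ← coeff_zero_eq_constantCoeff_apply (io (vR r)), io_coeff, vR_zero] at h1
      calc constantCoeff vi = ((550 + 246 * r) * v') * constantCoeff vi := by rw [hv', one_mul]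
        _ = v' * ((550 + 246 * r) * constantCoeff vi) := by ring
        _ = v' := by rw [h1, mul_one]
    have cf : constantCoeff (io (f1 r)) = 10 * (20 + 9 * r) ^ 2 := by
      rw [hf]
      simp only [map_add, map_mul, map_pow, map_ofNat, constantCoeff_X, constantCoeff_C]
      ring
    have cd : constantCoeff (d⁄dX A ξ) = (2073640000 + 927360000 * r) * v' ^ 3 := by
      rw [hdξ, map_mul, map_pow, cvi, ← coeff_zero_eq_constantCoeff_apply (io (wR r)), io_coeff,
        wR_zero]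
    rw [map_mul, map_add, map_mul, map_mul, map_mul, cf, cu, cH z1 hX1, cH z2 hX2, cd,
      constantCoeff_C, mul_one, mul_one]
    have key : i125 * ((2073640000 + 927360000 * r) * v' ^ 3) = g' := by
      have e1 : (2073640000 + 927360000 * r) * (20 + 9 * r) = 125 * (550 + 246 * r) ^ 3 := by
        linear_combination (-(125 * (246 ^ 3 * r + 3 * 550 * 246 ^ 2) - 9 * 927360000)) * hr
      have e2 : ((550 + 246 * r) * v') ^ 3 = 1 := by rw [hv', one_pow]
      linear_combination (-(i125 * ((2073640000 + 927360000 * r) * v' ^ 3))) * hg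
        + (i125 * v' ^ 3 * g') * e1 + (125 * i125 * g') * e2 + g' * h125
    rw [key]
    have e3 : (10 * (20 + 9 * r) ^ 2 * (g' + g')) = 20 * (20 + 9 * r) := by
      linear_combination (20 * (20 + 9 * r)) * hg
    rw [e3]
    exact h20.mul (IsUnit.of_mul_eq_one _ hg)
  have hdvd : X ^ (3 * p) ∣ (io (f1 r) * (u * H1 + C i125 * H2 * d⁄dX A ξ))
      * (u * H1 - C i125 * H2 * d⁄dX A ξ) := by
    refine ⟨10 * c1 - 10 * c2, ?_⟩
    linear_combination k1 - k2
  exact hunit.dvd_mul_left.mp hdvd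

end

end Pool.Agent.MP5c57f5
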