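import Pool.Agent.Lib.MP_5c57f5_nt.Ser2

/-!
Power series: the `p`-th power of the isogeny.
-/

namespace Pool.Agent.MP5c57f5

open Finset PowerSeries

section

variable {A : Type*} [CommRing A]

/-- the first two coefficients of the isogeny -/
theorem first_two (r g' i2 : A) (hr : r ^ 2 = 5) (hg : (20 + 9 * r) * g' = 1) (h2 : 2 * i2 = 1) :
    Polynomial.X ^ 3 ∣ uR r - vR r ^ 2 * (Polynomial.C (125 * g') * Polynomial.X
      + Polynomial.C (-375 * g' ^ 2 * i2) * Polynomial.X ^ 2) := by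
  have e1 : (550 + 246 * r) ^ 2 * (125 * g') = 1885000 + 843000 * r := by
    linear_combination (125 * 246 ^ 2 * g' - 9 * 843000 * g') * hr + (1885000 + 843000 * r) * hg
  have e2 : (550 + 246 * r) ^ 2 * (-375 * g' ^ 2 * i2)
      + 2 * (550 + 246 * r) * (35 + 15 * r) * (125 * g') = 164500 + 73500 * r := by
    linear_combination (g' ^ 2 * i2 * (10507500 + 4698000 * r)) * hr
      + (-250 * (550 + 246 * r) * (35 + 15 * r) * g'
        + (164500 + 73500 * r) * (1 + (20 + 9 * r) * g')) * hg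
      + (-250 * (550 + 246 * r) * (35 + 15 * r) * g' * ((20 + 9 * r) * g')
        + (164500 + 73500 * r) * ((20 + 9 * r) * g') ^ 2) * h2
  have key : uR r - vR r ^ 2 * (Polynomial.C (125 * g') * Polynomial.X
      + Polynomial.C (-375 * g' ^ 2 * i2) * Polynomial.X ^ 2)
      = Polynomial.C ((1885000 + 843000 * r) - (550 + 246 * r) ^ 2 * (125 * g')) * Polynomial.X
      + Polynomial.C ((164500 + 73500 * r) - ((550 + 246 * r) ^ 2 * (-375 * g' ^ 2 * i2)
      + 2 * (550 + 246 * r) * (35 + 15 * r) * (125 * g'))) * Polynomial.X ^ 2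
      + Polynomial.X ^ 3 * (Polynomial.X ^ 2 + Polynomial.C (100 + 30 * r) * Polynomial.X
        + Polynomial.C (5250 + 2550 * r)
        - Polynomial.C ((35 + 15 * r) ^ 2 + 2 * (550 + 246 * r)) * Polynomial.C (125 * g')
        - Polynomial.C (2 * (550 + 246 * r) * (35 + 15 * r)) * Polynomial.C (-375 * g' ^ 2 * i2)
        - (2 * Polynomial.C (35 + 15 * r) + Polynomial.X)
          * Polynomial.C (125 * g') * Polynomial.X
        - (Polynomial.C ((35 + 15 * r) ^ 2 + 2 * (550 + 246 * r))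
          + 2 * Polynomial.C (35 + 15 * r) * Polynomial.X + Polynomial.X ^ 2)
          * Polynomial.C (-375 * g' ^ 2 * i2) * Polynomial.X) := by
    unfold uR vR
    simp only [Polynomial.C_add, Polynomial.C_mul, Polynomial.C_sub, Polynomial.C_pow,
      Polynomial.C_ofNat, Polynomial.C_neg]
    ring
  rw [key, e1, e2, sub_self, sub_self, Polynomial.C_0, zero_mul, zero_mul, zero_add, zero_add]
  exact dvd_mul_right _ _

/-- the first two terms, expanded -/
noncomputable def YY (p : ℕ) (g' i2 : A) : Polynomial A :=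
  Polynomial.C (125 * g') * Polynomial.X ^ p + Polynomial.C (-375 * g' ^ 2 * i2) * Polynomial.X ^ (2 * p)

theorem first_two_expand (p : ℕ) (r g' i2 : A) (hr : r ^ 2 = 5) (hg : (20 + 9 * r) * g' = 1)
    (h2 : 2 * i2 = 1) :
    Polynomial.X ^ (3 * p) ∣ Polynomial.expand A p (uR r)
      - Polynomial.expand A p (vR r) ^ 2 * YY p g' i2 := by
  obtain ⟨c, hc⟩ := first_two r g' i2 hr hg h2
  refine ⟨Polynomial.expand A p c, ?_⟩
  have h := congrArg (Polynomial.expand A p) hc
  simp only [map_sub, map_mul, map_pow, Polynomial.expand_X, Polynomial.expand_C,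
    map_add] at h
  have e3 : (Polynomial.X : Polynomial A) ^ (3 * p) = (Polynomial.X ^ p) ^ 3 := by
    rw [← pow_mul, mul_comm]
  have e2 : (Polynomial.X : Polynomial A) ^ (2 * p) = (Polynomial.X ^ p) ^ 2 := by
    rw [← pow_mul, mul_comm]
  unfold YY
  rw [e3, e2, Polynomial.C_mul, Polynomial.C_mul, Polynomial.C_mul, Polynomial.C_pow]
  exact h

/-- the second polynomial of the `p`-th power -/
noncomputable def TH (p : ℕ) (r' g' i2 : A) (U1 V1 : Polynomial A) : Polynomial A :=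
  U1 - 2 * V1 * Polynomial.expand A p (vR r') * YY p g' i2
    - Polynomial.C (p : A) * V1 ^ 2 * YY p g' i2

theorem xi_pow (p : ℕ) (r r' g' i2 : A) (hr' : r' ^ 2 = 5)
    (hg : (20 + 9 * r') * g' = 1) (h2 : 2 * i2 = 1) (U1 V1 : Polynomial A)
    (hU : uR r ^ p = Polynomial.expand A p (uR r') + Polynomial.C (p : A) * U1)
    (hV : vR r ^ p = Polynomial.expand A p (vR r') + Polynomial.C (p : A) * V1)
    (vi ξ : A⟦X⟧) (hvi : io (vR r) * vi = 1) (hξ : ξ = io (uR r) * vi ^ 2) :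
    X ^ (3 * p) ∣ ξ ^ p - (io (YY p g' i2) + C (p : A) * (vi ^ (2 * p) * io (TH p r' g' i2 U1 V1))) := by
  obtain ⟨c, hc⟩ := first_two_expand p r' g' i2 hr' hg h2
  have hc' := congrArg (io (A := A)) hc
  have hU' := congrArg (io (A := A)) hU
  have hV' := congrArg (io (A := A)) hV
  have hT : io (TH p r' g' i2 U1 V1) = io U1 - 2 * io V1 * io (Polynomial.expand A p (vR r'))
      * io (YY p g' i2) - C (p : A) * io V1 ^ 2 * io (YY p g' i2) := by
    unfold TH
    simp only [map_sub, map_mul, map_pow, map_ofNat, io_C]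
  simp only [map_sub, map_mul, map_pow, map_add, io_C, io_X] at hc' hU' hV'
  have hone : (io (vR r) * vi) ^ (2 * p) = 1 := by rw [hvi, one_pow]
  rw [mul_pow] at hone
  have e1 : ξ ^ p = io (uR r) ^ p * vi ^ (2 * p) := by
    rw [hξ, mul_pow, ← pow_mul]
  have e2 : io (vR r) ^ (2 * p) = (io (vR r) ^ p) ^ 2 := by rw [← pow_mul, mul_comm]
  rw [e2, hV'] at hone
  refine ⟨vi ^ (2 * p) * io c, ?_⟩
  rw [e1, hU', hT]
  linear_combination (vi ^ (2 * p)) * hc' + (io (YY p g' i2)) * hone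

lemma YY_coeff (p : ℕ) (hp0 : 0 < p) (g' i2 : A) :
    (YY p g' i2).coeff p = 125 * g' ∧ (YY p g' i2).coeff (2 * p) = -375 * g' ^ 2 * i2 := by
  unfold YY
  constructor
  · rw [Polynomial.coeff_add, Polynomial.coeff_C_mul_X_pow, Polynomial.coeff_C_mul_X_pow,
      if_pos rfl, if_neg (by omega), add_zero]
  · rw [Polynomial.coeff_add, Polynomial.coeff_C_mul_X_pow, Polynomial.coeff_C_mul_X_pow,
      if_neg (by omega), if_pos rfl, zero_add]

/-- the transferred series -/
noncomputable def PSI (p m : ℕ) (τ iv : ℕ → A) (ξ vi : A⟦X⟧) (Th : Polynomial A) : A⟦X⟧ :=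
  (∑ j ∈ range p, if j = m then 0 else C (τ j * iv (3 * j + 1)) * ξ ^ (3 * j + 1))
    + C (τ m) * (vi ^ (2 * p) * io Th)

theorem e_relations [IsDomain A] (p : ℕ) [hp : Fact p.Prime] (hpA : (p : A) ≠ 0) (iv : ℕ → A)
    (hiv : ∀ n, ¬ p ∣ n → (n : A) * iv n = 1) (m : ℕ) (hm : 3 * m + 1 = p)
    (r r' g' gt i2 i40 i125 i625 v' : A) (hr : r ^ 2 = 5) (hr' : r' ^ 2 = 5)
    (hg : (20 + 9 * r) * g' = 1) (hgt : (20 + 9 * r') * gt = 1) (h2 : 2 * i2 = 1)
    (h40 : 40 * i40 = 1) (h125 : 125 * i125 = 1)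
    (h625 : 625000 * i625 = 1) (h20 : IsUnit (20 : A)) (hv' : (550 + 246 * r) * v' = 1)
    (U1 V1 : Polynomial A)
    (hU : uR r ^ p = Polynomial.expand A p (uR r') + Polynomial.C (p : A) * U1)
    (hV : vR r ^ p = Polynomial.expand A p (vR r') + Polynomial.C (p : A) * V1)
    (vi ξ : A⟦X⟧) (hvi : io (vR r) * vi = 1) (hξ : ξ = io (uR r) * vi ^ 2) :
    coeff (p - 1) (GS p g' i40) = p * coeff p
        (PSI p m (tauA i125 i625) iv ξ vi (TH p r' gt i2 U1 V1))
      + tauA i125 i625 m * (125 * gt) ∧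
    coeff (2 * p - 1) (GS p g' i40) = 2 * p * coeff (2 * p)
        (PSI p m (tauA i125 i625) iv ξ vi (TH p r' gt i2 U1 V1))
      + 2 * tauA i125 i625 m * (-375 * gt ^ 2 * i2) := by
  have hp0 := hp.out.pos
  have hG := G_rel p hp0 r g' i40 i125 i625 v' hr hg h40 h125 h625 h20 hv' vi ξ hvi hξ
  have ht := transfer p hpA iv hiv m hm (tauA i125 i625) ξ _ hG
  have hx := xi_pow p r r' gt i2 hr' hgt h2 U1 V1 hU hV vi ξ hvi hξ
  have hY := YY_coeff p hp0 gt i2
  have c1 := X_pow_dvd_iff.mp hx p (by omega)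
  have c2 := X_pow_dvd_iff.mp hx (2 * p) (by omega)
  rw [map_sub, sub_eq_zero, map_add, io_coeff, hY.1, coeff_C_mul] at c1
  rw [map_sub, sub_eq_zero, map_add, io_coeff, hY.2, coeff_C_mul] at c2
  have t1 := ht 1 (by norm_num) (by norm_num)
  have t2 := ht 2 (by norm_num) (by norm_num)
  rw [mul_one] at t1
  rw [mul_comm p 2] at t2
  unfold PSI
  rw [map_add, map_add, coeff_C_mul, coeff_C_mul]
  constructor
  · rw [t1, c1]
    push_cast
    ring
  · rw [t2, c2]
    push_cast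
    ring

end

end Pool.Agent.MP5c57f5
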