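import Pool.Agent.Lib.MP_5c57f5_nt.Ser3
import Pool.Agent.Lib.MP_5c57f5_nt.KS

/-!
Power series in characteristic `p`: the two coefficients.
-/

namespace Pool.Agent.MP5c57f5

open Finset PowerSeries

section

variable {K : Type*} [Field K] (p : ℕ) [hp : Fact p.Prime] [CharP K p]

omit hp [CharP K p] in
lemma PSI_SS (n m : ℕ) (hn : 2 * n + 1 = p) (ρ : K) (τ iv : ℕ → K)
    (hτ : ∀ j, j ≤ n → τ j = tauK K n j) (hτ0 : ∀ j, n < j → j < p → τ j = 0)
    (hiv : ∀ j, j < p → j ≠ m → iv (3 * j + 1) = (((3 * j + 1 : ℕ) : K))⁻¹)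
    (vi ξ : K⟦X⟧) (hvi : io (vR ρ) * vi = 1) (hξ : ξ = io (uR ρ) * vi ^ 2) :
    io (vR ρ) ^ (3 * p) * (∑ j ∈ range p, if j = m then 0 else
      C (τ j * iv (3 * j + 1)) * ξ ^ (3 * j + 1)) = io (SS ρ n m) := by
  have h1 : (∑ j ∈ range p, if j = m then 0 else C (τ j * iv (3 * j + 1)) * ξ ^ (3 * j + 1))
      = ∑ j ∈ range (n + 1), if j = m then 0 else C (τ j * iv (3 * j + 1)) * ξ ^ (3 * j + 1) := by
    symm
    apply sum_subset
    · intro j hj
      rw [mem_range] at hj ⊢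
      omega
    · intro j hj hj'
      rw [mem_range] at hj hj'
      rw [hτ0 j (by omega) hj]
      simp
  rw [h1]
  unfold SS
  rw [map_sum, mul_sum]
  apply sum_congr rfl
  intro j hj
  rw [mem_range] at hj
  split_ifs with h
  · rw [mul_zero, map_zero]
  · rw [hτ j (by omega), hiv j (by omega) h, map_mul io, map_mul io, map_pow, map_pow, io_C, hξ]
    have e1 : io (vR ρ) ^ (3 * p) = io (vR ρ) ^ (6 * (n - j) + 1) * io (vR ρ) ^ (2 * (3 * j + 1)) := by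
      rw [← pow_add]
      congr 1
      omega
    have e2 : (io (vR ρ) * vi) ^ (2 * (3 * j + 1)) = 1 := by rw [hvi, one_pow]
    rw [mul_pow] at e2
    rw [e1, mul_pow, ← pow_mul]
    linear_combination (C (tauK K n j * ((3 * j + 1 : ℕ) : K)⁻¹) * io (uR ρ) ^ (3 * j + 1)
      * io (vR ρ) ^ (6 * (n - j) + 1)) * e2

theorem K_side [IsAlgClosed K] (ρ : K) (hρ : ρ ^ 2 = 5) (n m : ℕ) (hn : 2 * n + 1 = p)
    (hm : 3 * m + 1 = p) (h2 : (2 : K) ≠ 0) (h3 : (3 : K) ≠ 0) (h5 : (5 : K) ≠ 0)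
    (hco1 : IsCoprime (wR ρ) (vR ρ)) (hco2 : IsCoprime (wR ρ) (Polynomial.derivative (wR ρ)))
    (U1 V1 Th YK : Polynomial K)
    (hU : Polynomial.derivative U1 = uR ρ ^ (p - 1) * Polynomial.derivative (uR ρ)
      - Polynomial.X ^ (p - 1) * Polynomial.derivative (uR ρ) ^ p)
    (hV : Polynomial.derivative V1 = vR ρ ^ (p - 1) * Polynomial.derivative (vR ρ)
      - Polynomial.X ^ (p - 1) * Polynomial.derivative (vR ρ) ^ p)
    (hU0 : U1.coeff 0 = 0) (hUd : U1.natDegree ≤ 5 * p) (hVd : V1.natDegree ≤ 2 * p) (q : K)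
    (hW : wR ρ ∣ vR ρ ^ (5 * p) * (Polynomial.C q * (uR ρ ^ p * vR ρ ^ p)
      + 468750 * (U1 * vR ρ ^ p - 2 * (uR ρ ^ p * V1)))) (d : K)
    (hd : 3 * ∑ j ∈ range (n + 1), (if j = m then 0 else (-1) ^ j * (n.choose j : K)
      * (((3 * j + 1 : ℕ) : K))⁻¹) = (n.choose m : K) * d)
    (hTh : Th = U1 - 2 * V1 * vR ρ ^ p * YK)
    (hY : Polynomial.X ^ (3 * p) ∣ uR ρ ^ p - (vR ρ ^ p) ^ 2 * YK)
    (gK : K) (hgK : (20 + 9 * ρ) * gK = 1)
    (τ iv : ℕ → K)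
    (hτ : ∀ j, j ≤ n → τ j = tauK K n j) (hτ0 : ∀ j, n < j → j < p → τ j = 0)
    (hiv : ∀ j, j < p → j ≠ m → iv (3 * j + 1) = (((3 * j + 1 : ℕ) : K))⁻¹)
    (vi ξ : K⟦X⟧) (hvi : io (vR ρ) * vi = 1) (hξ : ξ = io (uR ρ) * vi ^ 2) :
    ∃ a l : K, a ^ p = tauK K n m * (d / 3 - q / 468750) ∧
      coeff p (PSI p m τ iv ξ vi Th) = ((a + l) * (125 * gK)) ^ p ∧
      coeff (2 * p) (PSI p m τ iv ξ vi Th) = ((a + 2 * l) * (-375 * gK ^ 2 * 2⁻¹)) ^ p := by
  have hp0 := hp.out.pos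
  obtain ⟨a, l, Mt, hM0, hMp, hM2, ha, hS⟩ := core_shape p ρ hρ n m hn hm h2 h3 h5 hco1 hco2 U1 V1
    hU hV hU0 hUd hVd q hW d hd
  refine ⟨a, l, ha, ?_⟩
  have hdξ := xi_deriv ρ hρ vi ξ hvi hξ
  -- first two coefficients of ξ
  obtain ⟨c0, hc0⟩ := first_two ρ gK 2⁻¹ hρ hgK (mul_inv_cancel₀ h2)
  have hξ3 : X ^ 3 ∣ ξ - (C (125 * gK) * X + C (-375 * gK ^ 2 * 2⁻¹) * X ^ 2) := by
    refine ⟨vi ^ 2 * io c0, ?_⟩
    have h1 := congrArg (io (A := K)) hc0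
    simp only [map_sub, map_mul io, map_pow io, map_add io, io_C, io_X] at h1
    have e2 : (io (vR ρ) * vi) ^ 2 = 1 := by rw [hvi, one_pow]
    rw [hξ]
    linear_combination (vi ^ 2) * h1 + (C (125 * gK) * X + C (-375 * gK ^ 2 * 2⁻¹) * X ^ 2) * e2
  have hx1 : coeff 1 ξ = 125 * gK := by
    have h1 := X_pow_dvd_iff.mp hξ3 1 (by norm_num)
    rw [map_sub, sub_eq_zero] at h1
    rw [h1, map_add, coeff_C_mul, coeff_C_mul, coeff_X_pow]
    simp
  have hx2 : coeff 2 ξ = -375 * gK ^ 2 * 2⁻¹ := by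
    have h1 := X_pow_dvd_iff.mp hξ3 2 (by norm_num)
    rw [map_sub, sub_eq_zero] at h1
    rw [h1, map_add, coeff_C_mul, coeff_C_mul, coeff_X_pow, coeff_X]
    simp
  -- the series
  set P := PSI p m τ iv ξ vi Th with hP
  set Sr : K⟦X⟧ := C a * ξ + C l * (X * d⁄dX K ξ) with hSr
  have hone : (io (vR ρ) * vi) ^ (3 * p) = 1 := by rw [hvi, one_pow]
  rw [mul_pow] at hone
  have hτm : τ m = tauK K n m := hτ m (by omega)
  have hmain : X ^ (3 * p) ∣ P - (Sr ^ p + (d⁄dX K ξ) ^ p * io Mt) := by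
    obtain ⟨c, hc⟩ := hY
    have hY' := congrArg (io (A := K)) hc
    simp only [map_sub, map_mul io, map_pow io, io_X] at hY'
    have hS' := congrArg (io (A := K)) hS
    simp only [map_sub, map_mul io, map_pow io, map_add io, io_C, io_X, map_ofNat] at hS'
    have h1 := PSI_SS p n m hn ρ τ iv hτ hτ0 hiv vi ξ hvi hξ
    have hTh' : io Th = io U1 - 2 * io V1 * io (vR ρ) ^ p * io YK := by
      rw [hTh]
      simp only [map_sub, map_mul io, map_pow io, map_ofNat]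
    have h4 : io (vR ρ) ^ (3 * p) * P = io (SS ρ n m)
        + C (tauK K n m) * (io (vR ρ) ^ p * io Th) := by
      rw [hP]
      unfold PSI
      rw [mul_add, h1, hτm]
      have e2 : (io (vR ρ) * vi) ^ (2 * p) = 1 := by rw [hvi, one_pow]
      rw [mul_pow] at e2
      have e3 : io (vR ρ) ^ (3 * p) = io (vR ρ) ^ p * io (vR ρ) ^ (2 * p) := by
        rw [← pow_add]
        congr 1
        omega
      rw [e3]
      linear_combination (C (tauK K n m) * io (vR ρ) ^ p * io Th) * e2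
    have h6 : vi ^ (3 * p) * (C a * (io (uR ρ) * io (vR ρ)) + C l * (X * io (wR ρ))) ^ p = Sr ^ p := by
      rw [pow_mul, ← mul_pow, hSr, hdξ, hξ]
      congr 1
      linear_combination (C a * io (uR ρ) * vi ^ 2) * hvi
    have h7 : vi ^ (3 * p) * (io (wR ρ) ^ p * io Mt) = (d⁄dX K ξ) ^ p * io Mt := by
      rw [hdξ, mul_pow, ← pow_mul]
      ring
    refine ⟨vi ^ (3 * p) * (C (tauK K n m) * (2 * io V1 * io c)), ?_⟩
    rw [hTh'] at h4
    linear_combination (vi ^ (3 * p)) * h4 - P * hone + (vi ^ (3 * p)) * hS' + h6 + h7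
      + (vi ^ (3 * p) * C (tauK K n m) * (2 * io V1)) * hY'
  have hM0' : coeff 0 (io Mt) = 0 := by rw [io_coeff, hM0]
  have hMp' : coeff p (io Mt) = 0 := by rw [io_coeff, hMp]
  have hM2' : coeff (2 * p) (io Mt) = 0 := by rw [io_coeff, hM2]
  have k1 := pow_char_coeff p Sr (io Mt) hM0' hMp' hM2'
  have k2 := pow_char_coeff p (d⁄dX K ξ) (io Mt) hM0' hMp' hM2'
  have s1 : coeff 1 Sr = (a + l) * (125 * gK) := by
    rw [hSr, map_add, coeff_C_mul, coeff_C_mul, hx1, show (1 : ℕ) = 0 + 1 by norm_num,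
      coeff_succ_X_mul, coeff_derivative]
    rw [show (0 : ℕ) + 1 = 1 by norm_num, hx1]
    push_cast
    ring
  have s2 : coeff 2 Sr = (a + 2 * l) * (-375 * gK ^ 2 * 2⁻¹) := by
    rw [hSr, map_add, coeff_C_mul, coeff_C_mul, hx2, show (2 : ℕ) = 1 + 1 by norm_num,
      coeff_succ_X_mul, coeff_derivative]
    rw [show (1 : ℕ) + 1 = 2 by norm_num, hx2]
    push_cast
    ring
  constructor
  · have h1 := X_pow_dvd_iff.mp hmain p (by omega)
    rw [map_sub, sub_eq_zero, map_add, k1.1, k2.2.2.1, add_zero, s1] at h1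
    exact h1
  · have h1 := X_pow_dvd_iff.mp hmain (2 * p) (by omega)
    rw [map_sub, sub_eq_zero, map_add, k1.2.1, k2.2.2.2, add_zero, s2] at h1
    exact h1

end

end Pool.Agent.MP5c57f5
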