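import Pool.Agent.Lib.MP_5c57f5_nt.Ser4
import Pool.Agent.Lib.MP_5c57f5_nt.Sig
import Pool.Agent.Lib.MP_5c57f5_nt.SecDiff
import Pool.Agent.Lib.MP_5c57f5_nt.Bez

/-!
The truncated hypergeometric sum at the point of the isogeny, modulo `p^2`.
-/

namespace Pool.Agent.MP5c57f5

open Finset PowerSeries

section

variable {A : Type*} [CommRing A] [IsDomain A] {K : Type*} [Field K] (p : ℕ) [hp : Fact p.Prime]
  [CharP K p]

/-- the truncated sum -/
def FT (A : Type*) [CommRing A] (p : ℕ) (t : A) : A := ∑ j ∈ range p, (u j : A) * t ^ j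

include hp in
omit [IsDomain A] in
lemma fermat_lift (hpA : (p : A) ≠ 0) (a : ℕ) : ∃ z : A, (a : A) ^ p = a + p * z := by
  have h1 : ((a : ℤ)) ^ p ≡ a [ZMOD p] := by
    have h := ZMod.pow_card (a : ZMod p)
    rw [← ZMod.intCast_eq_intCast_iff]
    push_cast
    exact h
  obtain ⟨c, hc⟩ := h1.symm.dvd
  refine ⟨(c : A), ?_⟩
  have h2 := congrArg (fun z : ℤ => (z : A)) hc
  push_cast at h2
  linear_combination h2

omit [IsDomain A] in
include hp in
lemma coeffs_small (h5 : 5 < p) (a b c : ℕ) : ¬ p ∣ 2 ^ a * 3 ^ b * 5 ^ c := by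
  intro h
  rcases hp.out.dvd_mul.mp h with h1 | h1
  · rcases hp.out.dvd_mul.mp h1 with h2 | h2
    · have := Nat.le_of_dvd (by norm_num) (hp.out.dvd_of_dvd_pow h2)
      omega
    · have := Nat.le_of_dvd (by norm_num) (hp.out.dvd_of_dvd_pow h2)
      omega
  · have := Nat.le_of_dvd (by norm_num) (hp.out.dvd_of_dvd_pow h1)
    omega

/-- the first combination -/
theorem F_comb (t : A) : ∃ z : A, FT A p t
    = 2 * (∑ j ∈ range p, (((2 * j).choose j * (p - 1 - j).choose (2 * j) : ℕ) : A) * t ^ j)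
      - (∑ j ∈ range p, (((2 * j).choose j * (2 * p - 1 - j).choose (2 * j) : ℕ) : A) * t ^ j)
      + p ^ 2 * z := by
  have h : ∀ j, ∃ c : ℤ, j < p → (u j : ℤ) - 2 * ((2 * j).choose j * (p - 1 - j).choose (2 * j) : ℕ)
      + ((2 * j).choose j * (2 * p - 1 - j).choose (2 * j) : ℕ) = (p : ℤ) ^ 2 * c := by
    intro j
    by_cases hj : j < p
    · obtain ⟨c, hc⟩ := second_diff p hp.out j hj
      exact ⟨c, fun _ => hc⟩
    · exact ⟨0, fun h => absurd h hj⟩
  choose c hc using h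
  refine ⟨∑ j ∈ range p, (c j : A) * t ^ j, ?_⟩
  unfold FT
  rw [mul_sum, mul_sum, ← sum_sub_distrib, ← sum_add_distrib]
  apply sum_congr rfl
  intro j hj
  rw [mem_range] at hj
  have h1 := congrArg (fun z : ℤ => (z : A)) (hc j hj)
  push_cast at h1 ⊢
  linear_combination (t ^ j) * h1

end

end Pool.Agent.MP5c57f5
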