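import Pool.Agent.Lib.MP_5c57f5_nt.Ser5
import Pool.Agent.Lib.MP_5c57f5_nt.ModP

/-!
The truncated hypergeometric sum at the point of the isogeny, modulo `p^2`: the bridge.
-/

namespace Pool.Agent.MP5c57f5

open Finset PowerSeries

section

variable {A : Type*} [CommRing A] [IsDomain A] {K : Type*} [Field K] (p : ℕ) [hp : Fact p.Prime]
  [CharP K p]

omit [IsDomain A] [CharP K p] hp in
lemma map_PSI (m : ℕ) (π : A →+* K) (τ iv : ℕ → A) (ξ vi : A⟦X⟧) (Th : Polynomial A) :
    PowerSeries.map π (PSI p m τ iv ξ vi Th)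
      = PSI p m (fun j => π (τ j)) (fun j => π (iv j)) (PowerSeries.map π ξ) (PowerSeries.map π vi)
        (Th.map π) := by
  have hio : ∀ f : Polynomial A, PowerSeries.map π (io f) = io (f.map π) := by
    intro f
    exact (Polynomial.polynomial_map_coe).symm
  unfold PSI
  rw [map_add, map_sum, map_mul, map_mul, map_pow, hio, map_C]
  congr 1
  apply sum_congr rfl
  intro j _
  split_ifs
  · exact map_zero _
  · rw [map_mul, map_pow, map_C, map_mul]

/-- the two coefficients modulo the kernel -/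
theorem two_coeffs [IsAlgClosed K] (π : A →+* K) (hu : ∀ n : ℕ, ¬ p ∣ n → IsUnit (n : A))
    (hpA : (p : A) ≠ 0) (r r' d0 : A) (hr : r ^ 2 = 5) (hr' : r' ^ 2 = 5)
    (hrp : r ^ p = r' + p * d0) (h5 : 5 < p) (n m : ℕ) (hn : 2 * n + 1 = p) (hm : 3 * m + 1 = p)
    (dd q : ℤ) (hdd : (4 : ℤ) ^ (p - 1) - 1 = p * dd)
    (hq : (156250 : ℤ) - 156250 ^ p = p * q) (g' gt i2 i40 i125 i625 v' : A)
    (hg : (20 + 9 * r) * g' = 1) (hgt : (20 + 9 * r') * gt = 1) (hi2 : 2 * i2 = 1)
    (h40 : 40 * i40 = 1) (h125 : 125 * i125 = 1)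
    (h625 : 625000 * i625 = 1) (hv' : (550 + 246 * r) * v' = 1) :
    ∃ (E1 E2 : A) (a l : K),
      coeff (p - 1) (GS p g' i40) = p * E1 + tauA i125 i625 m * (125 * gt) ∧
      coeff (2 * p - 1) (GS p g' i40) = 2 * p * E2
        + 2 * tauA i125 i625 m * (-375 * gt ^ 2 * i2) ∧
      a ^ p = tauK K n m * ((dd : K) / 3 - (q : K) / 468750) ∧
      π (tauA i125 i625 m) = tauK K n m ∧
      π E1 = ((a + l) * (125 * π g')) ^ p ∧
      π E2 = ((a + 2 * l) * (-375 * π g' ^ 2 * 2⁻¹)) ^ p := by
  have hp0 := hp.out.pos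
  have hp2 := hp.out.two_le
  obtain ⟨k2, k3, k5⟩ := small_ne (K := K) p h5
  have hodd : Odd p := hp.out.odd_of_ne_two (by omega)
  -- inverses
  have hinv : ∀ k : ℕ, ∃ x : A, ¬ p ∣ k → (k : A) * x = 1 := by
    intro k
    by_cases h : p ∣ k
    · exact ⟨0, fun h' => absurd h h'⟩
    · obtain ⟨w, hw⟩ := hu k h
      exact ⟨((w⁻¹ : Aˣ) : A), fun _ => by rw [← hw, Units.mul_inv]⟩
  choose iv hiv using hinv
  have hnu : ¬ IsUnit (p : A) := by
    intro h
    have h1 := h.map π
    rw [map_natCast, CharP.cast_eq_zero K p] at h1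
    exact not_isUnit_zero h1
  have hu20 : IsUnit (20 : A) := by
    have h1 : ¬ p ∣ 20 := by
      have := coeffs_small p h5 2 0 1
      rwa [show 2 ^ 2 * 3 ^ 0 * 5 ^ 1 = 20 by norm_num] at this
    have := hu 20 h1
    exact_mod_cast this
  -- the series
  have hvu : IsUnit (io (vR r)) := by
    rw [isUnit_iff_constantCoeff, ← coeff_zero_eq_constantCoeff_apply, io_coeff, vR_zero]
    exact IsUnit.of_mul_eq_one _ hv'
  obtain ⟨vi, hvi⟩ := hvu.exists_right_inv
  set ξ := io (uR r) * vi ^ 2 with hξ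
  obtain ⟨U1, V1, hU, hV, dU, dV, hU0, hUd, hVd, hW⟩ :=
    lifts p π hpA hnu r r' d0 hr hr' hrp hodd q hq
  obtain ⟨he1, he2⟩ := e_relations p hpA iv hiv m hm r r' g' gt i2 i40 i125 i625 v' hr hr' hg hgt
    hi2 h40 h125 h625 hu20 hv' U1 V1 hU hV vi ξ hvi hξ
  -- the field side
  have hρ : π r ^ 2 = 5 := by rw [← map_pow, hr, map_ofNat]
  have hρ' : π r' = π r ^ p := by
    rw [← map_pow, hrp, map_add, map_mul, map_natCast, CharP.cast_eq_zero K p, zero_mul, add_zero]
  have hio : ∀ f : Polynomial A, PowerSeries.map π (io f) = io (f.map π) := by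
    intro f
    exact (Polynomial.polynomial_map_coe).symm
  have hvK : io (vR (π r)) * PowerSeries.map π vi = 1 := by
    rw [← vR_map, ← hio, ← map_mul, hvi, map_one]
  have hξK : PowerSeries.map π ξ = io (uR (π r)) * (PowerSeries.map π vi) ^ 2 := by
    rw [hξ, map_mul, map_pow, hio, uR_map]
  have hexp : ∀ f : K → Polynomial K, (∀ φ : K →+* K, ∀ x, (f x).map φ = f (φ x)) →
      Polynomial.expand K p (f (π r')) = f (π r) ^ p := by
    intro f hf
    rw [← Polynomial.map_frobenius_expand p, Polynomial.map_expand, hf, frobenius_def, hρ']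
  have hgtK : (20 + 9 * π r') * π gt = 1 := by
    have := congrArg π hgt
    simpa only [map_mul, map_add, map_ofNat, map_one] using this
  have hgK : (20 + 9 * π r) * π g' = 1 := by
    have := congrArg π hg
    simpa only [map_mul, map_add, map_ofNat, map_one] using this
  have hi2K : 2 * π i2 = 1 := by
    have := congrArg π hi2
    simpa only [map_mul, map_ofNat, map_one] using this
  have hrK' : π r' ^ 2 = 5 := by rw [← map_pow, hr', map_ofNat]
  have hYK := first_two_expand p (π r') (π gt) (π i2) hrK' hgtK hi2K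
  rw [hexp uR (fun φ x => uR_map φ x), hexp vR (fun φ x => vR_map φ x)] at hYK
  have hTh : (TH p r' gt i2 U1 V1).map π
      = U1.map π - 2 * V1.map π * vR (π r) ^ p * YY p (π gt) (π i2) := by
    have hYm : (YY p gt i2).map π = YY p (π gt) (π i2) := by
      unfold YY
      simp only [Polynomial.map_add, Polynomial.map_mul, Polynomial.map_pow, Polynomial.map_X,
        Polynomial.map_C, map_mul, map_neg, map_ofNat, map_pow, Polynomial.map_ofNat,
        Polynomial.map_neg]
    unfold TH
    rw [Polynomial.map_sub, Polynomial.map_sub, Polynomial.map_mul, Polynomial.map_mul,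
      Polynomial.map_mul, Polynomial.map_mul, Polynomial.map_mul, Polynomial.map_ofNat,
      Polynomial.map_C, map_natCast, CharP.cast_eq_zero K p, Polynomial.map_expand, vR_map,
      hexp vR (fun φ x => vR_map φ x), hYm, Polynomial.C_0]
    ring
  obtain ⟨co1, co2⟩ := coprime_WV (π r) hρ k2 k3 k5
  have hd : 3 * ∑ j ∈ range (n + 1), (if j = m then 0 else (-1) ^ j * (n.choose j : K)
      * (((3 * j + 1 : ℕ) : K))⁻¹) = (n.choose m : K) * (dd : K) := by
    have h1 := congrArg (ZMod.castHom (dvd_refl p) K) (sigma_zero p n m hn hm (by omega) dd hdd)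
    rw [map_mul, map_sum, map_mul, map_natCast, map_intCast, map_ofNat] at h1
    rw [← h1]
    congr 1
    apply sum_congr rfl
    intro j _
    split_ifs
    · exact (map_zero _).symm
    · rw [map_mul, map_mul, map_pow, map_neg, map_one, map_natCast, map_inv₀, map_natCast]
  have h156 : (156250 : K) ≠ 0 := by
    rw [show (156250 : K) = 2 * 5 ^ 7 by norm_num]
    exact mul_ne_zero k2 (pow_ne_zero _ k5)
  have h125K : π i125 = 125⁻¹ := by
    apply eq_inv_of_mul_eq_one_right
    have := congrArg π h125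
    simpa only [map_mul, map_ofNat, map_one] using this
  have h625K : π i625 = 625000⁻¹ := by
    apply eq_inv_of_mul_eq_one_right
    have := congrArg π h625
    simpa only [map_mul, map_ofNat, map_one] using this
  have h4K : (4 : K) ≠ 0 := by
    rw [show (4 : K) = 2 * 2 by norm_num]
    exact mul_ne_zero k2 k2
  have hτ : ∀ j, j ≤ n → π (tauA i125 i625 j) = tauK K n j := by
    intro j hj
    have h1 := half_choose (K := K) p n j hn hj
    unfold tauA tauK
    rw [map_mul, map_mul, map_mul, map_pow, map_pow, map_neg, map_one, map_natCast, h125K, h625K,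
      ← h1]
    have h2 : (625000⁻¹ : K) ^ j * 4 ^ j = (156250⁻¹) ^ j := by
      rw [← mul_pow]
      congr 1
      rw [show (625000 : K) = 4 * 156250 by norm_num, mul_inv, mul_comm (4⁻¹ : K), mul_assoc,
        inv_mul_cancel₀ h4K, mul_one]
    linear_combination ((n.choose j : K) * 125⁻¹) * h2
  have hτ0 : ∀ j, n < j → j < p → π (tauA i125 i625 j) = 0 := by
    intro j hj hjp
    have h1 : (((2 * j).choose j : ℕ) : K) = 0 := by
      rw [CharP.cast_eq_zero_iff K p]
      have h2 : (2 * j).choose j * j.factorial * (2 * j - j).factorial = (2 * j).factorial :=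
        Nat.choose_mul_factorial_mul_factorial (by omega)
      rw [show 2 * j - j = j by omega] at h2
      have h3 : p ∣ (2 * j).factorial := hp.out.dvd_factorial.mpr (by omega)
      have h4 : ¬ p ∣ j.factorial := by
        rw [hp.out.dvd_factorial]
        omega
      rw [← h2] at h3
      rcases hp.out.dvd_mul.mp h3 with h6 | h6
      · rcases hp.out.dvd_mul.mp h6 with h7 | h7
        · exact h7
        · exact absurd h7 h4
      · exact absurd h6 h4
    unfold tauA
    rw [map_mul, map_mul, map_mul, map_natCast, h1]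
    ring
  have hivK : ∀ j, j < p → j ≠ m → π (iv (3 * j + 1)) = (((3 * j + 1 : ℕ) : K))⁻¹ := by
    intro j hj hjm
    have hnd : ¬ p ∣ 3 * j + 1 := by
      rintro ⟨c, hc⟩
      rcases c with _ | _ | _ | c
      · omega
      · omega
      · omega
      · have : p * (c + 1 + 1 + 1) = p * c + 3 * p := by ring
        have h5 : 0 ≤ p * c := Nat.zero_le _
        omega
    apply eq_inv_of_mul_eq_one_right
    have := congrArg π (hiv _ hnd)
    rwa [map_mul, map_natCast, map_one] at this
  obtain ⟨a, l, ha, h1, h2⟩ := K_side p (π r) hρ n m hn hm k2 k3 k5 co1 co2 (U1.map π) (V1.map π)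
    ((TH p r' gt i2 U1 V1).map π) (YY p (π gt) (π i2)) dU dV hU0 hUd hVd (q : K) hW (dd : K) hd
    hTh hYK (π g') hgK (fun j => π (tauA i125 i625 j)) (fun j => π (iv j)) hτ hτ0 hivK
    (PowerSeries.map π vi) (PowerSeries.map π ξ) hvK hξK
  refine ⟨_, _, a, l, he1, he2, ha, hτ m (by omega), ?_, ?_⟩
  · rw [← coeff_map, map_PSI, h1]
  · rw [← coeff_map, map_PSI, h2]

end

end Pool.Agent.MP5c57f5
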