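import Pool.Agent.Lib.MP_5c57f5_nt.Ser6
import Pool.Agent.Lib.MP_5c57f5_nt.ClauSq
import Pool.Agent.Lib.MP_5c57f5_nt.RingEx

/-!
The value of the truncated hypergeometric sum modulo `p^2`.
-/

namespace Pool.Agent.MP5c57f5

open Finset PowerSeries

section

variable {A : Type*} [CommRing A] [IsDomain A] {K : Type*} [Field K] (p : ℕ) [hp : Fact p.Prime]
  [CharP K p]

theorem F_value [IsAlgClosed K] (π : A →+* K) (hu : ∀ n : ℕ, ¬ p ∣ n → IsUnit (n : A))
    (hpA : (p : A) ≠ 0) (r r' d0 : A) (hr : r ^ 2 = 5) (hr' : r' ^ 2 = 5)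
    (hrp : r ^ p = r' + p * d0) (h5 : 5 < p) (n m : ℕ) (hn : 2 * n + 1 = p) (hm : 3 * m + 1 = p)
    (dd q : ℤ) (hdd : (4 : ℤ) ^ (p - 1) - 1 = p * dd)
    (hq : (156250 : ℤ) - 156250 ^ p = p * q) (i1080 : A) (h1080 : 1080 * i1080 = 1) :
    ∃ y : A, 625000 ^ m * FT A p ((20 + 9 * r) * i1080) = (((2 * m).choose m : ℕ) : A) + p * y ∧
      π y = (((2 * m).choose m : ℕ) : K) * ((dd : K) / 3 - (q : K) / 468750) := by
  have hp0 := hp.out.pos
  have hp2 := hp.out.two_le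
  obtain ⟨k2, k3, k5⟩ := small_ne (K := K) p h5
  have hodd : Odd p := hp.out.odd_of_ne_two (by omega)
  have hev : Even (p - 1) := hp.out.even_sub_one (by omega)
  have hevm : Even m := by
    rw [Nat.even_iff]
    omega
  -- inverses
  have hinv : ∀ a b c : ℕ, ∃ x : A, ((2 ^ a * 3 ^ b * 5 ^ c : ℕ) : A) * x = 1 := by
    intro a b c
    obtain ⟨w, hw⟩ := hu _ (coeffs_small p h5 a b c)
    exact ⟨((w⁻¹ : Aˣ) : A), by rw [← hw, Units.mul_inv]⟩
  obtain ⟨i2, hi2⟩ := hinv 1 0 0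
  obtain ⟨i3, hi3⟩ := hinv 0 1 0
  obtain ⟨i5, hi5⟩ := hinv 0 0 1
  obtain ⟨i40, h40⟩ := hinv 3 0 1
  obtain ⟨i80, h80⟩ := hinv 4 0 1
  obtain ⟨i125, h125⟩ := hinv 0 0 3
  obtain ⟨i625, h625⟩ := hinv 3 0 7
  norm_num at hi2 hi3 hi5 h40 h80 h125 h625
  set g' : A := (9 * r - 20) * i5 with hg'
  set gt : A := (9 * r' - 20) * i5 with hgt'
  set v' : A := -((550 - 246 * r) * i80) with hv'
  have hg : (20 + 9 * r) * g' = 1 := by
    rw [hg']
    linear_combination (81 * i5) * hr + hi5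
  have hgt : (20 + 9 * r') * gt = 1 := by
    rw [hgt']
    linear_combination (81 * i5) * hr' + hi5
  have hv : (550 + 246 * r) * v' = 1 := by
    rw [hv']
    linear_combination (246 ^ 2 * i80) * hr + h80
  obtain ⟨E1, E2, a, l, he1, he2, ha, hτ, hE1, hE2⟩ := two_coeffs p π hu hpA r r' d0 hr hr' hrp h5
    n m hn hm dd q hdd hq g' gt i2 i40 i125 i625 v' hg hgt hi2 h40 h125 h625 hv
  rw [GS_coeff (20 + 9 * r) g' i40 i1080 hg h40 h1080 p p hp0] at he1
  rw [GS_coeff (20 + 9 * r) g' i40 i1080 hg h40 h1080 p (2 * p) (by omega)] at he2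
  set t : A := (20 + 9 * r) * i1080 with ht
  obtain ⟨z, hz⟩ := F_comb p t
  set b1 := ∑ j ∈ range p, (((2 * j).choose j * (p - 1 - j).choose (2 * j) : ℕ) : A) * t ^ j with hb1
  set b2 := ∑ j ∈ range p, (((2 * j).choose j * (2 * p - 1 - j).choose (2 * j) : ℕ) : A) * t ^ j
    with hb2
  set τ := tauA i125 i625 m with hτd
  -- powers
  obtain ⟨z3, hz3⟩ := fermat_lift (A := A) p hpA 3
  obtain ⟨z20, hz20⟩ := fermat_lift (A := A) p hpA 20
  obtain ⟨z9, hz9⟩ := fermat_lift (A := A) p hpA 9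
  push_cast at hz3 hz20 hz9
  set s : A := 3 ^ (p - 1) with hs
  have h3p : (3 : A) ^ p = 3 * s := by
    rw [hs, ← pow_succ', Nat.sub_add_cancel hp.out.one_le]
  obtain ⟨s1, hs1⟩ : ∃ s1 : A, s = 1 + p * s1 := by
    refine ⟨i3 * z3, ?_⟩
    rw [h3p] at hz3
    linear_combination i3 * hz3 - (s - 1) * hi3
  obtain ⟨w, hw⟩ := exists_add_pow_prime_eq hp.out (20 : A) (9 * r)
  obtain ⟨o1, ho1⟩ : ∃ o1 : A, (20 + 9 * r) ^ p * gt = 1 + p * o1 := by
    refine ⟨(z20 + 9 * d0 + z9 * r ^ p + 20 * (9 * r) * w) * gt, ?_⟩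
    rw [hw, mul_pow, hz20, hz9]
    linear_combination hgt + 9 * gt * hrp
  have hm3 : (-3 : A) ^ (p - 1) = s := by rw [hs, hev.neg_pow]
  have hm32 : (-3 : A) ^ (2 * p - 1) = -3 * s ^ 2 := by
    rw [← hm3, ← pow_mul, ← pow_succ']
    congr 1
    omega
  have hgg : (20 + 9 * r) ^ p * g' ^ p = 1 := by rw [← mul_pow, hg, one_pow]
  have e1 : s * b1 = p * ((20 + 9 * r) ^ p * E1) + 125 * τ * ((20 + 9 * r) ^ p * gt) := by
    rw [hm3] at he1
    linear_combination ((20 + 9 * r) ^ p) * he1 - (s * b1) * hgg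
  have e2 : -3 * s ^ 2 * b2 = 2 * p * (((20 + 9 * r) ^ p) ^ 2 * E2)
      - 375 * τ * ((20 + 9 * r) ^ p * gt) ^ 2 := by
    rw [hm32, show g' ^ (2 * p) = (g' ^ p) ^ 2 by rw [← pow_mul, mul_comm]] at he2
    linear_combination (((20 + 9 * r) ^ p) ^ 2) * he2
      + (3 * s ^ 2 * b2) * ((20 + 9 * r) ^ p * g' ^ p + 1) * hgg
      - (375 * τ * ((20 + 9 * r) ^ p * gt) ^ 2) * hi2
  rw [ho1] at e1 e2
  set y0 : A := 6 * s * ((20 + 9 * r) ^ p * E1) + 2 * (((20 + 9 * r) ^ p) ^ 2 * E2)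
    + p * (3 * s ^ 2 * z - 375 * τ * (s1 - o1) ^ 2) with hy0
  have hF : 3 * s ^ 2 * (FT A p t - 125 * τ) = p * y0 := by
    rw [hz, hy0]
    have e3 : 3 * s ^ 2 * (2 * b1) = 6 * s * (s * b1) := by ring
    have e4 : s - (1 + p * o1) = p * (s1 - o1) := by rw [hs1]; ring
    linear_combination (6 * s) * e1 + e2 - (375 * τ * (s - (1 + p * o1) + p * (s1 - o1))) * e4
  set si : A := i3 ^ (p - 1) with hsi
  have hssi : s * si = 1 := by rw [hs, hsi, ← mul_pow, hi3, one_pow]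
  have hFv : FT A p t = 125 * τ + p * (i3 * si ^ 2 * y0) := by
    have e5 : 3 * i3 * (s * si) ^ 2 = 1 := by rw [hssi, hi3, one_pow, mul_one]
    linear_combination (i3 * si ^ 2) * hF - (FT A p t - 125 * τ) * e5
  -- the values in the field
  have hπp : π (p : A) = 0 := by rw [map_natCast, CharP.cast_eq_zero K p]
  have hπs : π s = 1 := by rw [hs1, map_add, map_one, map_mul, hπp, zero_mul, add_zero]
  have hπg : π (20 + 9 * r) * π g' = 1 := by rw [← map_mul, hg, map_one]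
  have hnat : ∀ k : ℕ, (k : K) ^ p = k := by
    intro k
    have h1 := ZMod.pow_card (k : ZMod p)
    have h2 := congrArg (ZMod.castHom (dvd_refl p) K) h1
    rwa [map_pow, map_natCast] at h2
  have hπ1 : π ((20 + 9 * r) ^ p * E1) = 125 * (a ^ p + l ^ p) := by
    rw [map_mul, map_pow, hE1, ← mul_pow]
    have e6 : π (20 + 9 * r) * ((a + l) * (125 * π g')) = ((125 : ℕ) : K) * (a + l) := by
      push_cast
      linear_combination (125 * (a + l)) * hπg
    rw [e6, mul_pow, hnat, add_pow_char]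
    push_cast
    ring
  have h2p : (2 : K) ^ p = 2 := by
    have := hnat 2
    exact_mod_cast this
  have hπ2 : π (((20 + 9 * r) ^ p) ^ 2 * E2) = -375 * 2⁻¹ * (a ^ p + 2 * l ^ p) := by
    rw [map_mul, map_pow, map_pow, hE2, ← pow_mul, mul_comm p 2, pow_mul, ← mul_pow]
    have e6 : π (20 + 9 * r) ^ 2 * ((a + 2 * l) * (-375 * π g' ^ 2 * 2⁻¹))
        = -(((375 : ℕ) : K) * 2⁻¹ * (a + 2 * l)) := by
      push_cast
      linear_combination (-375 * 2⁻¹ * (a + 2 * l)) * (π (20 + 9 * r) * π g' + 1) * hπg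
    rw [e6, hodd.neg_pow, mul_pow, mul_pow, hnat, inv_pow, h2p, add_pow_char, mul_pow, h2p]
    push_cast
    ring
  have hπy0 : π y0 = 375 * a ^ p := by
    rw [hy0, map_add, map_mul _ (p : A), hπp, zero_mul, add_zero, map_add,
      map_mul _ (6 * s), map_mul _ (2 : A), hπ1, hπ2, map_mul, hπs]
    simp only [map_ofNat]
    have e7 : (2 : K) * 2⁻¹ = 1 := mul_inv_cancel₀ k2
    linear_combination (-375 * (a ^ p + 2 * l ^ p)) * e7
  have hπi3 : 3 * π i3 = 1 := by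
    have := congrArg π hi3
    simpa only [map_mul, map_ofNat, map_one] using this
  have hπsi : π si = 1 := by
    have := congrArg π hssi
    rwa [map_mul, hπs, one_mul, map_one] at this
  have hC : 625000 ^ m * (125 * τ) = (((2 * m).choose m : ℕ) : A) := by
    rw [hτd]
    unfold tauA
    rw [hevm.neg_one_pow]
    have e8 : (625000 * i625) ^ m = 1 := by rw [h625, one_pow]
    rw [mul_pow] at e8
    linear_combination ((((2 * m).choose m : ℕ) : A) * (125 * i125)) * e8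
      + (((2 * m).choose m : ℕ) : A) * h125
  refine ⟨625000 ^ m * (i3 * si ^ 2 * y0), ?_, ?_⟩
  · rw [hFv]
    linear_combination hC
  · have hCK := congrArg π hC
    rw [map_mul, map_pow, map_mul, hτ, map_natCast] at hCK
    simp only [map_ofNat] at hCK
    rw [map_mul, map_pow, map_mul, map_mul, map_pow, hπsi, hπy0, ha]
    simp only [map_ofNat]
    linear_combination ((dd : K) / 3 - (q : K) / 468750) * hCK
      + (625000 ^ m * 125 * (tauK K n m * ((dd : K) / 3 - (q : K) / 468750))) * hπi3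

end

end Pool.Agent.MP5c57f5
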