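import Pool.Agent.Lib.MP_5c57f5_nt.Ser7

/-!
The sum modulo `p^2` as an integer congruence.
-/

namespace Pool.Agent.MP5c57f5

open Finset

theorem main_int (p : ℕ) (hp : p.Prime) (h5 : 5 < p) (m : ℕ) (hm : 3 * m + 1 = p) :
    (p : ℤ) ^ 2 ∣ 3 * 625000 ^ (2 * m) * N8 p
      - (-8640) ^ (p - 1) * ((2 * m).choose m : ℤ) ^ 2 * (3 + 2 * (625000 ^ (3 * m) - 1)) := by
  have hf : Fact p.Prime := ⟨hp⟩
  have hpz : Prime (p : ℤ) := Nat.prime_iff_prime_int.mp hp
  have hn : 2 * (p / 2) + 1 = p := by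
    have := hp.eq_two_or_odd
    omega
  set n := p / 2 with hnd
  obtain ⟨A, _, _, K, _, _, _, π, r, r', d0, hu, hpA, hr, hr', hrp⟩ := ring_exists p hp h5
  -- Fermat quotients
  have hfer : ∀ a : ℤ, ¬ (p : ℤ) ∣ a → ∃ c : ℤ, a ^ (p - 1) - 1 = p * c := by
    intro a ha
    have h1 : IsCoprime a p := by
      rw [isCoprime_comm, Prime.coprime_iff_not_dvd hpz]
      exact ha
    exact (Int.ModEq.pow_card_sub_one_eq_one hp h1).symm.dvd
  have hsm : ∀ a b c : ℕ, ¬ (p : ℤ) ∣ ((2 ^ a * 3 ^ b * 5 ^ c : ℕ) : ℤ) := by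
    intro a b c h
    exact coeffs_small p h5 a b c (Int.natCast_dvd_natCast.mp h)
  obtain ⟨dd, hdd⟩ := hfer 4 (by
    have := hsm 2 0 0
    norm_num at this
    exact this)
  obtain ⟨q1, hq1⟩ := hfer 156250 (by
    have := hsm 1 0 7
    norm_num at this
    exact this)
  have hq : (156250 : ℤ) - 156250 ^ p = p * (-156250 * q1) := by
    have : (156250 : ℤ) ^ p = 156250 ^ (p - 1) * 156250 := by
      rw [← pow_succ, Nat.sub_add_cancel hp.one_le]
    rw [this]
    linear_combination (-156250) * hq1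
  obtain ⟨i1080, h1080⟩ : ∃ x : A, 1080 * x = 1 := by
    obtain ⟨w, hw⟩ := hu _ (coeffs_small p h5 3 3 1)
    refine ⟨((w⁻¹ : Aˣ) : A), ?_⟩
    have h1 : ((2 ^ 3 * 3 ^ 3 * 5 ^ 1 : ℕ) : A) = 1080 := by norm_num
    rw [← h1, ← hw, Units.mul_inv]
  obtain ⟨y, hy, hπy⟩ := F_value p π hu hpA r r' d0 hr hr' hrp h5 n m hn hm dd (-156250 * q1)
    hdd hq i1080 h1080
  set t : A := (20 + 9 * r) * i1080 with ht
  have hz : (-8640) * (t * (1 - 27 * t)) = 1 := by
    have e1 : 1080 * t = 20 + 9 * r := by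
      rw [ht]
      linear_combination (20 + 9 * r) * h1080
    have e2 : (1080 : A) ^ 2 * (-8640 * (t * (1 - 27 * t)) - 1) = 0 := by
      linear_combination (-8640 * 1080 + 8640 * 27 * (1080 * t + 20 + 9 * r)) * e1
        + 8640 * 27 * 81 * hr
    rcases mul_eq_zero.mp e2 with h | h
    · exfalso
      have h1 : (1080 : A) * (1080 * i1080) * i1080 = 0 := by linear_combination i1080 ^ 2 * h
      rw [h1080, mul_one, h1080] at h1
      exact one_ne_zero h1
    · linear_combination h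
  -- Clausen
  obtain ⟨Q, hQ⟩ := clausen_sq p hp (by omega)
  have hcl := congrArg (Polynomial.aeval t) hQ
  rw [Polynomial.aeval_comp, map_add, map_mul, map_mul, map_pow, map_sub, map_one, map_mul,
    Polynomial.aeval_X, Polynomial.aeval_C] at hcl
  have e27 : (Polynomial.aeval t) (27 : Polynomial ℤ) = 27 := map_ofNat _ 27
  rw [e27] at hcl
  have hFT : (Polynomial.aeval t) (∑ n ∈ range p, Polynomial.C (u n : ℤ) * Polynomial.X ^ n)
      = FT A p t := by
    unfold FT
    rw [map_sum]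
    apply sum_congr rfl
    intro j _
    rw [map_mul, map_pow, Polynomial.aeval_X, Polynomial.aeval_C]
    simp
  rw [hFT] at hcl
  have hN : ((N8 p : ℤ) : A) = (-8640) ^ (p - 1)
      * (Polynomial.aeval (t * (1 - 27 * t))) (MP8cc25e.YS p) := by
    unfold MP8cc25e.YS N8
    rw [map_sum, mul_sum]
    push_cast
    apply sum_congr rfl
    intro j hj
    rw [mem_range] at hj
    rw [map_mul, map_pow, Polynomial.aeval_X, Polynomial.aeval_C]
    have e1 : (-8640 : A) ^ (p - 1) = (-8640) ^ (p - 1 - j) * (-8640) ^ j := by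
      rw [← pow_add]
      congr 1
      omega
    have e2 : ((-8640) * (t * (1 - 27 * t))) ^ j = 1 := by rw [hz, one_pow]
    rw [mul_pow] at e2
    have e3 : (algebraMap ℤ A) (MP8cc25e.sg j : ℤ) = (MP8cc25e.sg j : A) := by simp
    rw [e1, e3]
    linear_combination (-((MP8cc25e.sg j : A) * (-8640) ^ (p - 1 - j))) * e2
  rw [hcl] at hN
  have hpp : ((algebraMap ℤ A) ((p : ℤ) ^ 2)) = (p : A) ^ 2 := by simp
  rw [hpp] at hN
  -- the last quotient
  obtain ⟨q2, hq2⟩ := hfer 625000 (by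
    have := hsm 3 0 7
    norm_num at this
    exact this)
  have hrel : q2 = dd + q1 + p * (dd * q1) := by
    apply mul_left_cancel₀ hpz.ne_zero
    have e1 : (625000 : ℤ) ^ (p - 1) = 4 ^ (p - 1) * 156250 ^ (p - 1) := by
      rw [← mul_pow]
      norm_num
    rw [← hq2, e1]
    linear_combination (156250 ^ (p - 1)) * hdd + (1 + p * dd) * hq1
  -- the difference
  set D : ℤ := 3 * 625000 ^ (2 * m) * N8 p
      - (-8640) ^ (p - 1) * ((2 * m).choose m : ℤ) ^ 2 * (3 + 2 * (625000 ^ (3 * m) - 1)) with hD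
  set c : A := (((2 * m).choose m : ℕ) : A) with hc
  have hDA : (D : A) = p * ((-8640) ^ (p - 1) * (6 * c * y - 2 * c ^ 2 * q2
      + p * (3 * y ^ 2 + 3 * 625000 ^ (2 * m) * (Polynomial.aeval t) Q))) := by
    rw [hD]
    push_cast
    rw [hN]
    have e1 : (625000 : A) ^ (2 * m) = (625000 ^ m) ^ 2 := by rw [← pow_mul, mul_comm]
    have e2 : (625000 : A) ^ (3 * m) = 1 + p * q2 := by
      have h1 := congrArg (fun z : ℤ => (z : A)) hq2
      push_cast at h1
      rw [show 3 * m = p - 1 by omega]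
      linear_combination h1
    rw [e2, e1]
    linear_combination (3 * (-8640) ^ (p - 1) * (625000 ^ m * FT A p t + (c + p * y))) * hy
  have hπp : π (p : A) = 0 := by rw [map_natCast, CharP.cast_eq_zero K p]
  obtain ⟨k2, k3, k5⟩ := small_ne (K := K) p h5
  have hπ0 : π ((-8640) ^ (p - 1) * (6 * c * y - 2 * c ^ 2 * q2
      + p * (3 * y ^ 2 + 3 * 625000 ^ (2 * m) * (Polynomial.aeval t) Q))) = 0 := by
    rw [map_mul]
    have e1 : π (6 * c * y - 2 * c ^ 2 * q2
      + p * (3 * y ^ 2 + 3 * 625000 ^ (2 * m) * (Polynomial.aeval t) Q)) = 0 := by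
      rw [map_add, map_mul π (p : A), hπp, zero_mul, add_zero, map_sub, map_mul, map_mul, map_mul,
        map_mul, map_pow, hc, map_natCast, hπy, hrel]
      push_cast
      rw [map_add, map_add, map_mul π (p : A), hπp, zero_mul, add_zero, map_intCast, map_intCast]
      simp only [map_ofNat]
      have k4 : (468750 : K) = 156250 * 3 := by norm_num
      have h156 : (156250 : K) ≠ 0 := by
        rw [show (156250 : K) = 2 * 5 ^ 7 by norm_num]
        exact mul_ne_zero k2 (pow_ne_zero _ k5)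
      rw [k4]
      field_simp
      ring
    rw [e1, mul_zero]
  -- descent to the integers
  have h1 : (p : ℤ) ∣ D := by
    have h2 : ((D : ℤ) : K) = 0 := by
      have h3 := congrArg π hDA
      rw [map_intCast, map_mul, hπp, zero_mul] at h3
      exact h3
    rwa [CharP.intCast_eq_zero_iff K p] at h2
  obtain ⟨D', hD'⟩ := h1
  have h2 : ((D' : ℤ) : A) = ((-8640) ^ (p - 1) * (6 * c * y - 2 * c ^ 2 * q2
      + p * (3 * y ^ 2 + 3 * 625000 ^ (2 * m) * (Polynomial.aeval t) Q))) := by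
    apply mul_left_cancel₀ hpA
    rw [← hDA, hD']
    push_cast
    rfl
  have h3 : (p : ℤ) ∣ D' := by
    have h4 : ((D' : ℤ) : K) = 0 := by
      have h6 := congrArg π h2
      rw [map_intCast, hπ0] at h6
      exact h6
    rwa [CharP.intCast_eq_zero_iff K p] at h4
  obtain ⟨D'', hD''⟩ := h3
  exact ⟨D'', by rw [hD', hD'']; ring⟩

end Pool.Agent.MP5c57f5
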